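import Pool.Agent.H96.ZN.Alg

/-!
# The second order expansion of a product over several linear relations
-/

set_option autoImplicit false
set_option linter.unusedSectionVars false

namespace Pool.Agent.H96.ZP

open MvPolynomial

section Circuit

variable {υ : Type} {p : ℕ} [Fact p.Prime]

/-- The polynomial of the second order, and the denominator. -/
theorem exists_circuit {ι : Type} [Fintype ι] (lam : ι → ℤ)
    (hlam : ∀ i, lam i = 0 ∨ ¬ (p : ℤ) ∣ lam i) (a : υ)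
    (b : ι → υ) (hb : Function.Injective b) (hab : ∀ i, b i ≠ a) :
    ∃ Q P : MvPolynomial υ (ZMod p),
      (∀ (B : Type) [Field B] [Algebra (ZMod p) B] (Y : υ → B),
        ∏ i, (1 + Y a * Y (b i) * (lam i : B)⁻¹) ^ (lam i).toNat -
          ∏ i, (1 + Y a * Y (b i) * (lam i : B)⁻¹) ^ (-lam i).toNat =
          Y a * (∑ i, if lam i = 0 then 0 else Y (b i)) + Y a ^ 2 * aeval Y Q ∧
        aeval Y P = ∏ i, (1 + Y a * Y (b i) * (lam i : B)⁻¹) ^ (-lam i).toNat) ∧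
      ∀ (B : Type) [Field B] [Algebra (ZMod p) B] (Y : υ → B), Y a = 0 →
        ((∑ i, if lam i = 0 then 0 else Y (b i)) = 0 →
          2 * aeval Y Q = - ∑ i, Y (b i) ^ 2 * (lam i : B)⁻¹ ∧
          (∃ E : B, ∀ i, aeval Y (pderiv (b i) Q) =
            if lam i = 0 then 0 else E - Y (b i) * (lam i : B)⁻¹)) ∧
        aeval Y P = 1 ∧ ∀ l, l ≠ a → aeval Y (pderiv l P) = 0 := by
  obtain ⟨R, ⟨e⟩⟩ := Finite.exists_equiv_fin ι
  obtain ⟨Q, P, h1, h2⟩ := ZN.exists_circuit (p := p) (fun i : Fin R => lam (e.symm i))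
    (fun i => hlam _) a (fun i => b (e.symm i)) (fun i j h => e.symm.injective (hb h))
    (fun i => hab _)
  have hs : ∀ {β : Type} [AddCommMonoid β] (g : ι → β), ∑ i, g (e.symm i) = ∑ i, g i :=
    fun g => Equiv.sum_comp e.symm g
  have hp : ∀ {β : Type} [CommMonoid β] (g : ι → β), ∏ i, g (e.symm i) = ∏ i, g i :=
    fun g => Equiv.prod_comp e.symm g
  refine ⟨Q, P, fun B _ _ Y => ?_, fun B _ _ Y ha => ?_⟩
  · obtain ⟨h3, h4⟩ := h1 B Y
    rw [hp fun i => (1 + Y a * Y (b i) * (lam i : B)⁻¹) ^ (lam i).toNat,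
      hp fun i => (1 + Y a * Y (b i) * (lam i : B)⁻¹) ^ (-lam i).toNat,
      hs fun i => if lam i = 0 then 0 else Y (b i)] at h3
    rw [hp fun i => (1 + Y a * Y (b i) * (lam i : B)⁻¹) ^ (-lam i).toNat] at h4
    exact ⟨h3, h4⟩
  · obtain ⟨h3, h4⟩ := h2 B Y ha
    rw [hs fun i => if lam i = 0 then 0 else Y (b i),
      hs fun i => Y (b i) ^ 2 * (lam i : B)⁻¹] at h3
    refine ⟨fun h => ?_, h4⟩
    obtain ⟨h5, E, h6⟩ := h3 h
    refine ⟨h5, E, fun i => ?_⟩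
    have h7 := h6 (e i)
    simp only [Equiv.symm_apply_apply] at h7
    exact h7

end Circuit

section Field

variable {B : Type} [Field B] {C : Type} [Fintype C] {R : C → ℕ}

/-- The value of the circuit monomial. -/
theorem mon_circuit (lam : (Σ c, Fin (R c + 1)) → ℤ) (ζ : (Σ c, Fin (R c + 1)) → B)
    (u : (Σ c, Fin (R c)) → B)
    (hl0 : ∀ c, (lam ⟨c, 0⟩ : B) ≠ 0) (h0 : ∀ c, ζ ⟨c, 0⟩ ≠ 0)
    (hu : ∀ h : Σ c, Fin (R c), lam ⟨h.1, h.2.succ⟩ ≠ 0 → u h ≠ 0)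
    (hs : ∀ c, ∑ i, lam ⟨c, i⟩ = 0)
    (h : ∀ h : Σ c, Fin (R c), lam ⟨h.1, h.2.succ⟩ ≠ 0 → (lam ⟨h.1, 0⟩ : B) * ζ ⟨h.1, h.2.succ⟩ =
      ζ ⟨h.1, 0⟩ * (lam ⟨h.1, h.2.succ⟩ * u h)) :
    (∏ s, ζ s ^ lam s) * ∏ h : Σ c, Fin (R c), u h ^ (-lam ⟨h.1, h.2.succ⟩).toNat =
      (∏ s, (lam s : B) ^ lam s) *
        ∏ h : Σ c, Fin (R c), u h ^ (lam ⟨h.1, h.2.succ⟩).toNat := by
  rw [Fintype.prod_sigma, Fintype.prod_sigma, Fintype.prod_sigma, Fintype.prod_sigma,
    ← Finset.prod_mul_distrib, ← Finset.prod_mul_distrib]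
  exact Finset.prod_congr rfl fun c _ => ZN.mon_circuit (fun i => lam ⟨c, i⟩) (fun i => ζ ⟨c, i⟩)
    (fun i => u ⟨c, i⟩) (hl0 c) (h0 c) (fun i hi => hu ⟨c, i⟩ hi) (hs c)
    fun i hi => h ⟨c, i⟩ hi

end Field

section Final

variable {F : Type} [Field F] {C : Type} [Fintype C] [DecidableEq C] {R : C → ℕ}

/-- The sum over the circuit of a sub-block. -/
theorem sum_succ (lam : (Σ c, Fin (R c + 1)) → F) (hs : ∀ c, ∑ i, lam ⟨c, i⟩ = 0) (c : C) :
    ∑ i : Fin (R c), lam ⟨c, i.succ⟩ = -lam ⟨c, 0⟩ := by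
  have h1 := hs c
  rw [Fin.sum_univ_succ] at h1
  linear_combination h1

theorem exists_nz (lam : (Σ c, Fin (R c + 1)) → F) (hl : ∀ c, lam ⟨c, 0⟩ ≠ 0)
    (hs : ∀ c, ∑ i, lam ⟨c, i⟩ = 0) (c : C) : ∃ i : Fin (R c), lam ⟨c, i.succ⟩ ≠ 0 := by
  by_contra h
  push Not at h
  have h1 := sum_succ lam hs c
  rw [Finset.sum_eq_zero fun i _ => h i] at h1
  exact hl c (neg_eq_zero.mp h1.symm)

/-- A combination in which every sub-block has a constant factor. -/
theorem sum_const (y : (Σ c, Fin (R c)) → F) (hy : ∀ c, ∑ i, y ⟨c, i⟩ = 0) (g : C → F) :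
    ∑ h : Σ c, Fin (R c), y h * g h.1 = 0 := by
  rw [Fintype.sum_sigma]
  refine Finset.sum_eq_zero fun c _ => ?_
  show ∑ i : Fin (R c), y ⟨c, i⟩ * g c = 0
  rw [← Finset.sum_mul, hy, zero_mul]

/-- The criterion for the last block, in the first case. -/
theorem crit (lam : (Σ c, Fin (R c + 1)) → F) (hl : ∀ c, lam ⟨c, 0⟩ ≠ 0)
    (hs : ∀ c, ∑ i, lam ⟨c, i⟩ = 0)
    (h0 : Σ c, Fin (R c)) (y : (Σ c, Fin (R c)) → F) (hy : ∀ c, ∑ i, y ⟨c, i⟩ = 0)
    (hy0 : y h0 = 1) (a : C → F) (b c E : F)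
    (h1 : c * ∑ h : Σ c, Fin (R c), y h ^ 2 * (lam ⟨h.1, h.2.succ⟩)⁻¹ = 0)
    (h2 : ∀ h : Σ c, Fin (R c), (lam ⟨h.1, h.2.succ⟩ = 0 ∧ y h = 0) ∨
      (lam ⟨h.1, h.2.succ⟩ ≠ 0 ∧
      a h.1 + b * (if h = h0 then 1 else 0) + c * (E - y h * (lam ⟨h.1, h.2.succ⟩)⁻¹) = 0)) :
    (∀ c, a c = 0) ∧ b = 0 ∧ c = 0 := by
  classical
  have hb : b = 0 := by
    have h3 : ∑ h : Σ c, Fin (R c), y h * (a h.1 + b * (if h = h0 then 1 else 0) +
        c * (E - y h * (lam ⟨h.1, h.2.succ⟩)⁻¹)) = 0 := by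
      refine Finset.sum_eq_zero fun i _ => ?_
      rcases h2 i with ⟨-, h⟩ | ⟨-, h⟩
      · rw [h, zero_mul]
      · rw [h, mul_zero]
    have h4 : ∀ h : Σ c, Fin (R c), y h * (a h.1 + b * (if h = h0 then 1 else 0) +
        c * (E - y h * (lam ⟨h.1, h.2.succ⟩)⁻¹)) = y h * (a h.1 + c * E) +
          (b * (if h = h0 then y h else 0) - c * (y h ^ 2 * (lam ⟨h.1, h.2.succ⟩)⁻¹)) := by
      intro i
      split_ifs <;> ring
    rw [Finset.sum_congr rfl fun i _ => h4 i, Finset.sum_add_distrib, Finset.sum_sub_distrib,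
      sum_const y hy fun x => a x + c * E, ← Finset.mul_sum, ← Finset.mul_sum, h1,
      Finset.sum_ite_eq' Finset.univ h0, if_pos (Finset.mem_univ _), hy0] at h3
    linear_combination h3
  have h3 : ∀ h : Σ c, Fin (R c), lam ⟨h.1, h.2.succ⟩ * (a h.1 + c * E) = c * y h := by
    intro i
    rcases h2 i with ⟨h4, h5⟩ | ⟨h4, h5⟩
    · rw [h4, h5, zero_mul, mul_zero]
    rw [hb, zero_mul, add_zero] at h5
    field_simp at h5
    linear_combination h5
  have h4 : ∀ x, a x + c * E = 0 := by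
    intro x
    have h5 : ∑ i : Fin (R x), lam ⟨x, i.succ⟩ * (a x + c * E) = ∑ i, c * y ⟨x, i⟩ :=
      Finset.sum_congr rfl fun i _ => h3 ⟨x, i⟩
    rw [← Finset.sum_mul, sum_succ lam hs, ← Finset.mul_sum, hy, mul_zero] at h5
    rcases mul_eq_zero.mp h5 with h6 | h6
    · exact absurd (neg_eq_zero.mp h6) (hl x)
    · exact h6
  have hc : c = 0 := by
    have h5 := h3 h0
    rw [h4, mul_zero, hy0, mul_one] at h5
    exact h5.symm
  refine ⟨fun x => ?_, hb, hc⟩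
  have h5 := h4 x
  rwa [hc, zero_mul, add_zero] at h5

/-- The independence of the differentials. -/
theorem final (lam : (Σ c, Fin (R c + 1)) → F) (hl : ∀ c, lam ⟨c, 0⟩ ≠ 0)
    (hs : ∀ c, ∑ i, lam ⟨c, i⟩ = 0)
    (z : (Σ c, Fin (R c)) → Prop) [DecidablePred z]
    (hzl : ∀ h : Σ c, Fin (R c), lam ⟨h.1, h.2.succ⟩ = 0 ↔ z h)
    (h0 : Σ c, Fin (R c)) (y : (Σ c, Fin (R c)) → F) (hy : ∀ c, ∑ i, y ⟨c, i⟩ = 0)
    (hy0 : y h0 = 1) (aZ : (Σ c, Fin (R c)) → F) (aL : C → F) (aX aJ Q c : F)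
    (f G : (Σ c, Fin (R c)) → F)
    (hf : ∀ h, ¬ z h → f h = 0)
    (hS : ∑ h, (if z h then -(aZ h * y h) else 0) + aJ * (2 * Q * c) = 0)
    (hz : ∀ h, (if z h then aZ h * y h else aZ h * lam ⟨h.1, 0⟩) + aJ * f h = 0)
    (hY : ∀ h, (if z h then -aZ h else 0) + aL h.1 +
      aX * (if h = h0 then 1 else 0) + aJ * G h = 0)
    (halt : (c = 1 ∧ (∀ h, z h → y h = 0) ∧
        2 * Q = - ∑ h : Σ c, Fin (R c), y h ^ 2 * (lam ⟨h.1, h.2.succ⟩)⁻¹ ∧
        ∃ E, ∀ h, G h = if z h then 0 else E - y h * (lam ⟨h.1, h.2.succ⟩)⁻¹) ∨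
      (c = 0 ∧ (∀ h, G h = 0) ∧ ∃ h, z h ∧ f h ≠ 0)) :
    (∀ h, aZ h = 0) ∧ (∀ x, aL x = 0) ∧ aX = 0 ∧ aJ = 0 := by
  classical
  have hzl' : ∀ h : Σ c, Fin (R c), ¬ z h → lam ⟨h.1, h.2.succ⟩ ≠ 0 :=
    fun i hi h => hi ((hzl i).mp h)
  -- the directions of the forms with vanishing exponents
  have hz1 : ∀ i, z i → aZ i * y i = -(aJ * f i) := by
    intro i hi
    have h1 := hz i
    rw [if_pos hi] at h1
    linear_combination h1
  have hfs : ∑ i, (if z i then -(aZ i * y i) else 0) = aJ * ∑ i, f i := by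
    rw [Finset.mul_sum]
    refine Finset.sum_congr rfl fun i _ => ?_
    by_cases hi : z i
    · rw [if_pos hi, hz1 i hi, neg_neg]
    · rw [if_neg hi, hf i hi, mul_zero]
  have hZ0 : ∀ i, ¬ z i → aZ i = 0 := by
    intro i hi
    have h1 := hz i
    rw [if_neg hi, hf i hi, mul_zero, add_zero] at h1
    exact (mul_eq_zero.mp h1).resolve_right (hl _)
  rw [hfs] at hS
  -- the last block
  rcases halt with ⟨hc, hy', hQ, E, hG⟩ | ⟨hc, hG, j, hj, hfj⟩
  · have hJf : aJ * ∑ i, f i = 0 := by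
      rw [← hfs]
      refine Finset.sum_eq_zero fun i _ => ?_
      split_ifs with hi
      · rw [hy' i hi, mul_zero, neg_zero]
      · rfl
    obtain ⟨hL0, hX0, hJ0⟩ := crit lam hl hs h0 y hy hy0 aL aX aJ E (by
      rw [hc, mul_one] at hS
      linear_combination hJf - hS + aJ * hQ) fun i => by
        by_cases hi : z i
        · exact Or.inl ⟨(hzl i).mpr hi, hy' i hi⟩
        · refine Or.inr ⟨hzl' i hi, ?_⟩
          have h1 := hY i
          rw [if_neg hi, hG i, if_neg hi, zero_add] at h1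
          exact h1
    refine ⟨fun i => ?_, hL0, hX0, hJ0⟩
    by_cases hi : z i
    · have h1 := hY i
      rw [if_pos hi, hL0, hX0, hJ0, zero_mul, zero_mul, add_zero, add_zero, add_zero] at h1
      exact neg_eq_zero.mp h1
    · exact hZ0 i hi
  · rw [hc, mul_zero, mul_zero, add_zero] at hS
    have hX0 : aX = 0 := by
      have h3 : ∑ h : Σ c, Fin (R c), y h * (aL h.1 + aX * (if h = h0 then 1 else 0)) = 0 := by
        have h3' : -(∑ i, (if z i then -(aZ i * y i) else 0)) = 0 :=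
          neg_eq_zero.mpr (hfs.trans hS)
        rw [← Finset.sum_neg_distrib] at h3'
        refine Eq.trans (Finset.sum_congr rfl fun i _ => ?_) h3'
        have h1 := hY i
        rw [hG i, mul_zero, add_zero] at h1
        by_cases hi : z i
        · rw [if_pos hi] at h1 ⊢
          linear_combination (y i) * h1
        · rw [if_neg hi] at h1 ⊢
          linear_combination (y i) * h1
      have h4 : ∀ h : Σ c, Fin (R c), y h * (aL h.1 + aX * (if h = h0 then 1 else 0)) =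
          y h * aL h.1 + aX * (if h = h0 then y h else 0) := by
        intro i
        split_ifs <;> ring
      rw [Finset.sum_congr rfl fun i _ => h4 i, Finset.sum_add_distrib, sum_const y hy aL,
        ← Finset.mul_sum, Finset.sum_ite_eq' Finset.univ h0, if_pos (Finset.mem_univ _),
        hy0] at h3
      linear_combination h3
    have hL0 : ∀ x, aL x = 0 := by
      intro x
      obtain ⟨i, hi⟩ := exists_nz lam hl hs x
      have h1 := hY ⟨x, i⟩
      rw [if_neg (fun h => hi ((hzl ⟨x, i⟩).mpr h)), hG, hX0, zero_mul, mul_zero, add_zero,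
        add_zero, zero_add] at h1
      exact h1
    have hZ1 : ∀ i, aZ i = 0 := by
      intro i
      by_cases hi : z i
      · have h1 := hY i
        rw [if_pos hi, hL0, hX0, hG i, zero_mul, mul_zero, add_zero, add_zero, add_zero] at h1
        exact neg_eq_zero.mp h1
      · exact hZ0 i hi
    refine ⟨hZ1, hL0, hX0, ?_⟩
    have h1 := hz1 j hj
    rw [hZ1, zero_mul] at h1
    exact (mul_eq_zero.mp (neg_eq_zero.mp h1.symm)).resolve_right hfj

end Final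

end Pool.Agent.H96.ZP
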