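import Pool.Agent.H96.ZP.Fin

/-!
# Complete intersections with few monomials over products of curves and surfaces: the general case
-/

set_option autoImplicit false
set_option linter.unusedSectionVars false

namespace Pool.Agent.H96.ZP

open Pool.Agent.H96.X (Fac)
open Pool.Agent.H19.OG (HasCharts)

/-- **Models of fibre products of complete intersections with few monomials.** -/
theorem hasCharts_few (p : ℕ) [Fact p.Prime] (k : Type) [Field k] [Finite k] [CharP k p]
    (K : Type) [Field K] [Algebra k K] {n : ℕ}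
    (F : Fin n → IntermediateField k K) (hF : ∀ i, F i = ⊥ ∨ Fac p (F i))
    {B G : Type} [Fintype B] [DecidableEq B] [Fintype G] [DecidableEq G] (r : B → ℕ)
    (hr : ∀ b, 2 ≤ r b) (φ : G → Fin n)
    (z : ∀ b, Fin (r b + 1) → K) (lam : G → ∀ b, Fin (r b + 1) → ℤ) (hz0 : ∀ b i, z b i ≠ 0)
    (hzs : ∀ b, ∑ i, z b i = 0) (hc : ∀ g, ∏ b, ∏ i, z b i ^ lam g b i ∈ F (φ g))
    (hls : ∀ g b, ∑ i, lam g b i = 0)
    (hlp : ∀ g b i, lam g b i = 0 ∨ ¬ (p : ℤ) ∣ lam g b i)
    (hu : ∀ b g g', lam g b ≠ 0 → lam g' b ≠ 0 → g = g') (hn : ∀ g, lam g ≠ 0)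
    {N : ℕ} (w : Fin N → K) (e : Fin N → ℕ)
    (h : ∀ i, Fin N → F i) (a : Fin N → ∀ b, Fin (r b + 1) → ℤ) (he : ∀ j, ¬ p ∣ e j)
    (hh : ∀ i j, h i j ≠ 0) (has : ∀ j b, ∑ i, a j b i = 0)
    (hw : ∀ j, w j ^ e j = (∏ i, (h i j : K)) * ∏ b, ∏ i, z b i ^ a j b i)
    (hgen : (⨆ i, F i) ⊔ IntermediateField.adjoin k
      ({x | ∃ b i j, x = z b i / z b j} ∪ Set.range w) = ⊤)
    (htr : ∑ i, Algebra.trdeg k (F i) + ((∑ b, (r b - 1) : ℕ) : Cardinal.{0}) ≤
      Algebra.trdeg k K + (Fintype.card G : Cardinal.{0})) :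
    HasCharts K := by
  classical
  -- the first exponent of every circuit is not zero, after a permutation
  have hσ : ∀ b, ∃ σ : Equiv.Perm (Fin (r b + 1)), ∀ g, lam g b = 0 ∨ lam g b (σ 0) ≠ 0 := by
    intro b
    by_cases hb : ∃ g, lam g b ≠ 0
    · obtain ⟨g, hg⟩ := hb
      obtain ⟨i, hi⟩ := Function.ne_iff.mp hg
      refine ⟨Equiv.swap 0 i, fun g' => ?_⟩
      by_cases hg' : lam g' b = 0
      · exact Or.inl hg'
      · right
        rw [← hu b g g' hg hg', Equiv.swap_apply_left]
        exact hi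
    · push Not at hb
      exact ⟨1, fun g => Or.inl (hb g)⟩
  choose σ hσ using hσ
  -- the groups of the blocks
  let X : Type := G ⊕ {b // ∀ g, lam g b = 0}
  let P : X → B → Prop := fun x => Sum.elim (fun g b => lam g b ≠ 0) (fun b' b => b = b'.1) x
  let lx : X → ∀ b, Fin (r b + 1) → ℤ := fun x => Sum.elim lam (fun _ _ => 0) x
  let C : X → Type := fun x => {b // P x b}
  let iC : ∀ x, Fintype (C x) := fun x => inferInstanceAs (Fintype {b // P x b})
  let iD : ∀ x, DecidableEq (C x) := fun x => inferInstanceAs (DecidableEq {b // P x b})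
  have hbij : Function.Bijective (fun v : Σ x, C x => v.2.1) := by
    constructor
    · rintro ⟨x, c, h1⟩ ⟨x', c', h2⟩ h3
      have h3' : c = c' := h3
      subst h3'
      have h4 : x = x' := by
        rcases x with g | b <;> rcases x' with g' | b'
        · exact congrArg Sum.inl (hu c g g' h1 h2)
        · have h5 : c = b'.1 := h2
          have h6 : lam g c ≠ 0 := h1
          subst h5
          exact absurd (b'.2 g) h6
        · have h5 : c = b.1 := h1
          have h6 : lam g' c ≠ 0 := h2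
          subst h5
          exact absurd (b.2 g') h6
        · have h5 : c = b.1 := h1
          have h6 : c = b'.1 := h2
          exact congrArg Sum.inr (Subtype.ext (h5.symm.trans h6))
      subst h4
      rfl
    · intro b
      by_cases hb : ∃ g, lam g b ≠ 0
      · obtain ⟨g, hg⟩ := hb
        exact ⟨⟨Sum.inl g, ⟨b, hg⟩⟩, rfl⟩
      · push Not at hb
        exact ⟨⟨Sum.inr ⟨b, hb⟩, ⟨b, rfl⟩⟩, rfl⟩
  have hprod : ∀ f : B → K, ∏ x, ∏ c : C x, f c.1 = ∏ b, f b := fun f =>
    (Fintype.prod_sigma (fun v : Σ x, C x => f v.2.1)).symm.trans (hbij.prod_comp f)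
  have hsum : ∀ f : B → ℕ, ∑ x, ∑ c : C x, f c.1 = ∑ b, f b := fun f =>
    (Fintype.sum_sigma (fun v : Σ x, C x => f v.2.1)).symm.trans (hbij.sum_comp f)
  have hne : ∀ x, Nonempty (C x) := by
    rintro (g | b)
    · obtain ⟨b, hb⟩ := Function.ne_iff.mp (hn g)
      exact ⟨⟨b, hb⟩⟩
    · exact ⟨⟨b.1, rfl⟩⟩
  -- the ground field is added to the factors
  let F' : Option (Fin n) → IntermediateField k K := fun i => i.elim ⊥ F
  let h' : ∀ i, Fin N → F' i := fun i => match i with
    | none => fun _ => 1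
    | some i => h i
  let φ' : X → Option (Fin n) := fun x => Sum.elim (fun g => some (φ g)) (fun _ => none) x
  refine hasCharts_aux p k K F' (fun i => ?_) C hne (fun x c => r c.1) φ'
    (fun x u => z u.1.1 (σ u.1.1 u.2)) (fun x u => lx x u.1.1 (σ u.1.1 u.2)) (fun x u => hz0 _ _)
    (fun x c => ?_) (fun x => ?_) (fun x c => ?_) (fun x u => ?_) (fun x => ?_) w e h'
    (fun j x u => a j u.1.1 (σ u.1.1 u.2)) he (fun i j => ?_) (fun j x c => ?_) (fun j => ?_) ?_ ?_
  · rcases i with _ | i
    · exact Or.inl rfl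
    · exact hF i
  · rw [← hzs c.1]
    exact Equiv.sum_comp (σ c.1) (z c.1)
  · rcases x with g | b
    · have h1 : ∏ u : Ux C (fun x c => r c.1) (Sum.inl g),
          z u.1.1 (σ u.1.1 u.2) ^ lam g u.1.1 (σ u.1.1 u.2) =
          ∏ c : C (Sum.inl g), ∏ i, z c.1 i ^ lam g c.1 i := by
        rw [Fintype.prod_sigma]
        exact Finset.prod_congr rfl fun c _ =>
          Equiv.prod_comp (σ c.1) fun i => z c.1 i ^ lam g c.1 i
      have h2 : ∏ c : C (Sum.inl g), ∏ i, z c.1 i ^ lam g c.1 i =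
          ∏ b ∈ Finset.univ.filter (P (Sum.inl g)), ∏ i, z b i ^ lam g b i :=
        (Finset.prod_subtype _ (fun b => by rw [Finset.mem_filter]; simp)
          fun b => ∏ i, z b i ^ lam g b i).symm
      have h3 : ∏ b ∈ Finset.univ.filter (P (Sum.inl g)), ∏ i, z b i ^ lam g b i =
          ∏ b, ∏ i, z b i ^ lam g b i := by
        refine Finset.prod_subset (Finset.filter_subset _ _) fun b _ hb => ?_
        refine Finset.prod_eq_one fun i _ => ?_
        have h4 : lam g b = 0 := by
          by_contra h5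
          exact hb (Finset.mem_filter.mpr ⟨Finset.mem_univ _, h5⟩)
        rw [h4, Pi.zero_apply, zpow_zero]
      exact (h1.trans (h2.trans h3)) ▸ hc g
    · show ∏ u : Σ c : C (Sum.inr b), Fin (r c.1 + 1), z u.1.1 (σ u.1.1 u.2) ^ (0 : ℤ) ∈
        (⊥ : IntermediateField k K)
      rw [Finset.prod_eq_one fun u _ => zpow_zero _]
      exact one_mem _
  · have h1 : ∑ i, lx x c.1 (σ c.1 i) = ∑ i, lx x c.1 i := Equiv.sum_comp (σ c.1) (lx x c.1)
    refine h1.trans ?_
    rcases x with g | b
    · exact hls g c.1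
    · exact Finset.sum_eq_zero fun _ _ => rfl
  · rcases x with g | b
    · exact hlp g _ _
    · exact Or.inl rfl
  · rcases x with g | b
    · exact Or.inr fun c => (hσ c.1 g).resolve_left c.2
    · exact Or.inl rfl
  · rcases i with _ | i
    · exact one_ne_zero
    · exact hh i j
  · rw [← has j c.1]
    exact Equiv.sum_comp (σ c.1) (a j c.1)
  · rw [hw j, Fintype.prod_option]
    have h1 : ((h' none j : F' none) : K) = 1 := rfl
    rw [h1, one_mul]
    congr 1
    rw [← hprod]
    refine Finset.prod_congr rfl fun x _ => ?_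
    rw [Fintype.prod_sigma]
    refine Finset.prod_congr rfl fun c _ => ?_
    exact (Equiv.prod_comp (σ c.1) fun i => z c.1 i ^ a j c.1 i).symm
  · rw [← hgen, iSup_option]
    have h1 : F' none = ⊥ := rfl
    rw [h1, bot_sup_eq]
    congr 2
    congr 1
    ext y
    constructor
    · rintro ⟨x, c, i, j, rfl⟩
      exact ⟨c.1, σ c.1 i, σ c.1 j, rfl⟩
    · rintro ⟨b, i, j, rfl⟩
      obtain ⟨⟨x, c⟩, rfl⟩ := hbij.2 b
      refine ⟨x, c, (σ c.1).symm i, (σ c.1).symm j, ?_⟩
      show z c.1 i / z c.1 j = z c.1 (σ c.1 ((σ c.1).symm i)) / z c.1 (σ c.1 ((σ c.1).symm j))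
      rw [Equiv.apply_symm_apply, Equiv.apply_symm_apply]
  · rw [Fintype.sum_option]
    have halg : Algebra.IsAlgebraic k (⊥ : IntermediateField k K) :=
      (IntermediateField.botEquiv k K).symm.isAlgebraic
    have h1 : Algebra.trdeg k (F' none) = 0 := by
      show Algebra.trdeg k (⊥ : IntermediateField k K) = 0
      exact _root_.trdeg_eq_zero
    rw [h1, zero_add, ← Cardinal.add_nat_le_add_nat_iff (Fintype.card G)]
    refine le_trans ?_ htr
    rw [add_assoc, ← Nat.cast_add]
    have h2 : ∀ x, ∑ c : C x, r c.1 = ∑ c : C x, (r c.1 - 1) + Fintype.card (C x) := by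
      intro x
      have h3 : Fintype.card (C x) = ∑ _c : C x, 1 := by
        rw [Finset.sum_const, Finset.card_univ, smul_eq_mul, mul_one]
      rw [h3, ← Finset.sum_add_distrib]
      refine Finset.sum_congr rfl fun c _ => ?_
      have := hr c.1
      omega
    refine add_le_add le_rfl (Nat.cast_le.mpr ?_)
    rw [← hsum fun b => r b - 1, Fintype.sum_sum_type, Fintype.sum_sum_type]
    have h5 : Fintype.card G = ∑ _g : G, 1 := by
      rw [Finset.sum_const, Finset.card_univ, smul_eq_mul, mul_one]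
    rw [h5, add_right_comm, ← Finset.sum_add_distrib]
    refine add_le_add (Finset.sum_le_sum fun g _ => ?_) (Finset.sum_le_sum fun b _ => ?_)
    · obtain ⟨c⟩ := hne (Sum.inl g)
      rw [if_neg (fun h6 => (hσ c.1 g).resolve_left c.2 (congrFun h6 ⟨c, 0⟩)), h2]
      have h7 : r c.1 - 1 ≤ ∑ c : C (Sum.inl g), (r c.1 - 1) :=
        Finset.single_le_sum (f := fun c : C (Sum.inl g) => r c.1 - 1)
          (fun _ _ => Nat.zero_le _) (Finset.mem_univ c)
      have h8 := hr c.1
      omega
    · rw [h2]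
      omega

end Pool.Agent.H96.ZP
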