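import Pool.Agent.H96.ZP.LF
import Pool.Agent.H96.S.GA
import Pool.Agent.H96.Z.GA

/-!
# The global data of a cover of a product of fibre products of circuit varieties
-/

set_option autoImplicit false
set_option linter.unusedSectionVars false

namespace Pool.Agent.H96.ZP

open MvPolynomial IsLocalRing Pool.Agent.H96.Reg Pool.Agent.H96.VL Pool.Agent.H96.W
open Pool.Agent.H96.Z (mon_div mon_zero')
open Pool.Agent.H96.S (Va FL FD cond_t cond_f gen_map mon_map aeval_am)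

/-- The data of a circuit block. -/
structure CB (p : ℕ) (K F : Type) [Field K] [Field F] [Algebra F K] (rh : ℕ) (h : Fin rh → F)
    {C : Type} [Fintype C] {r : C → ℕ} (z : (Σ c, Fin (r c + 1)) → K) (M : ℕ) where
  lam : (Σ c, Fin (r c + 1)) → ℤ
  lam0 : ∀ c, ¬ (p : ℤ) ∣ lam ⟨c, 0⟩
  lamp : ∀ i, lam i = 0 ∨ ¬ (p : ℤ) ∣ lam i
  lams : ∀ c, ∑ i, lam ⟨c, i⟩ = 0
  lamM : ∀ i, |lam i| ≤ M
  ic : Fin rh
  eqc : mon z lam = algebraMap F K (h ic)
  dn : Bool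
  idl : Fin rh
  eqd : mon z lam = (∏ i, (lam i : K) ^ lam i) *
    (1 + cond dn (algebraMap F K (h idl)) 0)
  sne : ∃ u : Σ c, Fin (r c + 1), (lam ⟨u.1, 0⟩ : K) * z u - lam u * z ⟨u.1, 0⟩ ≠ 0

/-- The kind of a block. -/
inductive Kd (p : ℕ) (K F : Type) [Field K] [Field F] [Algebra (ZMod p) K] [Algebra F K]
    (rh : ℕ) (h : Fin rh → F) {C : Type} [Fintype C] {r : C → ℕ}
    (z : (Σ c, Fin (r c + 1)) → K) (M : ℕ) : Type
  | cir (c : CB p K F rh h z M) : Kd p K F rh h z M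
  | deg (e : (Σ c, Fin (r c + 1)) → ZMod p) (e0 : ∀ i, e i ≠ 0)
      (he : ∀ i, z i = algebraMap (ZMod p) K (e i) * z ⟨i.1, 0⟩) : Kd p K F rh h z M
  | lin : Kd p K F rh h z M

namespace Kd

variable {p : ℕ} {K F : Type} [Field K] [Field F] [Algebra (ZMod p) K] [Algebra F K]
    {rh : ℕ} {h : Fin rh → F} {C : Type} [Fintype C] {r : C → ℕ}
    {z : (Σ c, Fin (r c + 1)) → K} {M : ℕ}

/-- The forms which measure the distance to the critical point. -/
def sf : Kd p K F rh h z M → (Σ c, Fin (r c + 1)) → K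
  | cir c => fun i => (c.lam ⟨i.1, 0⟩ : K) * z i - c.lam i * z ⟨i.1, 0⟩
  | deg _ _ _ => z
  | lin => z

/-- The dimension of a block. -/
def dim : Kd p K F rh h z M → ℕ
  | cir _ => ∑ c, r c - Fintype.card C - 1
  | deg _ _ _ => 0
  | lin => ∑ c, r c - Fintype.card C

theorem sf_mem (k : Kd p K F rh h z M) {R' : Subring K} {a : K} (c : C)
    (hz : ∀ i, z ⟨c, i⟩ / a ∈ R') (i : Fin (r c + 1)) : k.sf ⟨c, i⟩ / a ∈ R' := by
  rcases k with k | e | _
  · show ((k.lam ⟨c, 0⟩ : K) * z ⟨c, i⟩ - k.lam ⟨c, i⟩ * z ⟨c, 0⟩) / a ∈ R'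
    have h1 : ((k.lam ⟨c, 0⟩ : K) * z ⟨c, i⟩ - k.lam ⟨c, i⟩ * z ⟨c, 0⟩) / a =
        (k.lam ⟨c, 0⟩ : K) * (z ⟨c, i⟩ / a) - k.lam ⟨c, i⟩ * (z ⟨c, 0⟩ / a) := by ring
    rw [h1]
    exact R'.sub_mem (R'.mul_mem (intCast_mem _ _) (hz _)) (R'.mul_mem (intCast_mem _ _) (hz _))
  · exact hz i
  · exact hz i

end Kd

/-- The global data. -/
structure GD (p : ℕ) (K : Type) [Field K] [Algebra (ZMod p) K]
    (I : Type) [Fintype I] [DecidableEq I] (F : I → Type) [∀ i, Field (F i)]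
    [∀ i, Algebra (ZMod p) (F i)] [∀ i, Algebra (F i) K] (A J : I → Type)
    [∀ i, Fintype (A i)] [∀ i, DecidableEq (A i)] (d : I → ℕ) (rh : ℕ)
    (B : Type) [Fintype B] [DecidableEq B] (C : B → Type) [∀ b, Fintype (C b)]
    [∀ b, DecidableEq (C b)] (R : ∀ b, C b → ℕ) {N : ℕ}
    (Nw : Fin N → ℕ) (ew : Fin N → Zx (Ux C R) → ℤ) (M : ℕ) where
  on : I → Bool
  f : ∀ i, F i
  h : ∀ i, Fin rh → F i
  fd : ∀ i, FD p false (on i) (F i) (A i) (J i) (d i) rh M (f i) (h i)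
  φ : B → I
  ne : ∀ b, Nonempty (C b)
  z : ∀ b, Ux C R b → K
  z0 : ∀ b i, z b i ≠ 0
  zs : ∀ b c, ∑ i, z b ⟨c, i⟩ = 0
  kd : ∀ b, Kd p K (F (φ b)) rh (h (φ b)) (z b) M
  w : Fin N → K
  w0 : ∀ c, w c ≠ 0
  Nw0 : ∀ c, ¬ p ∣ Nw c
  iw : Fin N → Fin rh
  KM : ∀ c, w c ^ Nw c = (∏ i, algebraMap (F i) K (h i (iw c))) *
    mon (fun s : Zx (Ux C R) => z s.1 s.2) (ew c)
  eM : ∀ c i, |ew c i| ≤ M
  eS : ∀ c b x, ∑ i, ew c ⟨b, ⟨x, i⟩⟩ = 0
  gen : ∀ R' : Subring K, (∀ x ∈ R', x ≠ 0 → x⁻¹ ∈ R') →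
    (∀ i (w : F i), algebraMap (F i) K w ∈ R') →
    (∀ b x i j, z b ⟨x, i⟩ / z b ⟨x, j⟩ ∈ R') → (∀ c, w c ∈ R') → R' = ⊤

section Sigma

variable {K : Type} [Field K] {I : Type} [Fintype I] [DecidableEq I] {A : I → Type}
  [∀ i, Fintype (A i)]

theorem mon_sig (t : ∀ i, A i → K) (e : ∀ i, A i → ℤ) :
    mon (fun s : Σ i, A i => t s.1 s.2) (fun s => e s.1 s.2) = ∏ i, mon (t i) (e i) := by
  rw [mon, Fintype.prod_sigma]
  rfl

theorem mon_sig_one (t : ∀ i, A i → K) (e : ∀ i, A i → ℤ) (i : I) :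
    mon (fun s : Σ i, A i => t s.1 s.2) (fun s => if s.1 = i then e s.1 s.2 else 0) =
      mon (t i) (e i) := by
  have h1 := mon_sig t (fun j a => if j = i then e j a else 0)
  refine h1.trans ?_
  rw [Finset.prod_eq_single i]
  · congr 1
    funext a
    rw [if_pos rfl]
  · intro j _ hj
    rw [mon]
    exact Finset.prod_eq_one fun a _ => by rw [if_neg hj, zpow_zero]
  · intro h; exact absurd (Finset.mem_univ _) h

theorem mon_div' {K : Type} [Field K] {C : Type} [Fintype C] {r : C → ℕ}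
    (z : (Σ c, Fin (r c + 1)) → K) (a : C → K) (e : (Σ c, Fin (r c + 1)) → ℤ)
    (ha : ∀ c, a c ≠ 0) (he : ∀ c, ∑ i, e ⟨c, i⟩ = 0) :
    mon (fun s => z s / a s.1) e = mon z e := by
  rw [mon, mon, Fintype.prod_sigma, Fintype.prod_sigma]
  exact Finset.prod_congr rfl fun c _ =>
    mon_div (fun i => z ⟨c, i⟩) (a c) (fun i => e ⟨c, i⟩) (ha c) (he c)

end Sigma

/-- The variables of a factor. -/
def em {I : Type} {n d : I → ℕ} (i : I) :
    Va (n i) (d i) → (Σ i, Fin (n i)) ⊕ (Σ i, Fin (d i)) :=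
  Sum.elim (fun a => Sum.inl ⟨i, a⟩) fun c => Sum.inr ⟨i, c⟩

theorem em_inj {I : Type} {n d : I → ℕ} (i : I) : Function.Injective (em (n := n) (d := d) i) := by
  rintro (a | c) (a' | c') h
  · have h1 := Sum.inl_injective h
    simpa using h1
  · exact absurd h Sum.inl_ne_inr
  · exact absurd h Sum.inr_ne_inl
  · have h1 := Sum.inr_injective h
    simpa using h1

/-- Nondegeneracy of a product. -/
theorem ndg_prod {p : ℕ} {I : Type} [Fintype I] [DecidableEq I] {n d : I → ℕ}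
    (G : ∀ i, Fin (n i) → MvPolynomial (Va (n i) (d i)) (ZMod p))
    (D : ∀ i, MvPolynomial (Va (n i) (d i)) (ZMod p)) (h : ∀ i, S.Ndg (G i) (D i)) :
    Ndg (Nn := Σ i, Fin (n i)) (Dd := Σ i, Fin (d i)) (fun s => rename (em s.1) (G s.1 s.2))
      (fun i => rename (em i) (D i)) := by
  classical
  intro κ _ _ x hx a ha
  rintro ⟨i, k⟩
  refine h i κ (x ∘ em i) (by rw [← aeval_rename]; exact hx i) (fun k => a ⟨i, k⟩) (fun j => ?_) k
  have h1 := ha ⟨i, j⟩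
  rw [Fintype.sum_sigma, Finset.sum_eq_single i] at h1
  · refine Eq.trans (Finset.sum_congr rfl fun k _ => ?_) h1
    have h2 : pderiv (Sum.inl ⟨i, j⟩) (rename (em i) (G i k)) =
        rename (em (n := n) (d := d) i) (pderiv (Sum.inl j) (G i k)) :=
      pderiv_rename (em_inj i) (Sum.inl j) (G i k)
    rw [h2, aeval_rename]
  · intro i' _ hi
    refine Finset.sum_eq_zero fun k _ => ?_
    have h2 : pderiv (Sum.inl ⟨i, j⟩) (rename (em (n := n) (d := d) i') (G i' k)) = 0 := by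
      apply pderiv_eq_zero_of_notMem_vars
      intro h3
      obtain ⟨v, -, hv⟩ := Finset.mem_image.mp (vars_rename (em (n := n) (d := d) i') (G i' k) h3)
      rcases v with v | v
      · exact hi (congrArg Sigma.fst (Sum.inl_injective hv))
      · exact Sum.inr_ne_inl hv
    rw [h2, map_zero, mul_zero]
  · intro h; exact absurd (Finset.mem_univ _) h

variable {p : ℕ} [Fact p.Prime] {K : Type} [Field K] [Algebra (ZMod p) K]
  {I : Type} [Fintype I] [DecidableEq I] {F : I → Type} [∀ i, Field (F i)]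
  [∀ i, Algebra (ZMod p) (F i)] [∀ i, Algebra (F i) K]
  [∀ i, IsScalarTower (ZMod p) (F i) K] {A J : I → Type} [∀ i, Fintype (A i)]
  [∀ i, DecidableEq (A i)] {d : I → ℕ} {rh : ℕ} {B : Type} [Fintype B] [DecidableEq B]
  {C : B → Type} [∀ b, Fintype (C b)] [∀ b, DecidableEq (C b)] {R : ∀ b, C b → ℕ} {N : ℕ}
  {Nw : Fin N → ℕ} {ew : Fin N → Zx (Ux C R) → ℤ} {M : ℕ}

namespace GD

/-- The forms which measure the distance to the critical point. -/
def sf (G : GD p K I F A J d rh B C R Nw ew M) (b : B) (i : Ux C R b) : K :=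
  (G.kd b).sf i

/-- The normalized forms. -/
def sn (G : GD p K I F A J d rh B C R Nw ew M) (m : ∀ b c, Fin (R b c + 1)) (b : B)
    (u : Ux C R b) : K := G.sf b u / G.z b ⟨u.1, m b u.1⟩

/-- The local choices at a valuation. -/
structure Lc (G : GD p K I F A J d rh B C R Nw ew M) (V : ValuationSubring K) where
  fl : ∀ i, FL p false (G.on i) (d i) rh M (G.f i) (G.h i) (G.fd i).c (G.fd i).q (G.fd i).T
    (G.fd i).S (WV V (F i))
  m : ∀ b c, Fin (R b c + 1)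
  maxz : ∀ b c i, V.valuation (G.z b ⟨c, i⟩) ≤ V.valuation (G.z b ⟨c, m b c⟩)
  mz : ∀ b c, V.valuation (G.z b ⟨c, m b c⟩) ≤ V.valuation (G.z b ⟨c, 0⟩) → m b c = 0
  i0 : ∀ b, Ux C R b
  maxs : ∀ b u, V.valuation (G.sn m b u) ≤ V.valuation (G.sn m b (i0 b))
  s0 : ∀ b, G.sf b (i0 b) ≠ 0
  i1 : ∀ b, (∀ c, G.kd b ≠ Kd.cir c) → i0 b = ⟨(i0 b).1, m b (i0 b).1⟩

variable (G : GD p K I F A J d rh B C R Nw ew M) {V : ValuationSubring K}

/-- The values of the variables of the factors. -/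
noncomputable def yy (D : G.Lc V) :
    (Σ i, Fin (D.fl i).n) ⊕ (Σ i, Fin (d i)) → K :=
  Sum.elim (fun s => algebraMap (F s.1) K ((D.fl s.1).y (Sum.inl s.2)))
    fun s => algebraMap (F s.1) K ((D.fl s.1).y (Sum.inr s.2))

theorem yy_em (D : G.Lc V) (i : I) (s : Va (D.fl i).n (d i)) :
    G.yy D (em (n := fun i => (D.fl i).n) i s) = algebraMap (F i) K ((D.fl i).y s) := by
  rcases s with a | c
  · rfl
  · rfl

theorem aeval_yy (D : G.Lc V) (i : I) (P : MvPolynomial (Va (D.fl i).n (d i)) (ZMod p)) :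
    aeval (G.yy D) (rename (em (n := fun i => (D.fl i).n) i) P) =
      algebraMap (F i) K (aeval (D.fl i).y P) := by
  rw [aeval_rename, ← aeval_am]
  congr 1
  congr 1
  funext s
  exact G.yy_em D i s

/-- The local data. -/
noncomputable def toLD (G : GD p K I F A J d rh B C R Nw ew M) {V : ValuationSubring K}
    (D : G.Lc V) : LD p V (Σ i, A i) I (Σ i, Fin (d i)) (Σ i, Fin (D.fl i).n) B (Ux C R) (Hx C R)
      Nw ew M where
  y := G.yy D
  G := fun s => rename (em (n := fun i => (D.fl i).n) s.1) ((D.fl s.1).G s.2)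
  D := fun i => rename (em (n := fun i => (D.fl i).n) i) (D.fl i).D
  l := fun s => ((D.fl s.1).l s.2).map (Sigma.mk s.1)
  t := fun s => algebraMap (F s.1) K ((D.fl s.1).t s.2)
  vy := by
    rintro (⟨i, a⟩ | ⟨i, c⟩)
    · exact wv_le_one.mp ((D.fl i).loc.le _ ((D.fl i).yR (Sum.inl a)))
    · exact wv_le_one.mp ((D.fl i).loc.le _ ((D.fl i).yR (Sum.inr c)))
  rel := fun j => by rw [G.aeval_yy, (D.fl _).rel, map_zero]
  vD := fun i => by rw [G.aeval_yy]; exact wv_eq_one.mp (D.fl i).vD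
  ndg := ndg_prod (n := fun i => (D.fl i).n) (fun i => (D.fl i).G) (fun i => (D.fl i).D)
    fun i => (D.fl i).ndg
  l0 := by
    rintro ⟨i, a⟩ h
    have h1 : (D.fl i).l a = none := by simpa using h
    show algebraMap (F i) K ((D.fl i).t a) = 1
    rw [(D.fl i).l0 a h1, map_one]
  l1 := by
    rintro ⟨i, a⟩ ⟨j, x⟩ h
    obtain ⟨x', h1, h2⟩ := Option.map_eq_some_iff.mp h
    obtain ⟨h3, h4, h5⟩ := (D.fl i).l1 a x' h1
    refine ⟨wv_lt_one.mp h3, (map_ne_zero _).mpr h4, ?_⟩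
    rw [← h2]
    show algebraMap (F i) K ((D.fl i).y (Sum.inr x')) = algebraMap (F i) K ((D.fl i).t a)
    rw [h5]
  linj := by
    rintro ⟨i, a⟩ ⟨i', a'⟩ ⟨j, x⟩ h h'
    obtain ⟨x1, h1, h2⟩ := Option.map_eq_some_iff.mp h
    obtain ⟨x2, h3, h4⟩ := Option.map_eq_some_iff.mp h'
    have h5 : i = i' := congrArg Sigma.fst (h2.trans h4.symm)
    subst h5
    have h6 : x1 = x2 := by
      have := h2.trans h4.symm
      simpa using this
    subst h6
    rw [(D.fl i).linj a a' x1 h1 h3]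
  ζ := fun b i => G.z b i / G.z b ⟨i.1, D.m b i.1⟩
  ζ0 := fun b i => div_ne_zero (G.z0 b i) (G.z0 _ _)
  vζ := fun b i => by
    rw [map_div₀]
    exact div_le_one_of_le₀ (D.maxz b i.1 i.2) zero_le
  σ := fun b => G.sn D.m b (D.i0 b)
  σ0 := fun b => div_ne_zero (D.s0 b) (G.z0 _ _)
  vσ := fun b => by
    refine (V.valuation_le_one_iff _).mpr ((G.kd b).sf_mem (R' := V.toSubring) (D.i0 b).1
      (fun i => ?_) (D.i0 b).2)
    refine (V.valuation_le_one_iff _).mp ?_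
    rw [map_div₀]
    exact div_le_one_of_le₀ (D.maxz b _ i) zero_le
  w := G.w
  w0 := G.w0
  Nw0 := G.Nw0
  pw := fun c => ∏ i, X (em (n := fun i => (D.fl i).n) i ((D.fl i).qv (G.iw c)))
  κw := fun c s => (D.fl s.1).κ (G.iw c) s.2
  vpw := fun c => by
    rw [map_prod, map_prod]
    refine Finset.prod_eq_one fun i _ => ?_
    rw [aeval_X, G.yy_em]
    exact wv_eq_one.mp ((D.fl _).vq _)
  κwM := fun c s => (D.fl _).κM _ _
  KM := fun c => by
    have h1 : mon (fun s : Zx (Ux C R) => G.z s.1 s.2 / G.z s.1 ⟨s.2.1, D.m s.1 s.2.1⟩) (ew c) =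
        mon (fun s : Zx (Ux C R) => G.z s.1 s.2) (ew c) := by
      have h2 := mon_sig (A := Ux C R) (fun b i => G.z b i / G.z b ⟨i.1, D.m b i.1⟩)
        (fun b i => ew c ⟨b, i⟩)
      have h3 := mon_sig (A := Ux C R) (fun b i => G.z b i) (fun b i => ew c ⟨b, i⟩)
      refine h2.trans (Eq.trans ?_ h3.symm)
      exact Finset.prod_congr rfl fun b _ => mon_div' (G.z b)
        (fun x => G.z b ⟨x, D.m b x⟩) (fun i => ew c ⟨b, i⟩) (fun _ => G.z0 _ _) (G.eS c b)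
    rw [h1, G.KM, map_prod, mon_sig (fun i a => algebraMap (F i) K ((D.fl i).t a))
      (fun i => (D.fl i).κ (G.iw c)), ← Finset.prod_mul_distrib]
    congr 1
    refine Finset.prod_congr rfl fun i _ => ?_
    rw [aeval_X, G.yy_em, mon_map, ← map_mul, ← (D.fl _).eqh]
  eM := G.eM

theorem sf_cir (G : GD p K I F A J d rh B C R Nw ew M) {b : B}
    {c : CB p K (F (G.φ b)) rh (G.h (G.φ b)) (G.z b) M} (hk : G.kd b = Kd.cir c)
    (i : Ux C R b) :
    G.sf b i = (c.lam ⟨i.1, 0⟩ : K) * G.z b i - c.lam i * G.z b ⟨i.1, 0⟩ := by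
  rw [sf, hk]
  rfl

theorem sf_cir0 (G : GD p K I F A J d rh B C R Nw ew M) {b : B}
    {c : CB p K (F (G.φ b)) rh (G.h (G.φ b)) (G.z b) M} (hk : G.kd b = Kd.cir c)
    (x : C b) : G.sf b ⟨x, 0⟩ = 0 := by
  rw [G.sf_cir hk, sub_self]

theorem sf_not (G : GD p K I F A J d rh B C R Nw ew M) {b : B} (hk : ∀ c, G.kd b ≠ Kd.cir c)
    (i : Ux C R b) : G.sf b i = G.z b i := by
  rw [sf]
  rcases h : G.kd b with c | _ | _
  · exact absurd h (hk c)
  · rfl
  · rfl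

/-- The normalization at a block which is not a circuit. -/
theorem σ_not (D : G.Lc V) {b : B} (hk : ∀ c, G.kd b ≠ Kd.cir c) : (G.toLD D).σ b = 1 := by
  show G.sf b (D.i0 b) / G.z b ⟨(D.i0 b).1, D.m b (D.i0 b).1⟩ = 1
  rw [G.sf_not hk, ← D.i1 b hk]
  exact div_self (G.z0 _ _)

/-- The normalization of the forms of a block. -/
def nm (D : G.Lc V) (b : B) : Nm (G.toLD D) b where
  m := D.m b
  ζm := fun _ => div_self (G.z0 _ _)
  ζs := fun c => by
    show ∑ i, G.z b ⟨c, i⟩ / G.z b ⟨c, D.m b c⟩ = 0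
    rw [← Finset.sum_div, G.zs, zero_div]

/-- The local data of a circuit block. -/
theorem exists_circ (D : G.Lc V) {b : B}
    {c : CB p K (F (G.φ b)) rh (G.h (G.φ b)) (G.z b) M} (hk : G.kd b = Kd.cir c) :
    ∃ cc : Circ (G.toLD D) b, ∀ h : Hx C R b,
      cc.η h = G.sn D.m b ⟨h.1, h.2.succ⟩ / G.sn D.m b (D.i0 b) := by
  have h0 : (D.i0 b).2 ≠ 0 := by
    intro h
    apply D.s0 b
    have h1 : D.i0 b = ⟨(D.i0 b).1, 0⟩ := by
      rw [← h]
    rw [h1]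
    exact G.sf_cir0 hk _
  obtain ⟨k, hk0⟩ := Fin.exists_succ_eq.mpr h0
  have hk1 : (⟨(D.i0 b).1, k.succ⟩ : Ux C R b) = D.i0 b := by rw [hk0]
  have hz := fun x => G.z0 b ⟨x, D.m b x⟩
  have hs : G.sn D.m b (D.i0 b) ≠ 0 := div_ne_zero (D.s0 b) (hz _)
  exact ⟨{
    toNm := G.nm D b
    lam := c.lam
    lam0 := c.lam0
    lamp := c.lamp
    lams := c.lams
    lamM := c.lamM
    qc := em (n := fun i => (D.fl i).n) (G.φ b) ((D.fl (G.φ b)).qv c.ic)
    κc := fun s => if s.1 = G.φ b then (D.fl s.1).κ (c.ic) s.2 else 0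
    vqc := by
      show V.valuation (G.yy D _) = 1
      rw [G.yy_em]; exact wv_eq_one.mp ((D.fl _).vq _)
    κcM := fun s => by
      split_ifs
      · exact (D.fl _).κM _ _
      · exact Z.abs_zero_le
    eqc := by
      show mon (fun i : Ux C R b => G.z b i / G.z b ⟨i.1, D.m b i.1⟩) c.lam = G.yy D _ *
        mon (fun s : Σ i, A i => algebraMap (F s.1) K ((D.fl s.1).t s.2)) _
      rw [mon_div' (G.z b) (fun x => G.z b ⟨x, D.m b x⟩) _ hz c.lams, c.eqc, G.yy_em,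
        mon_sig_one (fun i a => algebraMap (F i) K ((D.fl i).t a)) (fun i => (D.fl i).κ c.ic),
        mon_map, ← map_mul, ← (D.fl _).eqh]
    i0 := ⟨(D.i0 b).1, k⟩
    η := fun h => G.sn D.m b ⟨h.1, h.2.succ⟩ / G.sn D.m b (D.i0 b)
    ηi0 := by
      show G.sn D.m b ⟨(D.i0 b).1, k.succ⟩ / G.sn D.m b (D.i0 b) = 1
      rw [hk1, div_self hs]
    vη := fun i => by
      rw [map_div₀]
      exact div_le_one_of_le₀ (D.maxs b _) zero_le
    eqη := fun i => by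
      show (c.lam ⟨i.1, 0⟩ : K) * (G.z b ⟨i.1, i.2.succ⟩ / G.z b ⟨i.1, D.m b i.1⟩) -
        c.lam ⟨i.1, i.2.succ⟩ * (G.z b ⟨i.1, 0⟩ / G.z b ⟨i.1, D.m b i.1⟩) =
        G.sn D.m b (D.i0 b) * (G.sn D.m b ⟨i.1, i.2.succ⟩ / G.sn D.m b (D.i0 b))
      rw [mul_div_cancel₀ _ hs]
      show _ = G.sf b ⟨i.1, i.2.succ⟩ / G.z b ⟨i.1, D.m b i.1⟩
      rw [G.sf_cir hk]
      ring
    m0 := fun _ x hx => by
      refine D.mz b x ?_
      have h3 : V.valuation (G.z b ⟨x, 0⟩ / G.z b ⟨x, D.m b x⟩) = 1 := hx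
      rw [map_div₀, div_eq_one_iff_eq ((Valuation.ne_zero_iff _).mpr (hz x))] at h3
      exact h3.ge
    dn := c.dn
    qd := em (n := fun i => (D.fl i).n) (G.φ b) ((D.fl (G.φ b)).qv c.idl)
    κd := fun s => if s.1 = G.φ b then (D.fl s.1).κ (c.idl) s.2 else 0
    vqd := by
      show V.valuation (G.yy D _) = 1
      rw [G.yy_em]; exact wv_eq_one.mp ((D.fl _).vq _)
    κdM := fun s => by
      split_ifs
      · exact (D.fl _).κM _ _
      · exact Z.abs_zero_le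
    eqd := by
      show mon (fun i : Ux C R b => G.z b i / G.z b ⟨i.1, D.m b i.1⟩) c.lam = _ *
        (1 + cond c.dn (G.yy D _ *
        mon (fun s : Σ i, A i => algebraMap (F s.1) K ((D.fl s.1).t s.2)) _) 0)
      rw [mon_div' (G.z b) (fun x => G.z b ⟨x, D.m b x⟩) _ hz c.lams, c.eqd, G.yy_em,
        mon_sig_one (fun i a => algebraMap (F i) K ((D.fl i).t a)) (fun i => (D.fl i).κ c.idl),
        mon_map, ← map_mul, ← (D.fl _).eqh] }, fun i => rfl⟩

open Classical in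
/-- The values of the additional variables. -/
noncomputable def YY (G : GD p K I F A J d rh B C R Nw ew M) (D : G.Lc V) :
    Θx (Hx C R) → K := fun s =>
  if (∃ c, G.kd s.1 = Kd.cir c) ∧ V.valuation ((G.toLD D).σ s.1) < 1 then
    Sum.elim (fun _ => (G.toLD D).σ s.1)
      (fun h => G.sn D.m s.1 ⟨h.1, h.2.succ⟩ / G.sn D.m s.1 (D.i0 s.1)) s.2 else 0

/-- The blocks are good. -/
theorem good (D : G.Lc V) [Algebra (ZMod p) (ResidueField V)] {M' : ℕ} (h2 : 2 ≤ M')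
    (hM : M ≤ M') (b : B) : Good (G.toLD D) (G.YY D) M' b (G.kd b).dim := by
  rcases hk : G.kd b with c | ⟨e, e0, he⟩ | _
  · obtain ⟨cc, hcc⟩ := G.exists_circ D hk
    rcases ((G.toLD D).vσ b).lt_or_eq with hσ | hσ
    · refine good_cirC h2 hM cc hσ fun θ => ?_
      have h1 : G.YY D ⟨b, θ⟩ = Sum.elim (fun _ => (G.toLD D).σ b)
        (fun h => G.sn D.m b ⟨h.1, h.2.succ⟩ / G.sn D.m b (D.i0 b)) θ := if_pos ⟨⟨c, hk⟩, hσ⟩
      rw [h1]
      rcases θ with θ | i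
      · rfl
      · exact (hcc i).symm
    · refine good_cirN h2 hM cc hσ fun θ => if_neg ?_
      rintro ⟨-, h⟩
      exact h.ne hσ
  · have hn : ∀ c, G.kd b ≠ Kd.cir c := fun c hc => by
      rw [hk] at hc
      exact absurd hc (by simp)
    refine good_deg h2 (G.σ_not D hn) (fun i => e i / e ⟨i.1, D.m b i.1⟩)
      (fun i => div_ne_zero (e0 i) (e0 _)) (fun i => ?_) fun θ => if_neg ?_
    · show G.z b i / G.z b ⟨i.1, D.m b i.1⟩ = _
      have h3 := G.z0 b ⟨i.1, 0⟩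
      have h4 : algebraMap (ZMod p) K (e ⟨i.1, D.m b i.1⟩) ≠ 0 := (map_ne_zero _).mpr (e0 _)
      rw [he i, he ⟨i.1, D.m b i.1⟩, map_div₀]
      field_simp
    · rintro ⟨⟨c, hc⟩, -⟩
      exact hn c hc
  · have hn : ∀ c, G.kd b ≠ Kd.cir c := fun c hc => by
      rw [hk] at hc
      exact absurd hc (by simp)
    refine good_lin h2 (G.nm D b) (G.σ_not D hn) fun θ => if_neg ?_
    rintro ⟨⟨c, hc⟩, -⟩
    exact hn c hc

/-- The additional variables are in the rings. -/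
theorem YY_mem (D : G.Lc V) [Algebra (ZMod p) (ResidueField V)] {R' : Subring K}
    (hσ : ∀ b, (G.toLD D).σ b ∈ R')
    (hs : ∀ b u, (∃ c, G.kd b = Kd.cir c) → V.valuation ((G.toLD D).σ b) < 1 →
      G.sn D.m b u / G.sn D.m b (D.i0 b) ∈ R') (θ : Θx (Hx C R)) : G.YY D θ ∈ R' := by
  obtain ⟨b, θ⟩ := θ
  rw [YY]
  split_ifs with h
  · obtain ⟨⟨c, hk⟩, h2⟩ := h
    rcases θ with θ | i
    · exact hσ b
    · exact hs b _ ⟨c, hk⟩ h2
  · exact R'.zero_mem

end GD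

end Pool.Agent.H96.ZP
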