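import Pool.Agent.H96.ZP.LL
import Pool.Agent.H96.ZN.Rt

/-!
# Circuit blocks: the data, and the relations away from the critical point
-/

set_option autoImplicit false
set_option linter.unusedSectionVars false

namespace Pool.Agent.H96.ZP

open MvPolynomial IsLocalRing Pool.Agent.H96.Reg Pool.Agent.H96.VL Pool.Agent.H96.W
open Pool.Agent.H96.Z (Ls Ds c2 x2 cl xl isRegular_of_terms rel_two rel_lin Ls_two Ds_two Ls_tt
  Ds_tt Ls_G Ds_G Ls_U Ds_U Ls_V Ds_V Ls_lin Ds_lin mon_zero' cring abs_single abs_zero_le abs_fz_le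
  cS sum_cS)
open Pool.Agent.H96.W2 (BX mem_BX zero_mem_BX single_mem_BX single_one_mem_BX neg_mem_BX)
open Pool.Agent.H96.S (cond_t cond_f zc0 zc_ne resv_aevalp sum_single_eq sum_zero_eq)

variable {p : ℕ} [Fact p.Prime] {K : Type} [Field K] [Algebra (ZMod p) K]
  {V : ValuationSubring K} {A I Dd Nn B : Type} [Fintype A] [DecidableEq A] [Fintype Nn]
  [DecidableEq Nn] [Fintype Dd] [DecidableEq Dd] [Fintype B] [DecidableEq B] {C : B → Type}
  [∀ b, Fintype (C b)] [∀ b, DecidableEq (C b)] {R : ∀ b, C b → ℕ} {N : ℕ}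
  {Nw : Fin N → ℕ} {ew : Fin N → Zx (Ux C R) → ℤ} {M M' : ℕ}

/-- The data of a circuit block. -/
structure Circ (L : LD p V A I Dd Nn B (Ux C R) (Hx C R) Nw ew M) (b : B) extends Nm L b where
  lam : Ux C R b → ℤ
  lam0 : ∀ c, ¬ (p : ℤ) ∣ lam ⟨c, 0⟩
  lamp : ∀ i, lam i = 0 ∨ ¬ (p : ℤ) ∣ lam i
  lams : ∀ c, ∑ i, lam ⟨c, i⟩ = 0
  lamM : ∀ i, |lam i| ≤ M
  qc : Nn ⊕ Dd
  κc : A → ℤ
  vqc : V.valuation (L.y qc) = 1
  κcM : ∀ a, |κc a| ≤ M
  eqc : mon (L.ζ b) lam = L.y qc * mon L.t κc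
  i0 : Hx C R b
  η : Hx C R b → K
  ηi0 : η i0 = 1
  vη : ∀ i, V.valuation (η i) ≤ 1
  eqη : ∀ h : Hx C R b, (lam ⟨h.1, 0⟩ : K) * L.ζ b ⟨h.1, h.2.succ⟩ -
    lam ⟨h.1, h.2.succ⟩ * L.ζ b ⟨h.1, 0⟩ = L.σ b * η h
  m0 : V.valuation (L.σ b) < 1 → ∀ c, V.valuation (L.ζ b ⟨c, 0⟩) = 1 → m c = 0
  dn : Bool
  qd : Nn ⊕ Dd
  κd : A → ℤ
  vqd : V.valuation (L.y qd) = 1
  κdM : ∀ a, |κd a| ≤ M
  eqd : mon (L.ζ b) lam = (∏ i, (lam i : K) ^ lam i) *
    (1 + cond dn (L.y qd * mon L.t κd) 0)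

variable {L : LD p V A I Dd Nn B (Ux C R) (Hx C R) Nw ew M}

section CaseN

variable [Algebra (ZMod p) (ResidueField V)] {b : B}

/-- The coefficients of the relation of `σ`. -/
noncomputable def Circ.fS (c : Circ L b) : Zx (Ux C R) → ZMod p :=
  xt (U := Ux C R) b (xt (U := fun c => Fin (R b c + 1)) c.i0.1
    (cS p (fun i => c.lam ⟨c.i0.1, i⟩) c.i0.2))

theorem sum_fS {β : Type} [Field β] [Algebra (ZMod p) β] (c : Circ L b) (g : Zx (Ux C R) → β) :
    ∑ s, algebraMap (ZMod p) β (c.fS s) * g s =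
      (c.lam ⟨c.i0.1, c.i0.2.succ⟩ : β) * g ⟨b, ⟨c.i0.1, 0⟩⟩ -
        (c.lam ⟨c.i0.1, 0⟩ : β) * g ⟨b, ⟨c.i0.1, c.i0.2.succ⟩⟩ := by
  rw [Circ.fS, sum_xt b _ g, sum_xt c.i0.1 _ fun s => g ⟨b, s⟩]
  exact sum_cS (fun i => c.lam ⟨c.i0.1, i⟩) c.i0.2 fun i => g ⟨b, ⟨c.i0.1, i⟩⟩

/-- **The relations of a circuit block away from the critical point.** -/
theorem pokN (h2 : 2 ≤ M') (hM : M ≤ M') (c : Circ L b) (hσ : V.valuation (L.σ b) = 1)
    (Y : Θx (Hx C R) → K) : Pok L Y M' b (S := C b ⊕ (C b ⊕ (Unit ⊕ Unit)))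
      (Sum.elim (fun _ => c2 _ 1 (-1)) (Sum.elim
        (fun x => cl (ff p b x) 0) (Sum.elim (fun _ => c2 _ 1 (-X (Sum.inl c.qc)))
            fun _ => cl c.fS 1)))
      (Sum.elim (fun x => x2 _ (gz A (Ux C R) N ⟨b, ⟨x, c.m x⟩⟩) 0) (Sum.elim
        (fun _ => xl (gz A (Ux C R) N) 0)
        (Sum.elim (fun _ => x2 _ (EV 0 (xt b c.lam) 0 0) (EV c.κc 0 0 0))
            fun _ => xl (gz A (Ux C R) N) (EV 0 0 (Pi.single b 1) 0))))
      (Sum.elim (fun _ => Sum.inr true) (Sum.elim (fun x => Sum.inl ⟨b, ⟨x, c.m x⟩⟩)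
        fun _ => Sum.inr true)) := by
  have h3 : ∀ x : ℤ, |x| ≤ M → |x| ≤ M' := fun x hx => hx.trans (by exact_mod_cast hM)
  have hLM : ∀ α, Ls V L.τ (Sum.elim L.y Y) (c2 (Zx (Ux C R)) (1 : L.Po) (-X (Sum.inl c.qc)))
      (x2 (Zx (Ux C R)) (EV 0 (xt b c.lam) 0 0) (EV c.κc 0 0 0)) (Sum.inr true) α =
      ((EV (A := A) (N := N) 0 (xt b c.lam) 0 0 α : ℤ) : ResidueField V) +
      aeval (fun l => resv V (Sum.elim L.y Y l)) (-X (Sum.inl c.qc) : L.Po) *
        resv V (mon L.τ (EV c.κc 0 0 0) / mon L.τ (EV 0 (xt b c.lam) 0 0)) *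
          ((EV c.κc 0 0 0 α : ℤ) : ResidueField V) := by
    intro α
    refine (Ls_tt L.τ_ne_zero _ _ _ _ α).trans ?_
    rw [map_one, one_mul]
  have hLS : ∀ α, Ls V L.τ (Sum.elim L.y Y) (cl c.fS (1 : L.Po))
      (xl (gz A (Ux C R) N) (EV 0 0 (Pi.single b 1) 0)) (Sum.inr true) α =
      ∑ s, (algebraMap (ZMod p) (ResidueField V)
        (c.fS s) * resv V (L.ζ s.1 s.2 / L.σ b)) *
        ((gz A (Ux C R) N s α : ℤ) : ResidueField V) +
      ((EV (A := A) (U := Ux C R) (N := N) 0 0 (Pi.single b 1) 0 α : ℤ) : ResidueField V) := by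
    intro α
    refine (Ls_lin _ _ _ _ _ α).trans ?_
    have h1 : xl (gz A (Ux C R) N) (EV 0 0 (Pi.single b 1) 0) (Sum.inr true) =
        EV 0 0 (Pi.single b 1) 0 := rfl
    rw [h1, L.mon_s, div_self (L.σ0 b), resv_one, map_one, one_mul, one_mul]
    congr 1
    refine Finset.sum_congr rfl fun j _ => ?_
    rw [mon_gz]
  refine ⟨?_, ?_, ?_, ?_, ?_, ?_, ?_, ?_, ?_⟩
  · rintro (j | j | j | j) s
    · rcases s with s | _ | _
      · exact zero_mem_BX
      · exact zero_mem_BX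
      · exact gz_mem h2 _
    · exact mem_L h2 s
    · rcases s with s | _ | _
      · exact zero_mem_BX
      · exact EV_mem (fun a => h3 _ (c.κcM a)) abs_fz_le abs_fz_le abs_fz_le
      · exact EV_mem abs_fz_le (xt_abs b _ fun i => h3 _ (c.lamM i)) abs_fz_le abs_fz_le
    · rcases s with s | _ | _
      · exact gz_mem h2 s
      · exact zero_mem_BX
      · exact EV_mem abs_fz_le abs_fz_le (abs_single (one_le_of h2) _) abs_fz_le
  · rintro (j | j | j | j)
    · refine (rel_two (y := Sum.elim L.y Y) _ _ _ _).trans ?_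
      rw [mon_gz, c.ζm, mon_zero', map_neg, map_one]; ring
    · exact rel_L c.toNm j
    · refine (rel_two (y := Sum.elim L.y Y) _ _ _ _).trans ?_
      rw [L.mon_zb, L.mon_t, c.eqc, map_one, map_neg, aeval_X, Sum.elim_inl]; ring
    · refine (rel_lin (y := Sum.elim L.y Y) _ _ _ _).trans ?_
      have h1 := c.eqη c.i0
      rw [c.ηi0, mul_one] at h1
      rw [sum_fS c fun s => mon L.τ (gz A (Ux C R) N s), mon_gz, mon_gz, map_one, one_mul,
        L.mon_s, ← h1]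
      ring
  · rintro (j | j | j | j)
    · exact Or.inl one_ne_zero
    · left
      show MvPolynomial.C (ff p b j ⟨b, ⟨j, c.m j⟩⟩) ≠ 0
      rw [ff_self, MvPolynomial.C_1]
      exact one_ne_zero
    · exact Or.inl one_ne_zero
    · exact Or.inl one_ne_zero
  · rintro (j | j | j | j) s hs
    · rcases s with s | _ | _
      · exact absurd rfl hs
      · show V.valuation (mon L.τ 0) ≤
          V.valuation (mon L.τ (gz A (Ux C R) N ⟨b, ⟨j, c.m j⟩⟩))
        rw [mon_zero', mon_gz, c.ζm]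
      · exact le_rfl
    · exact dom_L c.toNm j s hs
    · rcases s with s | _ | _
      · exact absurd rfl hs
      · show V.valuation (mon L.τ (EV c.κc 0 0 0)) ≤
          V.valuation (mon L.τ (EV 0 (xt b c.lam) 0 0))
        rw [L.mon_zb, L.mon_t, c.eqc, map_mul, c.vqc, one_mul]
      · exact le_rfl
    · rcases s with s | _ | _
      · show V.valuation (mon L.τ (gz A (Ux C R) N s)) ≤
          V.valuation (mon L.τ (EV 0 0 (Pi.single b 1) 0))
        rw [mon_gz, L.mon_s, hσ]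
        exact L.vζ _ _
      · exact absurd rfl hs
      · exact le_rfl
  · rintro (j | j | j | j) c'
    · exact (Ls_TT _ _).trans (zc0 V)
    · exact (Ls_L c.toNm j _).trans (sum_gz0 _ fun _ => rfl)
    · refine (hLM _).trans ?_
      rw [EV_w, EV_w, Pi.zero_apply, Int.cast_zero, mul_zero, add_zero]
    · refine (hLS _).trans ?_
      rw [sum_gz0 _ (fun _ => rfl), EV_w, Pi.zero_apply, Int.cast_zero, add_zero]
  · rintro (j | j | j | j) b' i hb
    · refine (Ls_TT _ _).trans ?_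
      rw [gz_ne (fun h => hb (congrArg Sigma.fst h)), Int.cast_zero]
    · refine (Ls_L c.toNm j _).trans ?_
      rw [sum_gz, ff_ne' hb, map_zero, zero_mul]
    · refine (hLM _).trans ?_
      rw [EV_z, EV_z, xt_ne hb, Pi.zero_apply, Int.cast_zero, mul_zero, add_zero]
    · refine (hLS _).trans ?_
      rw [sum_gz, Circ.fS, xt_ne hb, map_zero, zero_mul, EV_z, Pi.zero_apply, Int.cast_zero,
        add_zero]
  · rintro (j | j | j | j) b' hb
    · exact (Ls_TT _ _).trans (zc0 V)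
    · exact (Ls_L c.toNm j _).trans (sum_gz0 _ fun _ => rfl)
    · refine (hLM _).trans ?_
      rw [EV_s, EV_s, Pi.zero_apply, Int.cast_zero, mul_zero, add_zero]
    · refine (hLS _).trans ?_
      rw [sum_gz0 _ (fun _ => rfl), EV_s, Pi.single_eq_of_ne hb, Int.cast_zero, add_zero]
  · rintro (j | j | j | j) θ
    · exact Ds_U L.τ_ne_zero _
    · exact Ds_lin _ _ _ _ _ _ (map_zero _)
    · refine (Ds_tt L.τ_ne_zero _ _ _ _ _).trans ?_
      rw [← MvPolynomial.C_1, pderiv_C, map_zero, zero_add, map_neg, pderiv_X,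
        Pi.single_eq_of_ne Sum.inl_ne_inr, neg_zero, map_zero, zero_mul]
    · exact Ds_lin _ _ _ _ _ _ (by rw [← MvPolynomial.C_1, pderiv_C])
  · intro a h1 h2
    obtain ⟨aT, haT⟩ : ∃ f : C b → ResidueField V, f = fun c => a (Sum.inl c) := ⟨_, rfl⟩
    obtain ⟨aL, haL⟩ : ∃ f : C b → ResidueField V, f = fun c => a (Sum.inr (Sum.inl c)) :=
      ⟨_, rfl⟩
    obtain ⟨aM, haM⟩ : ∃ f, f = a (Sum.inr (Sum.inr (Sum.inl ()))) := ⟨_, rfl⟩
    obtain ⟨aS, haS⟩ : ∃ f, f = a (Sum.inr (Sum.inr (Sum.inr ()))) := ⟨_, rfl⟩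
    have haT' : ∀ c, a (Sum.inl c) = aT c := fun c => by rw [haT]
    have haL' : ∀ c, a (Sum.inr (Sum.inl c)) = aL c := fun c => by rw [haL]
    simp only [Fintype.sum_sum_type, sum_unit, Sum.elim_inl, Sum.elim_inr, Ls_TT, Ls_L c.toNm,
      hLM, hLS, haT', haL', ← haM, ← haS] at h1 h2
    have hS : aS = 0 := by
      rw [sum_gz0 _ (fun _ => rfl), EV_s, EV_s, EV_s, sum_zero_eq (fun c => aT c * _) (fun x => by
          rw [show gz A (Ux C R) N ⟨b, ⟨x, c.m x⟩⟩ (Sum.inr (Sum.inr (Sum.inl b))) = 0 from rfl,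
            Int.cast_zero, mul_zero]), sum_zero_eq (fun c => aL c * _) (fun c => by
          rw [sum_gz0 _ (fun _ => rfl), mul_zero]),
        Pi.single_eq_same, Pi.zero_apply, Int.cast_zero, Int.cast_one, mul_zero, add_zero,
        mul_zero, zero_add, zero_add, zero_add, zero_add, mul_one] at h2
      exact h2
    have h4 : ∀ x i, aT x * (if i = c.m x then 1 else 0) + (aL x * resv V (L.ζ b ⟨x, i⟩) +
        aM * (c.lam ⟨x, i⟩ : ResidueField V)) = 0 := by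
      intro x i
      have h4 := h1 ⟨x, i⟩
      rw [hS, zero_mul, add_zero, sum_T c.toNm, sum_L, EV_z, EV_z, xt_self,
        Pi.zero_apply, Int.cast_zero, mul_zero, add_zero] at h4
      exact h4
    have hlams : ∀ x, ∑ i, (c.lam ⟨x, i⟩ : ResidueField V) = 0 := fun x => by
      rw [← Int.cast_sum, c.lams, Int.cast_zero]
    have hT0 : ∀ x, aT x = 0 := ind_TL c.toNm aT aL (fun _ => aM)
      (fun s => (c.lam s : ResidueField V)) (fun x => by rw [hlams, mul_zero]) h4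
    have h5 : ∀ x i, aL x * resv V (L.ζ b ⟨x, i⟩) + aM * (c.lam ⟨x, i⟩ : ResidueField V) = 0 := by
      intro x i
      have h6 := h4 x i
      rwa [hT0, zero_mul, zero_add] at h6
    have h6 : (c.lam ⟨c.i0.1, 0⟩ : ResidueField V) * resv V (L.ζ b ⟨c.i0.1, c.i0.2.succ⟩) -
        c.lam ⟨c.i0.1, c.i0.2.succ⟩ * resv V (L.ζ b ⟨c.i0.1, 0⟩) = resv V (L.σ b) := by
      have h4 := (resv_aevalp V (L.ζ b) (L.vζ b) (MvPolynomial.C (c.lam ⟨c.i0.1, 0⟩ : ZMod p) *
        X ⟨c.i0.1, c.i0.2.succ⟩ - MvPolynomial.C (c.lam ⟨c.i0.1, c.i0.2.succ⟩ : ZMod p) *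
          X ⟨c.i0.1, 0⟩)).2
      rw [map_sub, map_mul, map_mul, map_sub, map_mul, map_mul, aeval_C, aeval_C, aeval_X,
        aeval_X, aeval_C, aeval_C, aeval_X, aeval_X, map_intCast, map_intCast, map_intCast,
        map_intCast, c.eqη, c.ηi0, mul_one] at h4
      exact h4.symm
    have h7 : resv V (L.σ b) ≠ 0 := (resv_ne_zero_iff hσ.le).mpr hσ
    have hL0 : aL c.i0.1 = 0 := by
      have h8 : aL c.i0.1 * resv V (L.σ b) = 0 := by
        rw [← h6]
        linear_combination (c.lam ⟨c.i0.1, 0⟩ : ResidueField V) * h5 c.i0.1 c.i0.2.succ -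
          (c.lam ⟨c.i0.1, c.i0.2.succ⟩ : ResidueField V) * h5 c.i0.1 0
      exact (mul_eq_zero.mp h8).resolve_right h7
    have hM0 : aM = 0 := by
      have h8 := h5 c.i0.1 0
      rw [hL0, zero_mul, zero_add] at h8
      exact (mul_eq_zero.mp h8).resolve_right (zc_ne V (c.lam0 _))
    have hL0' : ∀ x, aL x = 0 := by
      intro x
      have h8 := h5 x (c.m x)
      rw [hM0, zero_mul, add_zero, c.ζm, resv_one, mul_one] at h8
      exact h8
    rintro (j | j | j | j)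
    · rw [haT']; exact hT0 j
    · rw [haL']; exact hL0' j
    exacts [haM ▸ hM0, haS ▸ hS]

end CaseN

end Pool.Agent.H96.ZP
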