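import Pool.Agent.H96.ZP.LC

/-!
# Circuit blocks at the critical point
-/

set_option autoImplicit false
set_option linter.unusedSectionVars false

namespace Pool.Agent.H96.ZP

open MvPolynomial IsLocalRing Pool.Agent.H96.Reg Pool.Agent.H96.VL Pool.Agent.H96.W
open Pool.Agent.H96.Z (Ls Ds c2 x2 cl xl isRegular_of_terms rel_two rel_lin Ls_two Ds_two Ls_tt
  Ds_tt Ls_G Ds_G Ls_U Ds_U Ls_V Ds_V Ls_lin Ds_lin mon_zero' cring abs_single abs_zero_le abs_fz_le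
  cS sum_cS)
open Pool.Agent.H96.ZN (c3 x3 rel_three Ls_three Ds_three)
open Pool.Agent.H96.W2 (BX mem_BX zero_mem_BX single_mem_BX single_one_mem_BX neg_mem_BX)
open Pool.Agent.H96.S (cond_t cond_f zc0 zc_ne resv_aevalp sum_single_eq sum_zero_eq)

/-- The exponent of an additional variable. -/
def lh {C : Type} {R : C → ℕ} (lam : (Σ c, Fin (R c + 1)) → ℤ) (h : Σ c, Fin (R c)) : ℤ :=
  lam ⟨h.1, h.2.succ⟩

/-- The polynomials of the second order. -/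
structure Ci (p : ℕ) {C : Type} [Fintype C] {R : C → ℕ} (lam : (Σ c, Fin (R c + 1)) → ℤ) where
  Q : MvPolynomial (Tc (Σ c, Fin (R c))) (ZMod p)
  P : MvPolynomial (Tc (Σ c, Fin (R c))) (ZMod p)
  g : ∀ (B : Type) [Field B] [Algebra (ZMod p) B] (Y : Tc (Σ c, Fin (R c)) → B),
    ∏ i, (1 + Y (Sum.inl ()) * Y (Sum.inr i) * (lh lam i : B)⁻¹) ^ (lh lam i).toNat -
      ∏ i, (1 + Y (Sum.inl ()) * Y (Sum.inr i) * (lh lam i : B)⁻¹) ^ (-lh lam i).toNat =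
      Y (Sum.inl ()) * (∑ i, if lh lam i = 0 then 0 else Y (Sum.inr i)) +
        Y (Sum.inl ()) ^ 2 * aeval Y Q ∧
    aeval Y P = ∏ i, (1 + Y (Sum.inl ()) * Y (Sum.inr i) *
      (lh lam i : B)⁻¹) ^ (-lh lam i).toNat
  s : ∀ (B : Type) [Field B] [Algebra (ZMod p) B] (Y : Tc (Σ c, Fin (R c)) → B),
    Y (Sum.inl ()) = 0 →
    ((∑ i, if lh lam i = 0 then 0 else Y (Sum.inr i)) = 0 →
      2 * aeval Y Q = - ∑ i, Y (Sum.inr i) ^ 2 * (lh lam i : B)⁻¹ ∧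
      (∃ E : B, ∀ i, aeval Y (pderiv (Sum.inr i) Q) =
        if lh lam i = 0 then 0 else E - Y (Sum.inr i) * (lh lam i : B)⁻¹)) ∧
    aeval Y P = 1 ∧ ∀ l, l ≠ Sum.inl () → aeval Y (pderiv l P) = 0

theorem exists_ci (p : ℕ) [Fact p.Prime] {C : Type} [Fintype C] {R : C → ℕ}
    (lam : (Σ c, Fin (R c + 1)) → ℤ)
    (hl : ∀ i, lam i = 0 ∨ ¬ (p : ℤ) ∣ lam i) : Nonempty (Ci p lam) := by
  obtain ⟨Q, P, h1, h2⟩ := exists_circuit (p := p) (lh lam)
    (fun i => hl _) (Sum.inl () : Tc (Σ c, Fin (R c)))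
    (fun i => Sum.inr i) (fun i j h => Sum.inr_injective h)
    fun i h => Sum.inr_ne_inl h
  exact ⟨⟨Q, P, h1, h2⟩⟩

variable {p : ℕ} [Fact p.Prime] {K : Type} [Field K] [Algebra (ZMod p) K]
  {V : ValuationSubring K} {A I Dd Nn B : Type} [Fintype A] [DecidableEq A] [Fintype Nn]
  [DecidableEq Nn] [Fintype Dd] [DecidableEq Dd] [Fintype B] [DecidableEq B] {C : B → Type}
  [∀ b, Fintype (C b)] [∀ b, DecidableEq (C b)] {R : ∀ b, C b → ℕ} {N : ℕ}
  {Nw : Fin N → ℕ} {ew : Fin N → Zx (Ux C R) → ℤ} {M M' : ℕ}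
  {L : LD p V A I Dd Nn B (Ux C R) (Hx C R) Nw ew M}

/-- The variables of a block. -/
def emb (Nn Dd : Type) {B : Type} {H : B → Type} (b : B) : Tc (H b) → (Nn ⊕ Dd) ⊕ Θx H :=
  fun θ => Sum.inr ⟨b, θ⟩

theorem emb_inj {H : B → Type} (b : B) : Function.Injective (emb Nn Dd (H := H) b) := by
  intro θ θ' h
  have h1 := Sum.inr_injective h
  simpa using h1

theorem pderiv_emb {H : B → Type} {b b' : B} (hb : b' ≠ b)
    (P : MvPolynomial (Tc (H b)) (ZMod p)) (θ : Tc (H b')) :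
    pderiv (Sum.inr ⟨b', θ⟩) (rename (emb Nn Dd (H := H) b) P) = 0 := by
  classical
  apply pderiv_eq_zero_of_notMem_vars
  intro h
  have h2 := vars_rename (emb Nn Dd (H := H) b) P h
  obtain ⟨x, -, hx⟩ := Finset.mem_image.mp h2
  exact hb (congrArg Sigma.fst (Sum.inr_injective hx)).symm

theorem vint (x : ℤ) : V.valuation (x : K) ≤ 1 :=
  (V.valuation_le_one_iff _).mpr (intCast_mem _ x)

theorem vlam [Algebra (ZMod p) (ResidueField V)] {x : ℤ} (hx : ¬ (p : ℤ) ∣ x) :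
    V.valuation (x : K) = 1 := by
  rw [← resv_ne_zero_iff (vint x), resv_intCast]
  exact zc_ne V hx

theorem lam_ne [Algebra (ZMod p) (ResidueField V)] {x : ℤ} (hx : ¬ (p : ℤ) ∣ x) :
    (x : K) ≠ 0 := by
  intro h
  have h1 := vlam (V := V) hx
  rw [h, map_zero] at h1
  exact zero_ne_one h1

/-- The values of the variables at the critical point. -/
def Circ.YC {b : B} (c : Circ L b) : Tc (Hx C R b) → K :=
  Sum.elim (fun _ => L.σ b) c.η

/-- The values at the variables of the block. -/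
theorem comp_emb {b : B} (c : Circ L b) {Y : Θx (Hx C R) → K} (hY : ∀ θ, Y ⟨b, θ⟩ = c.YC θ) :
    (Sum.elim L.y Y) ∘ emb Nn Dd b = c.YC := funext fun θ => hY θ

section Facts

variable [Algebra (ZMod p) (ResidueField V)] {b : B} (c : Circ L b)

theorem lam0_ne (x : C b) : c.lam ⟨x, 0⟩ ≠ 0 := by
  intro h
  apply c.lam0 x
  rw [h]
  exact dvd_zero _

theorem lamp_of {i : Ux C R b} (h : c.lam i ≠ 0) : ¬ (p : ℤ) ∣ c.lam i :=
  (c.lamp i).resolve_left h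

/-- The residues of the forms are proportional to the exponents. -/
theorem resv_forms (hσ : V.valuation (L.σ b) < 1) (x : C b) (i : Fin (R b x)) :
    (c.lam ⟨x, 0⟩ : ResidueField V) * resv V (L.ζ b ⟨x, i.succ⟩) =
      c.lam ⟨x, i.succ⟩ * resv V (L.ζ b ⟨x, 0⟩) := by
  have h4 := (resv_aevalp V (L.ζ b) (L.vζ b) (MvPolynomial.C (c.lam ⟨x, 0⟩ : ZMod p) *
    X ⟨x, i.succ⟩ - MvPolynomial.C (c.lam ⟨x, i.succ⟩ : ZMod p) * X ⟨x, 0⟩)).2
  have h6 := c.eqη ⟨x, i⟩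
  rw [map_sub, map_mul, map_mul, map_sub, map_mul, map_mul, aeval_C, aeval_C, aeval_X,
    aeval_X, aeval_C, aeval_C, aeval_X, aeval_X, map_intCast, map_intCast, map_intCast,
    map_intCast, h6] at h4
  have h5 : V.valuation (L.σ b * c.η ⟨x, i⟩) < 1 := by
    rw [map_mul]
    exact mul_lt_one_of_lt_of_le hσ (c.vη _)
  rw [(resv_eq_zero_iff h5.le).mpr h5] at h4
  exact (sub_eq_zero.mp h4.symm)

include c in
theorem vζ_zero (hσ : V.valuation (L.σ b) < 1) (x : C b) : V.valuation (L.ζ b ⟨x, 0⟩) = 1 := by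
  rw [← resv_ne_zero_iff (L.vζ b _)]
  intro h0
  have h1 : ∀ i : Fin (R b x + 1), resv V (L.ζ b ⟨x, i⟩) = 0 := by
    intro i
    refine Fin.cases h0 (fun i => ?_) i
    have h2 := resv_forms c hσ x i
    rw [h0, mul_zero] at h2
    exact (mul_eq_zero.mp h2).resolve_left (zc_ne V (c.lam0 x))
  have h2 := h1 (c.m x)
  rw [c.ζm, resv_one] at h2
  exact one_ne_zero h2

include c in
theorem ζ_zero (hσ : V.valuation (L.σ b) < 1) (x : C b) : L.ζ b ⟨x, 0⟩ = 1 := by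
  have h1 := c.m0 hσ x (vζ_zero c hσ x)
  rw [← c.ζm x, h1]

/-- The form of a vanishing exponent. -/
theorem eq_zero_form {h : Hx C R b} (hi : lh c.lam h = 0) :
    (c.lam ⟨h.1, 0⟩ : K) * L.ζ b ⟨h.1, h.2.succ⟩ = L.σ b * c.η h := by
  have h1 := c.eqη h
  have h2 : c.lam ⟨h.1, h.2.succ⟩ = 0 := hi
  rw [h2, Int.cast_zero, zero_mul, sub_zero] at h1
  exact h1

theorem vζ_form {h : Hx C R b} (hi : lh c.lam h = 0) :
    V.valuation (L.ζ b ⟨h.1, h.2.succ⟩) = V.valuation (L.σ b) * V.valuation (c.η h) := by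
  have h1 := congrArg V.valuation (eq_zero_form c hi)
  rw [map_mul, map_mul, vlam (c.lam0 _), one_mul] at h1
  exact h1

theorem vYC (θ : Tc (Hx C R b)) : V.valuation (c.YC θ) ≤ 1 := by
  rcases θ with θ | i
  · exact L.vσ b
  · exact c.vη i

theorem eq_form (hσ : V.valuation (L.σ b) < 1) (h : Hx C R b) :
    (c.lam ⟨h.1, 0⟩ : K) * L.ζ b ⟨h.1, h.2.succ⟩ = lh c.lam h + L.σ b * c.η h := by
  have h1 := c.eqη h
  rw [ζ_zero c hσ, mul_one] at h1
  show _ = (c.lam ⟨h.1, h.2.succ⟩ : K) + _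
  linear_combination h1

theorem sum_η (x : C b) : ∑ i, c.η ⟨x, i⟩ = 0 := by
  have h1 : L.σ b * ∑ i, c.η ⟨x, i⟩ = 0 := by
    have h0 : ∀ i : Fin (R b x), L.σ b * c.η ⟨x, i⟩ = (c.lam ⟨x, 0⟩ : K) * L.ζ b ⟨x, i.succ⟩ -
      c.lam ⟨x, i.succ⟩ * L.ζ b ⟨x, 0⟩ := fun i => (c.eqη ⟨x, i⟩).symm
    rw [Finset.mul_sum, Finset.sum_congr rfl fun i _ => h0 i, Finset.sum_sub_distrib,
      ← Finset.mul_sum, ← Finset.sum_mul]
    have h2 := c.ζs x
    rw [Fin.sum_univ_succ] at h2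
    have h3 : (c.lam ⟨x, 0⟩ : K) + ∑ i : Fin (R b x), (c.lam ⟨x, i.succ⟩ : K) = 0 := by
      have h4 := congrArg (Int.cast : ℤ → K) (c.lams x)
      rw [Int.cast_sum, Int.cast_zero, Fin.sum_univ_succ] at h4
      exact h4
    linear_combination (c.lam ⟨x, 0⟩ : K) * h2 - L.ζ b ⟨x, 0⟩ * h3
  exact (mul_eq_zero.mp h1).resolve_left (L.σ0 b)

theorem sum_η' : ∑ h, c.η h = 0 := by
  rw [Fintype.sum_sigma]
  exact Finset.sum_eq_zero fun x _ => sum_η c x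

/-- The coefficients of the linear part of the relation of the second order. -/
def Circ.fJ (c : Circ L b) (s : Ux C R b) : ZMod p :=
  if c.lam s = 0 then -(c.lam ⟨s.1, 0⟩ : ZMod p) else 0

theorem fJ_zero (x : C b) : c.fJ ⟨x, 0⟩ = 0 := if_neg (lam0_ne c x)

/-- A sum over the forms with vanishing exponents. -/
theorem sum_fJ' {β : Type} [Field β] [Algebra (ZMod p) β] (g : Ux C R b → β) :
    ∑ s, algebraMap (ZMod p) β (c.fJ s) * g s =
      ∑ h : Hx C R b, algebraMap (ZMod p) β (c.fJ ⟨h.1, h.2.succ⟩) * g ⟨h.1, h.2.succ⟩ := by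
  rw [Fintype.sum_sigma, Fintype.sum_sigma]
  refine Finset.sum_congr rfl fun x _ => ?_
  rw [Fin.sum_univ_succ, fJ_zero, map_zero, zero_mul, zero_add]

theorem sum_fJ : ∑ s, algebraMap (ZMod p) K (c.fJ s) * L.ζ b s =
    L.σ b * ∑ h, if lh c.lam h = 0 then 0 else c.η h := by
  have h1 : ∀ h : Hx C R b,
      algebraMap (ZMod p) K (c.fJ ⟨h.1, h.2.succ⟩) * L.ζ b ⟨h.1, h.2.succ⟩ =
      L.σ b * ((if lh c.lam h = 0 then 0 else c.η h) - c.η h) := by
    intro h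
    by_cases hi : lh c.lam h = 0
    · have h2 := eq_zero_form c hi
      have hi' : c.lam ⟨h.1, h.2.succ⟩ = 0 := hi
      rw [Circ.fJ, if_pos hi', if_pos hi, map_neg, map_intCast]
      linear_combination -h2
    · have hi' : c.lam ⟨h.1, h.2.succ⟩ ≠ 0 := hi
      rw [Circ.fJ, if_neg hi', if_neg hi, map_zero, zero_mul, sub_self, mul_zero]
  rw [sum_fJ' c fun s => L.ζ b s, Finset.sum_congr rfl fun i _ => h1 i, ← Finset.mul_sum,
    Finset.sum_sub_distrib, sum_η' c, sub_zero]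

/-- The relation of the second order. -/
theorem rel_second (hσ : V.valuation (L.σ b) < 1) (q : Ci p c.lam) :
    ∑ s, algebraMap (ZMod p) K (c.fJ s) * L.ζ b s +
      L.σ b ^ 2 * aeval c.YC q.Q =
    cond c.dn (L.y c.qd * mon L.t c.κd) 0 * aeval c.YC q.P := by
  obtain ⟨h1, h2⟩ := q.g K c.YC
  have hl : ∀ i, c.lam i ≠ 0 → (c.lam i : K) ≠ 0 := fun i hi => lam_ne (V := V) (lamp_of c hi)
  have hl0 : ∀ x, (c.lam ⟨x, 0⟩ : K) ≠ 0 := fun x => lam_ne (V := V) (c.lam0 x)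
  have hu : ∀ h : Hx C R b, c.lam ⟨h.1, h.2.succ⟩ ≠ 0 → (c.lam ⟨h.1, h.2.succ⟩ : K) *
      (1 + L.σ b * c.η h * (c.lam ⟨h.1, h.2.succ⟩ : K)⁻¹) =
      c.lam ⟨h.1, h.2.succ⟩ + L.σ b * c.η h := by
    intro h hi
    have h3 := hl _ hi
    field_simp
  have hf : ∀ h : Hx C R b, (c.lam ⟨h.1, 0⟩ : K) * L.ζ b ⟨h.1, h.2.succ⟩ =
      L.ζ b ⟨h.1, 0⟩ * (c.lam ⟨h.1, h.2.succ⟩ + L.σ b * c.η h) := by
    intro h
    rw [ζ_zero c hσ, one_mul]
    exact eq_form c hσ h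
  have hu0 : ∀ h : Hx C R b, c.lam ⟨h.1, h.2.succ⟩ ≠ 0 →
      1 + L.σ b * c.η h * (c.lam ⟨h.1, h.2.succ⟩ : K)⁻¹ ≠ 0 := by
    intro h hi h3
    have h4 := hf h
    rw [← hu h hi, h3, mul_zero, mul_zero] at h4
    exact mul_ne_zero (hl0 _) (L.ζ0 _ _) h4
  have h3 := mon_circuit c.lam (L.ζ b)
    (fun h => 1 + L.σ b * c.η h * (c.lam ⟨h.1, h.2.succ⟩ : K)⁻¹) hl0
    (fun x => L.ζ0 b _) hu0 c.lams fun h hi => by rw [hu h hi]; exact hf h
  have h3' : (∏ i, L.ζ b i ^ c.lam i) = mon (L.ζ b) c.lam := rfl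
  rw [h3', c.eqd] at h3
  have hc0 : (∏ i, (c.lam i : K) ^ c.lam i) ≠ 0 :=
    Finset.prod_ne_zero_iff.mpr fun i _ => by
      by_cases hi : c.lam i = 0
      · rw [hi, zpow_zero]; exact one_ne_zero
      · exact zpow_ne_zero _ (hl i hi)
  rw [mul_assoc] at h3
  have h4 := mul_left_cancel₀ hc0 h3
  rw [sum_fJ c]
  refine h1.symm.trans ?_
  rw [h2]
  show (∏ h : Hx C R b, (1 + L.σ b * c.η h * (c.lam ⟨h.1, h.2.succ⟩ : K)⁻¹) ^
      (c.lam ⟨h.1, h.2.succ⟩).toNat) -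
    ∏ h : Hx C R b, (1 + L.σ b * c.η h * (c.lam ⟨h.1, h.2.succ⟩ : K)⁻¹) ^
      (-c.lam ⟨h.1, h.2.succ⟩).toNat = _ *
      ∏ h : Hx C R b, (1 + L.σ b * c.η h * (c.lam ⟨h.1, h.2.succ⟩ : K)⁻¹) ^
        (-c.lam ⟨h.1, h.2.succ⟩).toNat
  rw [← h4]
  ring

/-- The point of the residue field. -/
noncomputable abbrev Circ.yr : Tc (Hx C R b) → ResidueField V := fun θ => resv V (c.YC θ)

theorem yr_ω (hσ : V.valuation (L.σ b) < 1) : c.yr (Sum.inl ()) = 0 :=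
  (resv_eq_zero_iff hσ.le).mpr hσ

theorem yr_sum (x : C b) : ∑ i, c.yr (Sum.inr ⟨x, i⟩) = 0 := by
  have h4 := (resv_aevalp V (fun i => c.η ⟨x, i⟩) (fun i => c.vη _)
    (∑ i, X i : MvPolynomial (Fin (R b x)) (ZMod p))).2
  rw [map_sum, map_sum] at h4
  simp only [aeval_X] at h4
  rw [sum_η c, resv_zero] at h4
  exact h4.symm

theorem yr_i0 : c.yr (Sum.inr c.i0) = 1 := by
  show resv V (c.η c.i0) = 1
  rw [c.ηi0, resv_one]

theorem lam0_res (x : C b) : (c.lam ⟨x, 0⟩ : ResidueField V) ≠ 0 := zc_ne V (c.lam0 x)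

theorem lams_res (x : C b) : ∑ i, (c.lam ⟨x, i⟩ : ResidueField V) = 0 := by
  rw [← Int.cast_sum, c.lams, Int.cast_zero]

theorem lam_res_iff (h : Hx C R b) :
    (c.lam ⟨h.1, h.2.succ⟩ : ResidueField V) = 0 ↔ lh c.lam h = 0 := by
  constructor
  · intro h'
    by_contra h1
    exact zc_ne V (lamp_of c h1) h'
  · intro h'
    have h1 : c.lam ⟨h.1, h.2.succ⟩ = 0 := h'
    rw [h1, Int.cast_zero]

theorem sum_nz (h : ∀ i, lh c.lam i = 0 → c.yr (Sum.inr i) = 0) :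
    (∑ i, if lh c.lam i = 0 then 0 else c.yr (Sum.inr i)) = 0 := by
  have h1 : ∑ i, c.yr (Sum.inr i) = 0 := by
    rw [Fintype.sum_sigma]
    exact Finset.sum_eq_zero fun x _ => yr_sum c x
  refine Eq.trans (Finset.sum_congr rfl fun i _ => ?_) h1
  split_ifs with hi
  · exact (h i hi).symm
  · rfl

theorem Q_ne (hσ : V.valuation (L.σ b) < 1) (q : Ci p c.lam)
    (h : ∀ i, lh c.lam i = 0 → c.yr (Sum.inr i) = 0) : q.Q ≠ 0 := by
  intro h0
  obtain ⟨h2, E, hE⟩ := (q.s _ c.yr (yr_ω c hσ)).1 (sum_nz c h)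
  rw [h0] at hE
  rw [h0, map_zero, mul_zero] at h2
  have h1 := crit (fun i => (c.lam i : ResidueField V)) (lam0_res c) (lams_res c) c.i0
    (fun i => c.yr (Sum.inr i))
    (yr_sum c) (yr_i0 c) (fun _ => 0) 0 1 E (by
      rw [one_mul]
      exact neg_eq_zero.mp h2.symm) (fun i => by
      have h3 := hE i
      rw [map_zero, map_zero] at h3
      by_cases hi : lh c.lam i = 0
      · exact Or.inl ⟨(lam_res_iff c _).mpr hi, h i hi⟩
      · refine Or.inr ⟨fun h5 => hi ((lam_res_iff c _).mp h5), ?_⟩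
        rw [if_neg hi] at h3
        rw [zero_mul, add_zero, one_mul, zero_add]
        exact h3.symm)
  exact one_ne_zero h1.2.2

theorem vP (hσ : V.valuation (L.σ b) < 1) (q : Ci p c.lam) :
    V.valuation (aeval c.YC q.P) = 1 := by
  have h1 := resv_aevalp V c.YC (vYC c) q.P
  rw [← resv_ne_zero_iff h1.1, h1.2, (q.s _ c.yr (yr_ω c hσ)).2.1]
  exact one_ne_zero

end Facts

section Lead

variable [Algebra (ZMod p) (ResidueField V)] {b : B} (c : Circ L b) (q : Ci p c.lam)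

/-- The exponent of the square. -/
def uJ (A : Type) {B : Type} [DecidableEq B] (U : B → Type) (N : ℕ) (b : B) : Ix A U N → ℤ :=
  EV 0 0 (Pi.single b 2) 0

/-- The coefficients of the relation of the second order. -/
noncomputable def Circ.cJ : Tx (Ux C R) → L.Po :=
  c3 (xt b c.fJ) (rename (emb Nn Dd b) q.Q)
    (cond c.dn (-(X (Sum.inl c.qd) * rename (emb Nn Dd b) q.P)) 0)

/-- The exponents of the relation of the second order. -/
def Circ.xJ : Tx (Ux C R) → Ix A (Ux C R) N → ℤ :=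
  x3 (gz A (Ux C R) N) (uJ A (Ux C R) N b) (EV c.κd 0 0 0)

theorem mon_uJ (L : LD p V A I Dd Nn B (Ux C R) (Hx C R) Nw ew M) (b : B) :
    mon L.τ (uJ A (Ux C R) N b) = L.σ b ^ 2 := by
  have h2 : (Pi.single b 2 : B → ℤ) = (2 : ℤ) • Pi.single b 1 := by
    rw [← Pi.single_smul, smul_eq_mul, mul_one]
  rw [uJ, L.mon_EV, h2, mon_smul, mon_single, mon_zero', mon_zero', mon_zero', one_mul,
    mul_one, one_mul]
  exact zpow_natCast _ 2

theorem relJ (hσ : V.valuation (L.σ b) < 1) {Y : Θx (Hx C R) → K}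
    (hY : ∀ θ, Y ⟨b, θ⟩ = c.YC θ) :
    ∑ s, aeval (Sum.elim L.y Y) (c.cJ q s) * mon L.τ (c.xJ s) = 0 := by
  refine (rel_three (y := Sum.elim L.y Y) _ _ _ _ _ _).trans ?_
  rw [sum_xt b _ fun s => mon L.τ (gz A (Ux C R) N s), mon_uJ L b, L.mon_t, aeval_rename,
    comp_emb c hY]
  simp only [mon_gz]
  have h1 := rel_second c hσ q
  rcases Bool.eq_false_or_eq_true c.dn with h | h
  · rw [cond_t h] at h1 ⊢
    rw [map_neg, map_mul, aeval_X, Sum.elim_inl, aeval_rename, comp_emb c hY]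
    linear_combination h1
  · rw [cond_f h] at h1 ⊢
    rw [map_zero]
    linear_combination h1

/-- A leading term of the relation of the second order. -/
structure JL (s₀ : Tx (Ux C R)) : Prop where
  ok : c.cJ q s₀ ≠ 0
  dom : ∀ s, c.cJ q s ≠ 0 → V.valuation (mon L.τ (c.xJ s)) ≤ V.valuation (mon L.τ (c.xJ s₀))
  alt : (resv V (mon L.τ (uJ A (Ux C R) N b) / mon L.τ (c.xJ s₀)) = 1 ∧
      ∀ i, lh c.lam i = 0 → c.yr (Sum.inr i) = 0) ∨
    (resv V (mon L.τ (uJ A (Ux C R) N b) / mon L.τ (c.xJ s₀)) = 0 ∧ ∃ h : Hx C R b,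
      lh c.lam h = 0 ∧
        resv V (mon L.τ (gz A (Ux C R) N ⟨b, ⟨h.1, h.2.succ⟩⟩) / mon L.τ (c.xJ s₀)) = 1)

/-- The terms of the relation of the second order. -/
theorem cJ_inl {s : Zx (Ux C R)} (hs : c.cJ q (Sum.inl s) ≠ 0) :
    ∃ h : Hx C R b, lh c.lam h = 0 ∧ s = ⟨b, ⟨h.1, h.2.succ⟩⟩ := by
  obtain ⟨b', ⟨x, i⟩⟩ := s
  have hb : b' = b := by
    by_contra hb
    apply hs
    show MvPolynomial.C (xt (U := Ux C R) b c.fJ ⟨b', ⟨x, i⟩⟩) = 0
    rw [xt_ne hb, map_zero]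
  subst hb
  have hi : c.lam ⟨x, i⟩ = 0 := by
    by_contra hi
    apply hs
    show MvPolynomial.C (xt (U := Ux C R) b' c.fJ ⟨b', ⟨x, i⟩⟩) = 0
    rw [xt_self, Circ.fJ, if_neg hi, map_zero]
  rcases Fin.eq_zero_or_eq_succ i with h0 | ⟨k, hk⟩
  · rw [h0] at hi
    exact absurd hi (lam0_ne c x)
  · subst hk
    exact ⟨⟨x, k⟩, hi, rfl⟩

theorem exists_JL (hσ : V.valuation (L.σ b) < 1) : ∃ s₀, JL c q s₀ := by
  classical
  -- the value of the last term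
  have hd : ∀ B : V.ValueGroup, (∀ h : Hx C R b, lh c.lam h = 0 →
      V.valuation (L.ζ b ⟨h.1, h.2.succ⟩) ≤ B) → V.valuation (L.σ b ^ 2) ≤ B →
      c.dn = true → V.valuation (mon L.t c.κd) ≤ B := by
    intro B h1 h2 h3
    have h4 := congrArg V.valuation (rel_second c hσ q)
    rw [cond_t h3, map_mul, map_mul, c.vqd, one_mul, vP c hσ q, mul_one] at h4
    rw [← h4, sum_fJ' c fun s => L.ζ b s]
    refine (V.valuation.map_add _ _).trans (max_le ?_ ?_)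
    · refine V.valuation.map_sum_le fun h _ => ?_
      by_cases hi : lh c.lam h = 0
      · have hi' : c.lam ⟨h.1, h.2.succ⟩ = 0 := hi
        rw [Circ.fJ, if_pos hi', map_neg, map_intCast, neg_mul, Valuation.map_neg, map_mul,
          vlam (c.lam0 _), one_mul]
        exact h1 h hi
      · have hi' : c.lam ⟨h.1, h.2.succ⟩ ≠ 0 := hi
        rw [Circ.fJ, if_neg hi', map_zero, zero_mul, map_zero]
        exact zero_le
    · rw [map_mul]
      exact (mul_le_of_le_one_right' (resv_aevalp V _ (vYC c) q.Q).1).trans h2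
  have hdt : ∀ B : V.ValueGroup, (∀ h : Hx C R b, lh c.lam h = 0 →
      V.valuation (L.ζ b ⟨h.1, h.2.succ⟩) ≤ B) → V.valuation (L.σ b ^ 2) ≤ B →
      c.cJ q (Sum.inr false) ≠ 0 → V.valuation (mon L.τ (c.xJ (Sum.inr false))) ≤ B := by
    intro B h1 h2 hs
    have h3 : c.dn = true := by
      rcases Bool.eq_false_or_eq_true c.dn with h | h
      · exact h
      · exfalso
        apply hs
        show cond c.dn _ (0 : L.Po) = 0
        rw [cond_f h]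
    have h4 : mon L.τ (c.xJ (Sum.inr false)) = mon L.t c.κd := L.mon_t c.κd
    rw [h4]
    exact hd B h1 h2 h3
  have hu : mon L.τ (c.xJ (Sum.inr true)) = L.σ b ^ 2 := mon_uJ L b
  have hg : ∀ h : Hx C R b, mon L.τ (c.xJ (Sum.inl ⟨b, ⟨h.1, h.2.succ⟩⟩)) =
      L.ζ b ⟨h.1, h.2.succ⟩ := fun h => mon_gz _
  by_cases hc : ∀ h : Hx C R b, lh c.lam h = 0 →
      V.valuation (L.ζ b ⟨h.1, h.2.succ⟩) ≤ V.valuation (L.σ b ^ 2)
  · have hy : ∀ i, lh c.lam i = 0 → c.yr (Sum.inr i) = 0 := by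
      intro i hi
      have h1 := hc i hi
      rw [vζ_form c hi, pow_two, map_mul] at h1
      have h2 : V.valuation (c.η i) ≤ V.valuation (L.σ b) :=
        le_of_mul_le_mul_left h1 (zero_lt_iff.mpr ((Valuation.ne_zero_iff _).mpr (L.σ0 b)))
      have h3 : V.valuation (c.η i) < 1 := h2.trans_lt hσ
      exact (resv_eq_zero_iff h3.le).mpr h3
    refine ⟨Sum.inr true, ?_, ?_, Or.inl ⟨?_, hy⟩⟩
    · show rename (emb Nn Dd (H := Hx C R) b) q.Q ≠ 0
      rw [Ne, map_eq_zero_iff _ (rename_injective _ (emb_inj b))]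
      exact Q_ne c hσ q hy
    · rintro (s | _ | _) hs
      · obtain ⟨h, hh, rfl⟩ := cJ_inl c q hs
        rw [hg, hu]
        exact hc h hh
      · rw [hu]
        exact hdt _ hc le_rfl hs
      · exact le_rfl
    · show resv V (mon L.τ (uJ A (Ux C R) N b) / mon L.τ (uJ A (Ux C R) N b)) = 1
      rw [div_self (mon_ne_zero L.τ_ne_zero _), resv_one]
  · push Not at hc
    obtain ⟨i1, hi1, hi1'⟩ := hc
    obtain ⟨j, hj, hjm⟩ := Finset.exists_max_image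
      (Finset.univ.filter fun h : Hx C R b => lh c.lam h = 0)
      (fun h => V.valuation (L.ζ b ⟨h.1, h.2.succ⟩))
      ⟨i1, Finset.mem_filter.mpr ⟨Finset.mem_univ _, hi1⟩⟩
    have hj0 : lh c.lam j = 0 := (Finset.mem_filter.mp hj).2
    have hm : ∀ h : Hx C R b, lh c.lam h = 0 → V.valuation (L.ζ b ⟨h.1, h.2.succ⟩) ≤
        V.valuation (L.ζ b ⟨j.1, j.2.succ⟩) := fun i hi =>
      hjm i (Finset.mem_filter.mpr ⟨Finset.mem_univ _, hi⟩)
    have hlt : V.valuation (L.σ b ^ 2) < V.valuation (L.ζ b ⟨j.1, j.2.succ⟩) :=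
      hi1'.trans_le (hm i1 hi1)
    refine ⟨Sum.inl ⟨b, ⟨j.1, j.2.succ⟩⟩, ?_, ?_, Or.inr ⟨?_, j, hj0, ?_⟩⟩
    · show MvPolynomial.C (xt (U := Ux C R) b c.fJ ⟨b, ⟨j.1, j.2.succ⟩⟩) ≠ 0
      have hj0' : c.lam ⟨j.1, j.2.succ⟩ = 0 := hj0
      rw [xt_self, Circ.fJ, if_pos hj0', Ne, MvPolynomial.C_eq_zero, neg_eq_zero,
        ZMod.intCast_zmod_eq_zero_iff_dvd]
      exact c.lam0 _
    · rw [hg]
      rintro (s | _ | _) hs
      · obtain ⟨h, hh, rfl⟩ := cJ_inl c q hs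
        rw [hg]
        exact hm h hh
      · exact hdt _ hm hlt.le hs
      · rw [hu]
        exact hlt.le
    · rw [hg, mon_uJ]
      have h1 : V.valuation (L.σ b ^ 2 / L.ζ b ⟨j.1, j.2.succ⟩) < 1 := by
        rw [map_div₀]
        exact (div_lt_one₀ ((zero_le).trans_lt hlt)).mpr hlt
      exact (resv_eq_zero_iff h1.le).mpr h1
    · show resv V (mon L.τ (gz A (Ux C R) N ⟨b, ⟨j.1, j.2.succ⟩⟩) /
        mon L.τ (gz A (Ux C R) N ⟨b, ⟨j.1, j.2.succ⟩⟩)) = 1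
      rw [div_self (mon_ne_zero L.τ_ne_zero _), resv_one]

end Lead

end Pool.Agent.H96.ZP
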