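import Pool.Agent.H96.ZP.LD

/-!
# The relations of a circuit block at the critical point
-/

set_option autoImplicit false
set_option linter.unusedSectionVars false

namespace Pool.Agent.H96.ZP

open MvPolynomial IsLocalRing Pool.Agent.H96.Reg Pool.Agent.H96.VL Pool.Agent.H96.W
open Pool.Agent.H96.Z (Ls Ds c2 x2 cl xl isRegular_of_terms rel_two rel_lin Ls_two Ds_two Ls_tt
  Ds_tt Ls_ff Ds_ff Ls_G Ds_G Ls_U Ds_U Ls_V Ds_V Ls_lin Ds_lin mon_zero' cring abs_single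
  abs_zero_le abs_fz_le cS sum_cS)
open Pool.Agent.H96.ZN (c3 x3 rel_three Ls_three Ds_three)
open Pool.Agent.H96.W2 (BX mem_BX zero_mem_BX single_mem_BX single_one_mem_BX neg_mem_BX)
open Pool.Agent.H96.S (cond_t cond_f zc0 zc_ne resv_aevalp sum_single_eq sum_zero_eq)

/-- The index set of the relations of a block at the critical point. -/
abbrev Sc (C T : Type) : Type := C ⊕ (T ⊕ (Unit ⊕ (C ⊕ (Unit ⊕ Unit))))

theorem sum_Sc {C T : Type} [Fintype C] [Fintype T] {β : Type} [AddCommMonoid β]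
    (g : Sc C T → β) : ∑ j, g j =
    ∑ c, g (Sum.inl c) + (∑ i, g (Sum.inr (Sum.inl i)) + (g (Sum.inr (Sum.inr (Sum.inl ()))) +
      (∑ c, g (Sum.inr (Sum.inr (Sum.inr (Sum.inl c)))) +
        (g (Sum.inr (Sum.inr (Sum.inr (Sum.inr (Sum.inl ()))))) +
          g (Sum.inr (Sum.inr (Sum.inr (Sum.inr (Sum.inr ()))))))))) := by
  have hu : ∀ g : Unit → β, ∑ u, g u = g () := fun g => by
    rw [Finset.univ_unique, Finset.sum_singleton]
  rw [Fintype.sum_sum_type, Fintype.sum_sum_type, Fintype.sum_sum_type, Fintype.sum_sum_type,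
    Fintype.sum_sum_type, hu, hu, hu]

variable {p : ℕ} [Fact p.Prime] {K : Type} [Field K] [Algebra (ZMod p) K]
  {V : ValuationSubring K} {A I Dd Nn B : Type} [Fintype A] [DecidableEq A] [Fintype Nn]
  [DecidableEq Nn] [Fintype Dd] [DecidableEq Dd] [Fintype B] [DecidableEq B] {C : B → Type}
  [∀ b, Fintype (C b)] [∀ b, DecidableEq (C b)] {R : ∀ b, C b → ℕ} {N : ℕ}
  {Nw : Fin N → ℕ} {ew : Fin N → Zx (Ux C R) → ℤ} {M M' : ℕ}
  {L : LD p V A I Dd Nn B (Ux C R) (Hx C R) Nw ew M}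

section Defs

variable {b : B} (c : Circ L b) (q : Ci p c.lam)

/-- The second coefficient of the relation of a form. -/
noncomputable def Circ.kz (h : Hx C R b) : L.Po :=
  if lh c.lam h = 0 then -X (Sum.inr ⟨b, Sum.inr h⟩) else
    -(MvPolynomial.C (lh c.lam h : ZMod p) +
        X (Sum.inr ⟨b, Sum.inl ()⟩) * X (Sum.inr ⟨b, Sum.inr h⟩))

/-- The second exponent of the relation of a form. -/
def Circ.ke (h : Hx C R b) : Ix A (Ux C R) N → ℤ :=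
  if lh c.lam h = 0 then EV 0 0 (Pi.single b 1) 0 else 0

/-- The coefficients of the relations of the block. -/
noncomputable def Circ.kc : Sc (C b) (Hx C R b) → Tx (Ux C R) → L.Po :=
  Sum.elim (fun _ => c2 _ 1 (-1))
    (Sum.elim (fun h => c2 _ (MvPolynomial.C (c.lam ⟨h.1, 0⟩ : ZMod p)) (c.kz h))
      (Sum.elim (fun _ => c2 _ 1 (-X (Sum.inr ⟨b, Sum.inl ()⟩)))
        (Sum.elim (fun x => c2 _ (∑ i, X (Sum.inr ⟨b, Sum.inr ⟨x, i⟩⟩)) 0)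
          (Sum.elim (fun _ => c2 _ (X (Sum.inr ⟨b, Sum.inr c.i0⟩) - 1) 0)
            fun _ => c.cJ q))))

/-- The exponents of the relations of the block. -/
def Circ.kx : Sc (C b) (Hx C R b) → Tx (Ux C R) → Ix A (Ux C R) N → ℤ :=
  Sum.elim (fun x => x2 _ (gz A (Ux C R) N ⟨b, ⟨x, 0⟩⟩) 0)
    (Sum.elim (fun h => x2 _ (gz A (Ux C R) N ⟨b, ⟨h.1, h.2.succ⟩⟩) (c.ke h))
      (Sum.elim (fun _ => x2 _ (EV 0 0 (Pi.single b 1) 0) 0)
        (Sum.elim (fun _ => x2 _ 0 0)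
          (Sum.elim (fun _ => x2 _ 0 0)
            fun _ => c.xJ))))

/-- The leading terms of the relations of the block. -/
def Circ.ks (s₀ : Tx (Ux C R)) : Sc (C b) (Hx C R b) → Tx (Ux C R) :=
  Sum.elim (fun _ => Sum.inr true) (Sum.elim (fun h => Sum.inr !decide (lh c.lam h = 0))
    (Sum.elim (fun _ => Sum.inr false) (Sum.elim (fun _ => Sum.inr true)
      (Sum.elim (fun _ => Sum.inr true) fun _ => s₀))))

end Defs

section Diff

variable [Algebra (ZMod p) (ResidueField V)] {b : B} (c : Circ L b) (q : Ci p c.lam)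
  {Y : Θx (Hx C R) → K}

theorem hω (hσ : V.valuation (L.σ b) < 1) (hY : ∀ θ, Y ⟨b, θ⟩ = c.YC θ) :
    resv V (Sum.elim L.y Y (Sum.inr ⟨b, Sum.inl ()⟩)) = 0 := by
  rw [Sum.elim_inr, hY]
  exact yr_ω c hσ

/-- The differential of the relation of a form. -/
theorem LsZ (hσ : V.valuation (L.σ b) < 1) (hY : ∀ θ, Y ⟨b, θ⟩ = c.YC θ) (h : Hx C R b)
    (s₀ : Tx (Ux C R)) (α : Ix A (Ux C R) N) :
    Ls V L.τ (Sum.elim L.y Y) (c.kc q (Sum.inr (Sum.inl h))) (c.kx (Sum.inr (Sum.inl h)))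
      (c.ks s₀ (Sum.inr (Sum.inl h))) α =
      if lh c.lam h = 0 then
        c.yr (Sum.inr h) *
            ((gz A (Ux C R) N ⟨b, ⟨h.1, h.2.succ⟩⟩ α : ℤ) : ResidueField V) -
          c.yr (Sum.inr h) *
            ((EV (A := A) (U := Ux C R) (N := N) 0 0 (Pi.single b 1) 0 α : ℤ) : ResidueField V)
      else (c.lam ⟨h.1, 0⟩ : ResidueField V) *
        ((gz A (Ux C R) N ⟨b, ⟨h.1, h.2.succ⟩⟩ α : ℤ) : ResidueField V) := by
  show Ls V L.τ (Sum.elim L.y Y) (c2 _ (MvPolynomial.C (c.lam ⟨h.1, 0⟩ : ZMod p)) (c.kz h))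
    (x2 _ (gz A (Ux C R) N ⟨b, ⟨h.1, h.2.succ⟩⟩) (c.ke h)) (Sum.inr !decide (lh c.lam h = 0))
      α = _
  by_cases hi : lh c.lam h = 0
  · rw [Circ.kz, Circ.ke, if_pos hi, if_pos hi, if_pos hi, decide_eq_true hi]
    refine (Ls_ff L.τ_ne_zero _ _ _ _ α).trans ?_
    have h1 : (c.lam ⟨h.1, 0⟩ : ResidueField V) *
        resv V (L.ζ b ⟨h.1, h.2.succ⟩ / L.σ b) = c.yr (Sum.inr h) := by
      have h2 := eq_zero_form c hi
      have h3 : V.valuation (L.ζ b ⟨h.1, h.2.succ⟩ / L.σ b) ≤ 1 := by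
        rw [map_div₀, vζ_form c hi, mul_div_cancel_left₀ _ ((Valuation.ne_zero_iff _).mpr (L.σ0 b))]
        exact c.vη h
      have h4 : c.η h = aeval (fun _ : Unit => L.ζ b ⟨h.1, h.2.succ⟩ / L.σ b)
          (MvPolynomial.C (c.lam ⟨h.1, 0⟩ : ZMod p) * X () : MvPolynomial Unit (ZMod p)) := by
        rw [map_mul, aeval_C, aeval_X, map_intCast, mul_div_assoc', h2,
          mul_div_cancel_left₀ _ (L.σ0 b)]
      show _ = resv V (c.η h)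
      rw [h4, (resv_aevalp V (fun _ : Unit => L.ζ b ⟨h.1, h.2.succ⟩ / L.σ b) (fun _ => h3) _).2,
        map_mul, aeval_C, aeval_X, map_intCast]
    rw [aeval_C, map_intCast, map_neg, aeval_X, Sum.elim_inr, hY, mon_gz, L.mon_s, h1]
    show c.yr (Sum.inr h) * _ + -c.yr (Sum.inr h) * _ = _
    ring
  · rw [Circ.kz, Circ.ke, if_neg hi, if_neg hi, if_neg hi, decide_eq_false hi]
    refine (Ls_tt L.τ_ne_zero _ _ _ _ α).trans ?_
    rw [aeval_C, map_intCast, Pi.zero_apply, Int.cast_zero, mul_zero, add_zero]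

theorem DsZo (h : Hx C R b) (s₀ : Tx (Ux C R)) (b' : B) (θ : Tc (Hx C R b')) (hb : b' ≠ b) :
    Ds V L.τ (Sum.elim L.y Y) (c.kc q (Sum.inr (Sum.inl h))) (c.kx (Sum.inr (Sum.inl h)))
      (c.ks s₀ (Sum.inr (Sum.inl h))) (Sum.inr ⟨b', θ⟩) = 0 := by
  refine (Ds_two _ _ _ _ _ _).trans ?_
  have h1 : pderiv (Sum.inr ⟨b', θ⟩) (c.kz h) = 0 := by
    rw [Circ.kz]
    split_ifs
    · rw [map_neg, pderiv_X,
        Pi.single_eq_of_ne (fun h => hb (congrArg Sigma.fst (Sum.inr_injective h)).symm), neg_zero]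
    · rw [map_neg, map_add, pderiv_C, Derivation.leibniz, pderiv_X,
        pderiv_X, Pi.single_eq_of_ne (fun h => hb (congrArg Sigma.fst (Sum.inr_injective h)).symm),
        Pi.single_eq_of_ne (fun h => hb (congrArg Sigma.fst (Sum.inr_injective h)).symm),
        smul_zero, smul_zero, add_zero, add_zero, neg_zero]
  rw [h1, pderiv_C, map_zero, zero_mul, zero_mul, add_zero]

theorem DsZy (hσ : V.valuation (L.σ b) < 1) (hY : ∀ θ, Y ⟨b, θ⟩ = c.YC θ) (h k : Hx C R b)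
    (s₀ : Tx (Ux C R)) :
    Ds V L.τ (Sum.elim L.y Y) (c.kc q (Sum.inr (Sum.inl h))) (c.kx (Sum.inr (Sum.inl h)))
      (c.ks s₀ (Sum.inr (Sum.inl h))) (Sum.inr ⟨b, Sum.inr k⟩) =
      if k = h then (if lh c.lam h = 0 then -1 else 0) else 0 := by
  show Ds V L.τ (Sum.elim L.y Y) (c2 _ (MvPolynomial.C (c.lam ⟨h.1, 0⟩ : ZMod p)) (c.kz h))
    (x2 _ (gz A (Ux C R) N ⟨b, ⟨h.1, h.2.succ⟩⟩) (c.ke h)) (Sum.inr !decide (lh c.lam h = 0))
      _ = _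
  by_cases hi : lh c.lam h = 0
  · rw [Circ.kz, if_pos hi, if_pos hi, decide_eq_true hi]
    refine (Ds_ff L.τ_ne_zero _ _ _ _ _).trans ?_
    rw [pderiv_C, map_zero, zero_mul, zero_add, map_neg, pderiv_X]
    by_cases hk : k = h
    · rw [if_pos hk, hk, Pi.single_eq_same, map_neg, map_one]
    · rw [if_neg hk, Pi.single_eq_of_ne (fun h' => hk (by simpa using h'.symm)), neg_zero,
        map_zero]
  · rw [Circ.kz, if_neg hi, if_neg hi, ite_self, decide_eq_false hi]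
    refine (Ds_tt L.τ_ne_zero _ _ _ _ _).trans ?_
    rw [pderiv_C, map_zero, zero_add, map_neg, map_add, pderiv_C, zero_add, Derivation.leibniz,
      pderiv_X, pderiv_X, Pi.single_eq_of_ne
        (i' := (Sum.inr ⟨b, Sum.inl ()⟩ : (Nn ⊕ Dd) ⊕ Θx (Hx C R)))
        (fun h => by simp at h), smul_zero, add_zero, smul_eq_mul, map_neg, map_mul, aeval_X,
      hω c hσ hY, zero_mul, neg_zero, zero_mul]

/-- The ratio of a form and the leading term. -/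
noncomputable def Circ.ρ (s₀ : Tx (Ux C R)) (h : Hx C R b) : ResidueField V :=
  algebraMap (ZMod p) (ResidueField V) (c.fJ ⟨h.1, h.2.succ⟩) *
    resv V (mon L.τ (gz A (Ux C R) N ⟨b, ⟨h.1, h.2.succ⟩⟩) / mon L.τ (c.xJ s₀))

/-- The ratio of the square and the leading term. -/
noncomputable def Circ.cc (s₀ : Tx (Ux C R)) : ResidueField V :=
  resv V (mon L.τ (uJ A (Ux C R) N b) / mon L.τ (c.xJ s₀))

theorem hev (hY : ∀ θ, Y ⟨b, θ⟩ = c.YC θ) (P : MvPolynomial (Tc (Hx C R b)) (ZMod p)) :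
    aeval (fun l => resv V (Sum.elim L.y Y l)) (rename (emb Nn Dd b) P) = aeval c.yr P := by
  have hrr : (fun l => resv V (Sum.elim L.y Y l)) ∘ emb Nn Dd b = c.yr :=
    funext fun θ => congrArg (resv V) (hY θ)
  rw [aeval_rename, hrr]

/-- The differential of the relation of the second order. -/
theorem LsJ (hY : ∀ θ, Y ⟨b, θ⟩ = c.YC θ) (s₀ : Tx (Ux C R)) (α : Ix A (Ux C R) N) :
    Ls V L.τ (Sum.elim L.y Y) (c.cJ q) c.xJ s₀ α =
      ∑ h, c.ρ s₀ h *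
        ((gz A (Ux C R) N ⟨b, ⟨h.1, h.2.succ⟩⟩ α : ℤ) : ResidueField V) +
      (aeval c.yr q.Q * c.cc s₀ * ((uJ A (Ux C R) N b α : ℤ) : ResidueField V) +
      aeval (fun l => resv V (Sum.elim L.y Y l))
        (cond c.dn (-(X (Sum.inl c.qd) * rename (emb Nn Dd b) q.P)) 0 : L.Po) *
        resv V (mon L.τ (EV c.κd 0 0 0) / mon L.τ (c.xJ s₀)) *
        ((EV (A := A) (U := Ux C R) (N := N) c.κd 0 0 0 α : ℤ) : ResidueField V)) := by
  refine (Ls_three _ _ _ _ _ _ _ α).trans ?_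
  rw [hev c hY]
  congr 1
  simp only [mul_assoc]
  rw [sum_xt b c.fJ fun s => resv V (mon L.τ (gz A (Ux C R) N s) /
    mon L.τ (x3 (gz A (Ux C R) N) (uJ A (Ux C R) N b) (EV c.κd 0 0 0) s₀)) *
      ((gz A (Ux C R) N s α : ℤ) : ResidueField V),
    sum_fJ' c fun s => resv V (mon L.τ (gz A (Ux C R) N ⟨b, s⟩) /
    mon L.τ (x3 (gz A (Ux C R) N) (uJ A (Ux C R) N b) (EV c.κd 0 0 0) s₀)) *
      ((gz A (Ux C R) N ⟨b, s⟩ α : ℤ) : ResidueField V)]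
  refine Finset.sum_congr rfl fun i _ => ?_
  rw [Circ.ρ, mul_assoc]
  rfl

theorem DsJ_aux (hσ : V.valuation (L.σ b) < 1) (hY : ∀ θ, Y ⟨b, θ⟩ = c.YC θ)
    (l : (Nn ⊕ Dd) ⊕ Θx (Hx C R))
    (hl : (∃ i, l = Sum.inr ⟨b, Sum.inr i⟩) ∨ ∃ b' θ, b' ≠ b ∧ l = Sum.inr ⟨b', θ⟩) :
    aeval (fun l => resv V (Sum.elim L.y Y l)) (pderiv l
      (cond c.dn (-(X (Sum.inl c.qd) * rename (emb Nn Dd b) q.P)) 0 : L.Po)) = 0 := by
  have hd : ∀ i (P : MvPolynomial (Tc (Hx C R b)) (ZMod p)),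
      pderiv (Sum.inr ⟨b, Sum.inr i⟩) (rename (emb Nn Dd b) P) =
        rename (emb Nn Dd b) (pderiv (Sum.inr i) P) := fun i P =>
    pderiv_rename (emb_inj b) (Sum.inr i) P
  rcases Bool.eq_false_or_eq_true c.dn with h | h
  · rw [cond_t h, map_neg, Derivation.leibniz, pderiv_X, smul_eq_mul, smul_eq_mul]
    rcases hl with ⟨i, rfl⟩ | ⟨b', θ, hb, rfl⟩
    · rw [Pi.single_eq_of_ne Sum.inl_ne_inr, mul_zero, add_zero, map_neg, map_mul, hd,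
        hev c hY, (q.s _ c.yr (yr_ω c hσ)).2.2 _ Sum.inr_ne_inl, mul_zero, neg_zero]
    · rw [Pi.single_eq_of_ne Sum.inl_ne_inr, mul_zero, add_zero, pderiv_emb hb, mul_zero,
        neg_zero, map_zero]
  · rw [cond_f h, map_zero, map_zero]

theorem DsJ (hσ : V.valuation (L.σ b) < 1) (hY : ∀ θ, Y ⟨b, θ⟩ = c.YC θ) (s₀ : Tx (Ux C R))
    (i : Hx C R b) :
    Ds V L.τ (Sum.elim L.y Y) (c.cJ q) c.xJ s₀ (Sum.inr ⟨b, Sum.inr i⟩) =
      aeval c.yr (pderiv (Sum.inr i) q.Q) * c.cc s₀ := by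
  refine (Ds_three _ _ _ _ _ _ _ _).trans ?_
  have hd : ∀ P : MvPolynomial (Tc (Hx C R b)) (ZMod p),
      pderiv (Sum.inr ⟨b, Sum.inr i⟩) (rename (emb Nn Dd b) P) =
        rename (emb Nn Dd b) (pderiv (Sum.inr i) P) := fun P =>
    pderiv_rename (emb_inj b) (Sum.inr i) P
  rw [DsJ_aux c q hσ hY _ (Or.inl ⟨i, rfl⟩), zero_mul, add_zero, hd, hev c hY]
  rfl

theorem DsJo (hσ : V.valuation (L.σ b) < 1) (hY : ∀ θ, Y ⟨b, θ⟩ = c.YC θ) (s₀ : Tx (Ux C R))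
    (b' : B) (θ : Tc (Hx C R b')) (hb : b' ≠ b) :
    Ds V L.τ (Sum.elim L.y Y) (c.cJ q) c.xJ s₀ (Sum.inr ⟨b', θ⟩) = 0 := by
  refine (Ds_three _ _ _ _ _ _ _ _).trans ?_
  rw [DsJ_aux c q hσ hY _ (Or.inr ⟨b', θ, hb, rfl⟩), zero_mul, add_zero, pderiv_emb hb, map_zero,
    zero_mul]

theorem LsJ_w (hY : ∀ θ, Y ⟨b, θ⟩ = c.YC θ) (s₀ : Tx (Ux C R)) (c' : Fin N) :
    Ls V L.τ (Sum.elim L.y Y) (c.cJ q) c.xJ s₀ (Sum.inr (Sum.inr (Sum.inr c'))) = 0 := by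
  rw [LsJ c q hY, uJ, EV_w, EV_w, Pi.zero_apply, Int.cast_zero, mul_zero, mul_zero,
    add_zero, add_zero]
  exact Finset.sum_eq_zero fun i _ => by
    rw [show gz A (Ux C R) N ⟨b, ⟨i.1, i.2.succ⟩⟩ (Sum.inr (Sum.inr (Sum.inr c'))) = 0 from rfl,
      Int.cast_zero, mul_zero]

theorem LsJ_so (hY : ∀ θ, Y ⟨b, θ⟩ = c.YC θ) (s₀ : Tx (Ux C R)) (b' : B) (hb : b' ≠ b) :
    Ls V L.τ (Sum.elim L.y Y) (c.cJ q) c.xJ s₀ (Sum.inr (Sum.inr (Sum.inl b'))) = 0 := by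
  rw [LsJ c q hY, uJ, EV_s, EV_s, Pi.single_eq_of_ne hb, Pi.zero_apply, Int.cast_zero, mul_zero,
    mul_zero, add_zero, add_zero]
  exact Finset.sum_eq_zero fun i _ => by
    rw [show gz A (Ux C R) N ⟨b, ⟨i.1, i.2.succ⟩⟩ (Sum.inr (Sum.inr (Sum.inl b'))) = 0 from rfl,
      Int.cast_zero, mul_zero]

theorem LsJ_s (hY : ∀ θ, Y ⟨b, θ⟩ = c.YC θ) (s₀ : Tx (Ux C R)) :
    Ls V L.τ (Sum.elim L.y Y) (c.cJ q) c.xJ s₀ (Sum.inr (Sum.inr (Sum.inl b))) =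
      2 * aeval c.yr q.Q * c.cc s₀ := by
  rw [LsJ c q hY, uJ, EV_s, EV_s, Pi.single_eq_same, Pi.zero_apply, Int.cast_zero,
    mul_zero, add_zero, Finset.sum_eq_zero fun i _ => by
      rw [show gz A (Ux C R) N ⟨b, ⟨i.1, i.2.succ⟩⟩ (Sum.inr (Sum.inr (Sum.inl b))) = 0 from rfl,
        Int.cast_zero, mul_zero],
    zero_add, Int.cast_ofNat]
  ring

theorem LsJ_zo (hY : ∀ θ, Y ⟨b, θ⟩ = c.YC θ) (s₀ : Tx (Ux C R)) (b' : B) (i : Ux C R b')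
    (hb : b' ≠ b) :
    Ls V L.τ (Sum.elim L.y Y) (c.cJ q) c.xJ s₀ (Sum.inr (Sum.inl ⟨b', i⟩)) = 0 := by
  rw [LsJ c q hY, uJ, EV_z, EV_z, Pi.zero_apply, Int.cast_zero, mul_zero, mul_zero,
    add_zero, add_zero]
  exact Finset.sum_eq_zero fun i _ => by
    rw [gz_ne (fun h => hb (congrArg Sigma.fst h)), Int.cast_zero, mul_zero]

theorem LsJ_z0 (hY : ∀ θ, Y ⟨b, θ⟩ = c.YC θ) (s₀ : Tx (Ux C R)) (x : C b) :
    Ls V L.τ (Sum.elim L.y Y) (c.cJ q) c.xJ s₀ (Sum.inr (Sum.inl ⟨b, ⟨x, 0⟩⟩)) = 0 := by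
  rw [LsJ c q hY, uJ, EV_z, EV_z, Pi.zero_apply, Int.cast_zero, mul_zero, mul_zero,
    add_zero, add_zero]
  refine Finset.sum_eq_zero fun i _ => ?_
  rw [gz_ne, Int.cast_zero, mul_zero]
  intro h
  have h1 := (Sigma.mk.inj_iff.mp h).2
  have h2 := (Sigma.mk.inj_iff.mp (eq_of_heq h1))
  obtain ⟨h3, h4⟩ := h2
  subst h3
  exact Fin.succ_ne_zero _ (eq_of_heq h4).symm

theorem gz_hk (h k : Hx C R b) :
    gz A (Ux C R) N ⟨b, ⟨h.1, h.2.succ⟩⟩ (Sum.inr (Sum.inl ⟨b, ⟨k.1, k.2.succ⟩⟩)) =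
      if h = k then 1 else 0 := by
  by_cases hk : h = k
  · rw [if_pos hk, hk, gz_self]
  · rw [if_neg hk, gz_ne]
    intro h1
    apply hk
    obtain ⟨h, h'⟩ := h
    obtain ⟨k, k'⟩ := k
    have h2 := (Sigma.mk.inj_iff.mp (eq_of_heq (Sigma.mk.inj_iff.mp h1).2))
    obtain ⟨h3, h4⟩ := h2
    simp only at h3
    subst h3
    have h5 : k'.succ = h'.succ := eq_of_heq h4
    rw [Fin.succ_injective _ h5]

theorem LsJ_zk (hY : ∀ θ, Y ⟨b, θ⟩ = c.YC θ) (s₀ : Tx (Ux C R)) (k : Hx C R b) :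
    Ls V L.τ (Sum.elim L.y Y) (c.cJ q) c.xJ s₀ (Sum.inr (Sum.inl ⟨b, ⟨k.1, k.2.succ⟩⟩)) =
      c.ρ s₀ k := by
  rw [LsJ c q hY, uJ, EV_z, EV_z, Pi.zero_apply, Int.cast_zero, mul_zero, mul_zero,
    add_zero, add_zero,
    sum_single_eq _ k fun i hi => by rw [gz_hk, if_neg hi, Int.cast_zero, mul_zero], gz_hk,
    if_pos rfl, Int.cast_one, mul_one]

end Diff

end Pool.Agent.H96.ZP
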