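import Pool.Agent.H96.ZP.LG

/-!
# Local regularity
-/

set_option autoImplicit false
set_option linter.unusedSectionVars false

namespace Pool.Agent.H96.ZP

open MvPolynomial IsLocalRing Pool.Agent.H96.Reg Pool.Agent.H96.VL Pool.Agent.H96.W
open Pool.Agent.H96.Z (cring)
open Pool.Agent.H96.W2 (BX mem_BX)

variable {p : ℕ} [Fact p.Prime] {K : Type} [Field K] [Algebra (ZMod p) K]
  {V : ValuationSubring K} {A I Dd Nn B : Type} [Fintype A] [DecidableEq A] [Fintype Nn]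
  [DecidableEq Nn] [Fintype Dd] [DecidableEq Dd] [Fintype B] [DecidableEq B] {C : B → Type}
  [∀ b, Fintype (C b)] [∀ b, DecidableEq (C b)] {R : ∀ b, C b → ℕ} {N : ℕ}
  {Nw : Fin N → ℕ} {ew : Fin N → Zx (Ux C R) → ℤ} {M M' : ℕ}
  {L : LD p V A I Dd Nn B (Ux C R) (Hx C R) Nw ew M}

/-- A block with suitable relations, of dimension at most `n`. -/
def Good (L : LD p V A I Dd Nn B (Ux C R) (Hx C R) Nw ew M) [Algebra (ZMod p) (ResidueField V)]
    (Y : Θx (Hx C R) → K) (M' : ℕ) (b : B) (n : ℕ) : Prop :=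
  ∃ (S : Type) (_ : Fintype S) (c : S → Tx (Ux C R) → L.Po)
    (x : S → Tx (Ux C R) → Ix A (Ux C R) N → ℤ)
    (s₀ : S → Tx (Ux C R)), Bok L Y M' b c x s₀ ∧
      Fintype.card (Ux C R b) + (1 + (1 + Fintype.card (Hx C R b))) ≤ n + Fintype.card S

variable [Algebra (ZMod p) (ResidueField V)] {Y : Θx (Hx C R) → K} {b : B}

theorem card_Hx (b : B) : Fintype.card (Hx C R b) = ∑ c, R b c := by
  rw [Fintype.card_sigma]
  simp only [Fintype.card_fin]

theorem card_Ux (b : B) : Fintype.card (Ux C R b) = ∑ c, R b c + Fintype.card (C b) := by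
  rw [Fintype.card_sigma]
  simp only [Fintype.card_fin]
  rw [Finset.sum_add_distrib, Finset.sum_const, Finset.card_univ, smul_eq_mul, mul_one]

theorem good_of_pok (hY : ∀ θ, Y ⟨b, θ⟩ = 0) {S : Type} [Fintype S] {c : S → Tx (Ux C R) → L.Po}
    {x : S → Tx (Ux C R) → Ix A (Ux C R) N → ℤ} {s₀ : S → Tx (Ux C R)}
    (hP : Pok L Y M' b c x s₀) {n : ℕ}
    (hn : Fintype.card (Ux C R b) + 1 ≤ n + Fintype.card S) : Good L Y M' b n := by
  refine ⟨_, _, _, _, _, bok_of_pok hY hP, ?_⟩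
  have h1 : Fintype.card (Tc (Hx C R b) ⊕ S) =
      1 + Fintype.card (Hx C R b) + Fintype.card S := by
    rw [Fintype.card_sum, Fintype.card_sum, Fintype.card_unit]
  rw [h1]
  omega

theorem good_lin (h2 : 2 ≤ M') (n : Nm L b) (hσ : L.σ b = 1)
    (hY : ∀ θ, Y ⟨b, θ⟩ = 0) : Good L Y M' b (∑ c, R b c - Fintype.card (C b)) := by
  refine good_of_pok hY (pokL n h2 hσ Y) ?_
  rw [Fintype.card_sum, Fintype.card_sum, Fintype.card_unit, card_Ux]
  omega

theorem good_deg (h2 : 2 ≤ M') (hσ : L.σ b = 1)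
    (e : Ux C R b → ZMod p) (he0 : ∀ i, e i ≠ 0)
    (he : ∀ i, L.ζ b i = algebraMap (ZMod p) K (e i)) (hY : ∀ θ, Y ⟨b, θ⟩ = 0) :
    Good L Y M' b 0 := by
  refine good_of_pok hY (pokD h2 hσ e he0 he Y) ?_
  rw [Fintype.card_sum, Fintype.card_unit]
  omega

theorem good_cirN (h2 : 2 ≤ M') (hM : M ≤ M') (c : Circ L b) (hσ : V.valuation (L.σ b) = 1)
    (hY : ∀ θ, Y ⟨b, θ⟩ = 0) : Good L Y M' b (∑ c, R b c - Fintype.card (C b) - 1) := by
  refine good_of_pok hY (pokN h2 hM c hσ Y) ?_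
  rw [Fintype.card_sum, Fintype.card_sum, Fintype.card_sum, Fintype.card_unit, card_Ux]
  omega

theorem good_cirC (h2 : 2 ≤ M') (hM : M ≤ M') (c : Circ L b) (hσ : V.valuation (L.σ b) < 1)
    (hY : ∀ θ, Y ⟨b, θ⟩ = c.YC θ) :
    Good L Y M' b (∑ c, R b c - Fintype.card (C b) - 1) := by
  obtain ⟨q⟩ := exists_ci p c.lam c.lamp
  obtain ⟨s₀, hs₀⟩ := exists_JL c q hσ
  refine ⟨_, _, _, _, _, bokC c q h2 hM hσ hY hs₀, ?_⟩
  have h1 : Fintype.card (Sc (C b) (Hx C R b)) =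
      2 * Fintype.card (C b) + Fintype.card (Hx C R b) + 3 := by
    simp only [Fintype.card_sum, Fintype.card_unit]
    omega
  rw [h1, card_Ux]
  omega

/-- **Local regularity.** -/
theorem isRegular_local {C' : Cone (Ix A (Ux C R) N)}
    (h : Cx L M' C') (hY : ∀ θ, V.valuation (Y θ) ≤ 1) (dim : B → ℕ)
    (hG : ∀ b, Good L Y M' b (dim b))
    (halg : Algebra.IsAlgebraic (Algebra.adjoin (ZMod p)
      (Set.range (Sum.elim (fun j => mon L.τ (C'.b j)) (Sum.elim L.y Y)))) K)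
    (htr : ((Fintype.card Dd + ∑ b, dim b : ℕ) : Cardinal.{0}) ≤ Algebra.trdeg (ZMod p) K) :
    IsRegularLocalRing (cring V L.τ (Sum.elim L.y Y) C') := by
  choose S fS c x s₀ hB hd using hG
  exact isRegular_blocks h hY dim S c x s₀ hB hd halg htr

end Pool.Agent.H96.ZP
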