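import Pool.Agent.H96.ZP.LE

/-!
# The relations of a circuit block at the critical point are suitable
-/

set_option autoImplicit false
set_option linter.unusedSectionVars false

namespace Pool.Agent.H96.ZP

open MvPolynomial IsLocalRing Pool.Agent.H96.Reg Pool.Agent.H96.VL Pool.Agent.H96.W
open Pool.Agent.H96.Z (Ls Ds c2 x2 cl xl isRegular_of_terms rel_two rel_lin Ls_two Ds_two Ls_tt
  Ds_tt Ls_ff Ds_ff Ls_G Ds_G Ls_U Ds_U Ls_V Ds_V Ls_lin Ds_lin mon_zero' cring abs_single
  abs_zero_le abs_fz_le cS sum_cS)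
open Pool.Agent.H96.ZN (c3 x3 rel_three Ls_three Ds_three)
open Pool.Agent.H96.W2 (BX mem_BX zero_mem_BX single_mem_BX single_one_mem_BX neg_mem_BX)
open Pool.Agent.H96.S (cond_t cond_f zc0 zc_ne resv_aevalp sum_single_eq sum_zero_eq)

variable {p : ℕ} [Fact p.Prime] {K : Type} [Field K] [Algebra (ZMod p) K]
  {V : ValuationSubring K} {A I Dd Nn B : Type} [Fintype A] [DecidableEq A] [Fintype Nn]
  [DecidableEq Nn] [Fintype Dd] [DecidableEq Dd] [Fintype B] [DecidableEq B] {C : B → Type}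
  [∀ b, Fintype (C b)] [∀ b, DecidableEq (C b)] {R : ∀ b, C b → ℕ} {N : ℕ}
  {Nw : Fin N → ℕ} {ew : Fin N → Zx (Ux C R) → ℤ} {M M' : ℕ}
  {L : LD p V A I Dd Nn B (Ux C R) (Hx C R) Nw ew M}
  [Algebra (ZMod p) (ResidueField V)] {b : B} (c : Circ L b) (q : Ci p c.lam)
  {Y : Θx (Hx C R) → K}

/-- The sum of the derivatives of the linear relations. -/
theorem sum_Λ (a : C b → ResidueField V) (k : Hx C R b) :
    ∑ x, a x * (if x = k.1 then 1 else 0) = a k.1 := by
  rw [sum_single_eq _ k.1 fun x hx => by rw [if_neg hx, mul_zero], if_pos rfl, mul_one]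

/-- **The relations of a circuit block at the critical point.** -/
theorem bokC (h2 : 2 ≤ M') (hM : M ≤ M') (hσ : V.valuation (L.σ b) < 1)
    (hY : ∀ θ, Y ⟨b, θ⟩ = c.YC θ) {s₀ : Tx (Ux C R)} (hJL : JL c q s₀) :
    Bok L Y M' b (c.kc q) c.kx (c.ks s₀) := by
  classical
  have hL1 : |(1 : ℤ)| ≤ (M' : ℤ) := one_le_of h2
  have hL2 : |(2 : ℤ)| ≤ (M' : ℤ) := by
    rw [show |(2 : ℤ)| = ((2 : ℕ) : ℤ) from rfl]
    exact_mod_cast h2
  have h3 : ∀ x : ℤ, |x| ≤ M → |x| ≤ M' := fun x hx => hx.trans (by exact_mod_cast hM)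
  have hm1 : mon L.τ (EV 0 0 (Pi.single b 1) 0) = L.σ b := L.mon_s b
  -- the differentials
  have hT : ∀ x α, Ls V L.τ (Sum.elim L.y Y) (c.kc q (Sum.inl x)) (c.kx (Sum.inl x))
      (c.ks s₀ (Sum.inl x)) α = ((gz A (Ux C R) N ⟨b, ⟨x, 0⟩⟩ α : ℤ) : ResidueField V) :=
    fun x α => Ls_TT _ α
  have hT' : ∀ x l, Ds V L.τ (Sum.elim L.y Y) (c.kc q (Sum.inl x)) (c.kx (Sum.inl x))
      (c.ks s₀ (Sum.inl x)) l = 0 := fun x l => Ds_U L.τ_ne_zero l
  have hZ := LsZ c q hσ hY
  have hI : ∀ α, Ls V L.τ (Sum.elim L.y Y) (c.kc q (Sum.inr (Sum.inr (Sum.inl ()))))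
      (c.kx (Sum.inr (Sum.inr (Sum.inl ())))) (c.ks s₀ (Sum.inr (Sum.inr (Sum.inl ())))) α =
      0 := by
    intro α
    refine Ls_V ?_ _ α
    rw [hm1]
    exact hσ
  have hI' : ∀ l, Ds V L.τ (Sum.elim L.y Y) (c.kc q (Sum.inr (Sum.inr (Sum.inl ()))))
      (c.kx (Sum.inr (Sum.inr (Sum.inl ())))) (c.ks s₀ (Sum.inr (Sum.inr (Sum.inl ())))) l =
      if l = Sum.inr ⟨b, Sum.inl ()⟩ then (-1 : ResidueField V) else 0 := fun l => Ds_V _ l
  have hΛ : ∀ x α, Ls V L.τ (Sum.elim L.y Y) (c.kc q (Sum.inr (Sum.inr (Sum.inr (Sum.inl x)))))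
      (c.kx (Sum.inr (Sum.inr (Sum.inr (Sum.inl x)))))
      (c.ks s₀ (Sum.inr (Sum.inr (Sum.inr (Sum.inl x))))) α = 0 := fun x α => Ls_G _ _ α
  have hX : ∀ α, Ls V L.τ (Sum.elim L.y Y)
      (c.kc q (Sum.inr (Sum.inr (Sum.inr (Sum.inr (Sum.inl ()))))))
      (c.kx (Sum.inr (Sum.inr (Sum.inr (Sum.inr (Sum.inl ()))))))
      (c.ks s₀ (Sum.inr (Sum.inr (Sum.inr (Sum.inr (Sum.inl ())))))) α = 0 := fun α => Ls_G _ _ α
  have hΛ' : ∀ x (h : Hx C R b), Ds V L.τ (Sum.elim L.y Y)
      (c.kc q (Sum.inr (Sum.inr (Sum.inr (Sum.inl x)))))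
      (c.kx (Sum.inr (Sum.inr (Sum.inr (Sum.inl x)))))
      (c.ks s₀ (Sum.inr (Sum.inr (Sum.inr (Sum.inl x)))))
      (Sum.inr ⟨b, Sum.inr h⟩) = if x = h.1 then 1 else 0 := by
    rintro x ⟨y, k⟩
    refine (Ds_G _ _).trans ?_
    rw [map_sum, map_sum]
    by_cases hx : x = y
    · subst hx
      rw [if_pos rfl, Finset.sum_eq_single k]
      · rw [pderiv_X, Pi.single_eq_same, map_one]
      · intro j _ hj
        rw [pderiv_X, Pi.single_eq_of_ne (fun h => hj (by simpa using h)), map_zero]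
      · intro h; exact absurd (Finset.mem_univ _) h
    · rw [if_neg hx]
      refine Finset.sum_eq_zero fun i _ => ?_
      rw [pderiv_X, Pi.single_eq_of_ne (fun h => by
        have h1 := Sum.inr_injective (eq_of_heq (Sigma.mk.inj_iff.mp (Sum.inr_injective h)).2)
        exact hx (congrArg Sigma.fst h1)), map_zero]
  have hΛo : ∀ x b' θ, b' ≠ b → Ds V L.τ (Sum.elim L.y Y)
      (c.kc q (Sum.inr (Sum.inr (Sum.inr (Sum.inl x)))))
      (c.kx (Sum.inr (Sum.inr (Sum.inr (Sum.inl x)))))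
      (c.ks s₀ (Sum.inr (Sum.inr (Sum.inr (Sum.inl x)))))
      (Sum.inr ⟨b', θ⟩) = 0 := by
    intro x b' θ hb
    refine (Ds_G _ _).trans ?_
    rw [map_sum, map_sum]
    refine Finset.sum_eq_zero fun i _ => ?_
    rw [pderiv_X, Pi.single_eq_of_ne
      (fun h => hb (congrArg Sigma.fst (Sum.inr_injective h)).symm), map_zero]
  have hX' : ∀ i, Ds V L.τ (Sum.elim L.y Y)
      (c.kc q (Sum.inr (Sum.inr (Sum.inr (Sum.inr (Sum.inl ()))))))
      (c.kx (Sum.inr (Sum.inr (Sum.inr (Sum.inr (Sum.inl ()))))))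
      (c.ks s₀ (Sum.inr (Sum.inr (Sum.inr (Sum.inr (Sum.inl ()))))))
      (Sum.inr ⟨b, Sum.inr i⟩) = if i = c.i0 then 1 else 0 := by
    intro i
    refine (Ds_G _ _).trans ?_
    rw [map_sub, ← MvPolynomial.C_1, pderiv_C, sub_zero, pderiv_X]
    by_cases hi : i = c.i0
    · rw [if_pos hi, hi, Pi.single_eq_same, map_one]
    · rw [if_neg hi, Pi.single_eq_of_ne (fun h => hi (by simpa using h.symm)), map_zero]
  have hXo : ∀ b' θ, b' ≠ b → Ds V L.τ (Sum.elim L.y Y)
      (c.kc q (Sum.inr (Sum.inr (Sum.inr (Sum.inr (Sum.inl ()))))))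
      (c.kx (Sum.inr (Sum.inr (Sum.inr (Sum.inr (Sum.inl ()))))))
      (c.ks s₀ (Sum.inr (Sum.inr (Sum.inr (Sum.inr (Sum.inl ()))))))
      (Sum.inr ⟨b', θ⟩) = 0 := by
    intro b' θ hb
    refine (Ds_G _ _).trans ?_
    rw [map_sub, ← MvPolynomial.C_1, pderiv_C, sub_zero, pderiv_X, Pi.single_eq_of_ne
      (fun h => hb (congrArg Sigma.fst (Sum.inr_injective h)).symm), map_zero]
  refine ⟨?_, ?_, ?_, ?_, ?_, ?_, ?_, ?_, ?_⟩
  · rintro (j | i | j | j | j | j) s
    · rcases s with s | _ | _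
      · exact zero_mem_BX
      · exact zero_mem_BX
      · exact gz_mem h2 _
    · rcases s with s | _ | _
      · exact zero_mem_BX
      · show c.ke i ∈ BX (Ix A (Ux C R) N) M'
        rw [Circ.ke]
        split_ifs
        · exact EV_mem abs_fz_le abs_fz_le (abs_single hL1 _) abs_fz_le
        · exact zero_mem_BX
      · exact gz_mem h2 _
    · rcases s with s | _ | _
      · exact zero_mem_BX
      · exact zero_mem_BX
      · exact EV_mem abs_fz_le abs_fz_le (abs_single hL1 _) abs_fz_le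
    · rcases s with s | _ | _ <;> exact zero_mem_BX
    · rcases s with s | _ | _ <;> exact zero_mem_BX
    · rcases s with s | _ | _
      · exact gz_mem h2 s
      · exact EV_mem (fun a => h3 _ (c.κdM a)) abs_fz_le abs_fz_le abs_fz_le
      · exact EV_mem abs_fz_le abs_fz_le (abs_single hL2 _) abs_fz_le
  · rintro (j | i | j | j | j | j)
    · refine (rel_two (y := Sum.elim L.y Y) _ _ _ _).trans ?_
      rw [mon_gz, mon_zero', map_neg, map_one]
      show 1 * L.ζ b ⟨j, 0⟩ + -1 * 1 = 0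
      rw [ζ_zero c hσ]; ring
    · refine (rel_two (y := Sum.elim L.y Y) _ _ _ _).trans ?_
      by_cases hi : lh c.lam i = 0
      · rw [Circ.kz, Circ.ke, if_pos hi, if_pos hi, mon_gz, hm1, aeval_C, map_intCast,
          map_neg, aeval_X, Sum.elim_inr, hY]
        show (c.lam ⟨i.1, 0⟩ : K) * L.ζ b ⟨i.1, i.2.succ⟩ + -(c.η i) * L.σ b = 0
        linear_combination eq_zero_form c hi
      · rw [Circ.kz, Circ.ke, if_neg hi, if_neg hi,
          mon_gz, mon_zero', aeval_C, map_intCast, map_neg, map_add, aeval_C, map_intCast, map_mul,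
          aeval_X, aeval_X, Sum.elim_inr, Sum.elim_inr, hY, hY]
        show (c.lam ⟨i.1, 0⟩ : K) * L.ζ b ⟨i.1, i.2.succ⟩ +
          -((lh c.lam i : K) + L.σ b * c.η i) * 1 = 0
        linear_combination eq_form c hσ i
    · refine (rel_two (y := Sum.elim L.y Y) _ _ _ _).trans ?_
      rw [hm1, mon_zero', map_one, map_neg, aeval_X, Sum.elim_inr, hY]
      show 1 * (L.σ b) + -(L.σ b) * 1 = 0
      ring
    · refine (rel_two (y := Sum.elim L.y Y) _ _ _ _).trans ?_
      rw [map_zero, zero_mul, add_zero, map_sum]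
      simp only [aeval_X, Sum.elim_inr, hY]
      have h1 : ∑ i, c.YC (Sum.inr ⟨j, i⟩) = 0 := sum_η c j
      rw [h1, zero_mul]
    · refine (rel_two (y := Sum.elim L.y Y) _ _ _ _).trans ?_
      rw [map_zero, zero_mul, add_zero, map_sub, aeval_X, map_one, Sum.elim_inr, hY]
      show (c.η c.i0 - 1) * _ = 0
      rw [c.ηi0, sub_self, zero_mul]
    · exact relJ c q hσ hY
  · rintro (j | i | j | j | j | j)
    · exact Or.inl one_ne_zero
    · left
      show c2 (Zx (Ux C R)) (MvPolynomial.C (c.lam ⟨i.1, 0⟩ : ZMod p)) (c.kz i)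
        (Sum.inr !decide (lh c.lam i = 0)) ≠ 0
      by_cases hi : lh c.lam i = 0
      · rw [decide_eq_true hi, Circ.kz, if_pos hi]
        exact neg_ne_zero.mpr (X_ne_zero _)
      · rw [decide_eq_false hi]
        show MvPolynomial.C (c.lam ⟨i.1, 0⟩ : ZMod p) ≠ 0
        rw [Ne, MvPolynomial.C_eq_zero, ZMod.intCast_zmod_eq_zero_iff_dvd]
        exact c.lam0 _
    · exact Or.inl (neg_ne_zero.mpr (X_ne_zero _))
    · by_cases hR : R b j = 0
      · right
        rintro (s | _ | _)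
        · rfl
        · rfl
        · show (∑ i, X (Sum.inr ⟨b, Sum.inr ⟨j, i⟩⟩) : L.Po) = 0
          refine Finset.sum_eq_zero fun i _ => ?_
          have := i.2
          omega
      · left
        show (∑ i, X (Sum.inr ⟨b, Sum.inr ⟨j, i⟩⟩) : L.Po) ≠ 0
        obtain ⟨k⟩ : Nonempty (Fin (R b j)) := ⟨⟨0, Nat.pos_of_ne_zero hR⟩⟩
        intro h
        have h1 := congrArg (aeval (fun l => if l = (Sum.inr ⟨b, Sum.inr ⟨j, k⟩⟩ :
          (Nn ⊕ Dd) ⊕ Θx (Hx C R)) then (1 : ZMod p) else 0)) h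
        rw [map_zero, map_sum] at h1
        simp only [aeval_X] at h1
        rw [Finset.sum_eq_single k] at h1
        · rw [if_pos rfl] at h1
          exact one_ne_zero h1
        · intro i _ hi
          rw [if_neg (fun h => hi (by simpa using h))]
        · intro h; exact absurd (Finset.mem_univ _) h
    · left
      show (X (Sum.inr ⟨b, Sum.inr c.i0⟩) - 1 : L.Po) ≠ 0
      intro h
      have h1 := congrArg (aeval (fun _ => (0 : ZMod p))) h
      rw [map_zero, map_sub, aeval_X, map_one, zero_sub] at h1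
      exact one_ne_zero (neg_eq_zero.mp h1)
    · exact Or.inl hJL.ok
  · rintro (j | i | j | j | j | j) s hs
    · rcases s with s | _ | _
      · exact absurd rfl hs
      · show V.valuation (mon L.τ 0) ≤ V.valuation (mon L.τ (gz A (Ux C R) N ⟨b, ⟨j, 0⟩⟩))
        rw [mon_zero', mon_gz, vζ_zero c hσ, map_one]
      · exact le_rfl
    · show V.valuation (mon L.τ (x2 (Zx (Ux C R)) (gz A (Ux C R) N ⟨b, ⟨i.1, i.2.succ⟩⟩)
        (c.ke i) s)) ≤
        V.valuation (mon L.τ (x2 (Zx (Ux C R)) (gz A (Ux C R) N ⟨b, ⟨i.1, i.2.succ⟩⟩) (c.ke i)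
          (Sum.inr !decide (lh c.lam i = 0))))
      by_cases hi : lh c.lam i = 0
      · rw [decide_eq_true hi]
        rcases s with s | _ | _
        · exact absurd rfl hs
        · exact le_rfl
        · show V.valuation (mon L.τ (gz A (Ux C R) N ⟨b, ⟨i.1, i.2.succ⟩⟩)) ≤
            V.valuation (mon L.τ (c.ke i))
          rw [Circ.ke, if_pos hi, mon_gz, hm1, vζ_form c hi]
          exact mul_le_of_le_one_right' (c.vη i)
      · rw [decide_eq_false hi]
        rcases s with s | _ | _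
        · exact absurd rfl hs
        · show V.valuation (mon L.τ (c.ke i)) ≤
            V.valuation (mon L.τ (gz A (Ux C R) N ⟨b, ⟨i.1, i.2.succ⟩⟩))
          have h5 := eq_form c hσ i
          have hv : V.valuation (lh c.lam i : K) = 1 := vlam (lamp_of c hi)
          have h6 : V.valuation (L.ζ b ⟨i.1, i.2.succ⟩) = 1 := by
            have h7 := congrArg V.valuation h5
            rw [map_mul, vlam (c.lam0 _), one_mul] at h7
            refine h7.trans ?_
            have h8 : V.valuation (L.σ b * c.η i) < V.valuation (lh c.lam i : K) := by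
              refine lt_of_lt_of_eq ?_ hv.symm
              rw [map_mul]
              exact mul_lt_one_of_lt_of_le hσ (c.vη i)
            exact (Valuation.map_add_eq_of_lt_left _ h8).trans hv
          rw [Circ.ke, if_neg hi, mon_gz, mon_zero', map_one, h6]
        · exact le_rfl
    · rcases s with s | _ | _
      · exact absurd rfl hs
      · exact le_rfl
      · show V.valuation (mon L.τ (EV 0 0 (Pi.single b 1) 0)) ≤ V.valuation (mon L.τ 0)
        rw [hm1, mon_zero', map_one]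
        exact hσ.le
    · rcases s with s | _ | _
      · exact absurd rfl hs
      · exact absurd rfl hs
      · exact le_rfl
    · rcases s with s | _ | _
      · exact absurd rfl hs
      · exact absurd rfl hs
      · exact le_rfl
    · exact hJL.dom s hs
  · rintro (j | i | j | j | j | j) c'
    · exact (hT _ _).trans (zc0 V)
    · refine (hZ _ _ _).trans ?_
      rw [show gz A (Ux C R) N ⟨b, ⟨i.1, i.2.succ⟩⟩ (Sum.inr (Sum.inr (Sum.inr c'))) = 0 from rfl,
        EV_w, Pi.zero_apply, Int.cast_zero, mul_zero, mul_zero, sub_zero, ite_self]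
    · exact hI _
    · exact hΛ _ _
    · exact hX _
    · exact LsJ_w c q hY s₀ c'
  · rintro (j | i | j | j | j | j) b' i' hb
    · refine (hT _ _).trans ?_
      rw [gz_ne (fun h => hb (congrArg Sigma.fst h)), Int.cast_zero]
    · refine (hZ _ _ _).trans ?_
      rw [gz_ne (fun h => hb (congrArg Sigma.fst h)),
        EV_z, Pi.zero_apply,
        Int.cast_zero, mul_zero, mul_zero, sub_zero, ite_self]
    · exact hI _
    · exact hΛ _ _
    · exact hX _
    · exact LsJ_zo c q hY s₀ b' i' hb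
  · rintro (j | i | j | j | j | j) b' hb
    · exact (hT _ _).trans (zc0 V)
    · refine (hZ _ _ _).trans ?_
      rw [show gz A (Ux C R) N ⟨b, ⟨i.1, i.2.succ⟩⟩ (Sum.inr (Sum.inr (Sum.inl b'))) = 0 from rfl,
        EV_s, Pi.single_eq_of_ne hb, Int.cast_zero, mul_zero,
        mul_zero, sub_zero, ite_self]
    · exact hI _
    · exact hΛ _ _
    · exact hX _
    · exact LsJ_so c q hY s₀ b' hb
  · rintro (j | i | j | j | j | j) b' θ hb
    · exact hT' _ _
    · exact DsZo c q _ _ _ _ hb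
    · refine (hI' _).trans ?_
      rw [if_neg (fun h => hb (congrArg Sigma.fst (Sum.inr_injective h)))]
    · exact hΛo _ _ _ hb
    · exact hXo _ _ hb
    · exact DsJo c q hσ hY s₀ b' θ hb
  · intro a h1 h2' h3'
    have hJs := LsJ_s c q hY s₀
    have hJ0 := LsJ_z0 c q hY s₀
    have hJk := LsJ_zk c q hY s₀
    obtain ⟨aT, haT⟩ : ∃ f : C b → ResidueField V, f = fun x => a (Sum.inl x) := ⟨_, rfl⟩
    obtain ⟨aZ, haZ⟩ : ∃ f : Hx C R b → ResidueField V, f = fun i => a (Sum.inr (Sum.inl i)) :=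
      ⟨_, rfl⟩
    obtain ⟨aI, haI⟩ : ∃ f, f = a (Sum.inr (Sum.inr (Sum.inl ()))) := ⟨_, rfl⟩
    obtain ⟨aL, haL⟩ : ∃ f : C b → ResidueField V,
      f = fun x => a (Sum.inr (Sum.inr (Sum.inr (Sum.inl x)))) := ⟨_, rfl⟩
    obtain ⟨aX, haX⟩ : ∃ f, f = a (Sum.inr (Sum.inr (Sum.inr (Sum.inr (Sum.inl ()))))) := ⟨_, rfl⟩
    obtain ⟨aJ, haJ⟩ : ∃ f, f = a (Sum.inr (Sum.inr (Sum.inr (Sum.inr (Sum.inr ()))))) := ⟨_, rfl⟩
    have haT' : ∀ i, a (Sum.inl i) = aT i := fun i => by rw [haT]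
    have haZ' : ∀ i, a (Sum.inr (Sum.inl i)) = aZ i := fun i => by rw [haZ]
    have haL' : ∀ i, a (Sum.inr (Sum.inr (Sum.inr (Sum.inl i)))) = aL i := fun i => by rw [haL]
    have hJc : c.kc q (Sum.inr (Sum.inr (Sum.inr (Sum.inr (Sum.inr ()))))) = c.cJ q := rfl
    have hJx : c.kx (Sum.inr (Sum.inr (Sum.inr (Sum.inr (Sum.inr ()))))) = c.xJ := rfl
    have hJ₀ : c.ks s₀ (Sum.inr (Sum.inr (Sum.inr (Sum.inr (Sum.inr ()))))) = s₀ := rfl
    -- the direction of `σ`
    have hS : ∑ h : Hx C R b, (if lh c.lam h = 0 then -(aZ h * c.yr (Sum.inr h)) else 0) +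
        aJ * (2 * aeval c.yr q.Q * c.cc s₀) = 0 := by
      rw [sum_Sc, hI, hX, hJc, hJx, hJ₀, hJs, ← haJ,
        sum_zero_eq (fun x => a (Sum.inl x) * _) (fun x => by
          rw [hT, show gz A (Ux C R) N ⟨b, ⟨x, 0⟩⟩ (Sum.inr (Sum.inr (Sum.inl b))) = 0 from rfl,
            Int.cast_zero, mul_zero]),
        sum_zero_eq (fun x => a (Sum.inr (Sum.inr (Sum.inr (Sum.inl x)))) * _) (fun x => by
          rw [hΛ, mul_zero]), mul_zero, mul_zero,
        zero_add, zero_add, zero_add, zero_add] at h2'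
      refine Eq.trans ?_ h2'
      congr 1
      refine Finset.sum_congr rfl fun i _ => ?_
      rw [haZ', hZ]
      by_cases hi : lh c.lam i = 0
      · rw [if_pos hi, if_pos hi, EV_s, Pi.single_eq_same,
          show gz A (Ux C R) N ⟨b, ⟨i.1, i.2.succ⟩⟩ (Sum.inr (Sum.inr (Sum.inl b))) = 0 from rfl,
          Int.cast_zero, Int.cast_one]
        ring
      · rw [if_neg hi, if_neg hi,
          show gz A (Ux C R) N ⟨b, ⟨i.1, i.2.succ⟩⟩ (Sum.inr (Sum.inr (Sum.inl b))) = 0 from rfl,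
          Int.cast_zero]
        ring
    -- the directions of the first forms
    have hT0 : ∀ x, aT x = 0 := by
      intro x
      have h4 := h1 ⟨x, 0⟩
      rw [sum_Sc, hI, hX, hJc, hJx, hJ₀, hJ0, ← haJ,
        sum_single_eq (fun x => a (Sum.inl x) * _) x (fun y hy => by
          rw [hT, gz_ne (fun h => hy (by
            have h5 := (Sigma.mk.inj_iff.mp (eq_of_heq (Sigma.mk.inj_iff.mp h).2)).1
            exact h5.symm)), Int.cast_zero, mul_zero]), hT, gz_self, Int.cast_one, mul_one,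
        sum_zero_eq (fun x => a (Sum.inr (Sum.inr (Sum.inr (Sum.inl x)))) * _) (fun x => by
          rw [hΛ, mul_zero]),
        sum_zero_eq (fun h => a (Sum.inr (Sum.inl h)) * _) (fun h => by
          rw [hZ, gz_ne (fun h' => by
            have h5 := (Sigma.mk.inj_iff.mp (eq_of_heq (Sigma.mk.inj_iff.mp h').2))
            obtain ⟨h6, h7⟩ := h5
            obtain ⟨y, k⟩ := h
            simp only at h6
            subst h6
            exact Fin.succ_ne_zero _ (eq_of_heq h7).symm), EV_z, Pi.zero_apply,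
            Int.cast_zero, mul_zero, mul_zero, sub_zero, ite_self, mul_zero]),
        mul_zero, mul_zero, mul_zero, add_zero, add_zero, add_zero, add_zero, add_zero,
        haT'] at h4
      exact h4
    -- the directions of the other forms
    have hz : ∀ k : Hx C R b,
        (if lh c.lam k = 0 then aZ k * c.yr (Sum.inr k) else
          aZ k * (c.lam ⟨k.1, 0⟩ : ResidueField V)) + aJ * c.ρ s₀ k = 0 := by
      intro k
      have h4 := h1 ⟨k.1, k.2.succ⟩
      rw [sum_Sc, hI, hX, hJc, hJx, hJ₀, hJk, ← haJ,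
        sum_zero_eq (fun x => a (Sum.inl x) * _) (fun x => by rw [haT', hT0, zero_mul]),
        sum_zero_eq (fun x => a (Sum.inr (Sum.inr (Sum.inr (Sum.inl x)))) * _) (fun x => by
          rw [hΛ, mul_zero]), mul_zero, mul_zero,
        zero_add, zero_add, zero_add, zero_add, sum_single_eq _ k fun i hi => by
          rw [hZ, gz_hk, if_neg hi, EV_z, Pi.zero_apply, Int.cast_zero, mul_zero, mul_zero,
            sub_zero, ite_self, mul_zero]] at h4
      refine Eq.trans ?_ h4
      congr 1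
      rw [haZ', hZ, gz_hk, if_pos rfl, EV_z, Pi.zero_apply, Int.cast_zero, Int.cast_one]
      by_cases hi : lh c.lam k = 0
      · rw [if_pos hi, if_pos hi]
        ring
      · rw [if_neg hi, if_neg hi]
        ring
    -- the directions of the `y`
    have hy : ∀ i : Hx C R b, (if lh c.lam i = 0 then -aZ i else 0) + aL i.1 +
        aX * (if i = c.i0 then 1 else 0) +
        aJ * (aeval c.yr (pderiv (Sum.inr i) q.Q) * c.cc s₀) = 0 := by
      intro k
      have h4 := h3' (Sum.inr k)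
      rw [sum_Sc, hI', hX', hJc, hJx, hJ₀, DsJ c q hσ hY, if_neg (by simp), mul_zero,
        ← haX, ← haJ,
        sum_zero_eq (fun x => a (Sum.inl x) * _) (fun x => by rw [haT', hT0, zero_mul]),
        sum_single_eq (fun h => a (Sum.inr (Sum.inl h)) * _) k (fun i hi => by
          rw [DsZy c q hσ hY, if_neg (Ne.symm hi), mul_zero]), DsZy c q hσ hY, if_pos rfl,
        haZ', sum_single_eq (fun x => a (Sum.inr (Sum.inr (Sum.inr (Sum.inl x)))) * _) k.1
          (fun x hx => by rw [hΛ', if_neg hx, mul_zero]), hΛ', if_pos rfl, haL',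
        zero_add, zero_add, mul_one] at h4
      refine Eq.trans ?_ h4
      by_cases hi : lh c.lam k = 0
      · rw [if_pos hi, if_pos hi]
        ring
      · rw [if_neg hi, if_neg hi]
        ring
    obtain ⟨hZ0, hL0, hX0, hJ0'⟩ := final (fun i => (c.lam i : ResidueField V)) (lam0_res c)
      (lams_res c) (fun h => lh c.lam h = 0) (fun h => lam_res_iff c h) c.i0
      (fun i => c.yr (Sum.inr i)) (yr_sum c) (yr_i0 c) aZ aL aX aJ (aeval c.yr q.Q) (c.cc s₀)
      (fun i => c.ρ s₀ i) (fun i => aeval c.yr (pderiv (Sum.inr i) q.Q) * c.cc s₀)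
      (fun i hi => by
        have hi' : c.lam ⟨i.1, i.2.succ⟩ ≠ 0 := hi
        rw [Circ.ρ, Circ.fJ, if_neg hi', map_zero, zero_mul]) hS hz hy (by
        rcases hJL.alt with ⟨h4, h5⟩ | ⟨h4, i, hi, h5⟩
        · left
          obtain ⟨hQ, E, hE⟩ := (q.s _ c.yr (yr_ω c hσ)).1 (sum_nz c h5)
          refine ⟨h4, h5, hQ, E, fun i => ?_⟩
          have h6 : c.cc s₀ = 1 := h4
          rw [h6, mul_one]
          exact hE i
        · right
          have h6 : c.cc s₀ = 0 := h4
          refine ⟨h4, fun i => by rw [h6, mul_zero], i, hi, ?_⟩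
          have hi' : c.lam ⟨i.1, i.2.succ⟩ = 0 := hi
          rw [Circ.ρ, h5, mul_one, Circ.fJ, if_pos hi', map_neg, map_intCast]
          exact neg_ne_zero.mpr (lam0_res c _))
    have hI0 : aI = 0 := by
      have h4 := h3' (Sum.inl ())
      rw [sum_Sc, sum_zero_eq (fun h => a (Sum.inr (Sum.inl h)) * _) (fun j => by
          rw [haZ', hZ0, zero_mul]),
        sum_zero_eq (fun x => a (Sum.inl x) * _) (fun x => by rw [haT', hT0, zero_mul]),
        sum_zero_eq (fun x => a (Sum.inr (Sum.inr (Sum.inr (Sum.inl x)))) * _) (fun x => by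
          rw [haL', hL0, zero_mul]), hI', if_pos rfl,
        ← haX, ← haJ, hX0, hJ0', zero_mul, zero_mul, add_zero, add_zero,
        add_zero, zero_add, zero_add, ← haI, mul_neg, mul_one] at h4
      exact neg_eq_zero.mp h4
    rintro (j | i | j | j | j | j)
    · rw [haT']; exact hT0 j
    · rw [haZ']
      exact hZ0 i
    · exact haI ▸ hI0
    · rw [haL']; exact hL0 j
    exacts [haX ▸ hX0, haJ ▸ hJ0']

end Pool.Agent.H96.ZP
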