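import Pool.Agent.H96.ZP.LN

/-!
# Linear blocks and degenerate blocks
-/

set_option autoImplicit false
set_option linter.unusedSectionVars false

namespace Pool.Agent.H96.ZP

open MvPolynomial IsLocalRing Pool.Agent.H96.Reg Pool.Agent.H96.VL Pool.Agent.H96.W
open Pool.Agent.H96.Z (Ls Ds c2 x2 cl xl isRegular_of_terms rel_two rel_lin Ls_two Ds_two Ls_tt
  Ds_tt Ls_G Ds_G Ls_U Ds_U Ls_V Ds_V Ls_lin Ds_lin mon_zero' cring abs_single abs_zero_le abs_fz_le
  cS sum_cS)
open Pool.Agent.H96.W2 (BX mem_BX zero_mem_BX single_mem_BX single_one_mem_BX neg_mem_BX)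
open Pool.Agent.H96.S (cond_t cond_f zc0 zc_ne resv_aevalp sum_single_eq sum_zero_eq)

/-- The index sets of the forms. -/
abbrev Ux {B : Type} (C : B → Type) (R : ∀ b, C b → ℕ) : B → Type :=
  fun b => Σ c : C b, Fin (R b c + 1)

/-- The index sets of the additional variables. -/
abbrev Hx {B : Type} (C : B → Type) (R : ∀ b, C b → ℕ) : B → Type :=
  fun b => Σ c : C b, Fin (R b c)

variable {p : ℕ} [Fact p.Prime] {K : Type} [Field K] [Algebra (ZMod p) K]
  {V : ValuationSubring K} {A I Dd Nn B : Type} [Fintype A] [DecidableEq A] [Fintype Nn]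
  [DecidableEq Nn] [Fintype Dd] [DecidableEq Dd] [Fintype B] [DecidableEq B] {C : B → Type}
  [∀ b, Fintype (C b)] [∀ b, DecidableEq (C b)] {R : ∀ b, C b → ℕ} {N : ℕ}
  {Nw : Fin N → ℕ} {ew : Fin N → Zx (Ux C R) → ℤ} {M M' : ℕ}
  {L : LD p V A I Dd Nn B (Ux C R) (Hx C R) Nw ew M}

/-- The normalization of the forms of a block. -/
structure Nm (L : LD p V A I Dd Nn B (Ux C R) (Hx C R) Nw ew M) (b : B) where
  m : ∀ c : C b, Fin (R b c + 1)
  ζm : ∀ c, L.ζ b ⟨c, m c⟩ = 1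
  ζs : ∀ c, ∑ i, L.ζ b ⟨c, i⟩ = 0

section Lin

variable [Algebra (ZMod p) (ResidueField V)] {Y : Θx (Hx C R) → K} {b : B} (n : Nm L b)

include n in
/-- The sum of the forms: the residues. -/
theorem resv_ζs (c : C b) : ∑ i, resv V (L.ζ b ⟨c, i⟩) = 0 := by
  have h4 := (resv_aevalp V (fun i => L.ζ b ⟨c, i⟩) (fun i => L.vζ b _)
    (∑ i, X i : MvPolynomial (Fin (R b c + 1)) (ZMod p))).2
  rw [map_sum, map_sum] at h4
  simp only [aeval_X] at h4
  rw [← h4, n.ζs]
  exact resv_zero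

/-- The coefficients of a linear relation. -/
noncomputable def ff (p : ℕ) (b : B) (c : C b) : Zx (Ux C R) → ZMod p :=
  xt (U := Ux C R) b (xt (U := fun c => Fin (R b c + 1)) c fun _ => (1 : ZMod p))

theorem ff_self (c : C b) (i : Fin (R b c + 1)) : ff (R := R) p b c ⟨b, ⟨c, i⟩⟩ = 1 := by
  rw [ff, xt_self, xt_self]

theorem ff_ne {c c' : C b} (h : c' ≠ c) (i : Fin (R b c' + 1)) :
    ff (R := R) p b c ⟨b, ⟨c', i⟩⟩ = 0 := by
  rw [ff, xt_self, xt_ne h]

theorem ff_ne' {b' : B} (h : b' ≠ b) (c : C b) (i : Ux C R b') : ff p b c ⟨b', i⟩ = 0 := by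
  rw [ff, xt_ne h]

theorem sum_ff {β : Type} [Field β] [Algebra (ZMod p) β] (c : C b) (g : Zx (Ux C R) → β) :
    ∑ s, algebraMap (ZMod p) β (ff p b c s) * g s = ∑ i, g ⟨b, ⟨c, i⟩⟩ := by
  rw [ff, sum_xt b _ g, sum_xt c _ fun s => g ⟨b, s⟩]
  exact Finset.sum_congr rfl fun i _ => by rw [map_one, one_mul]

/-- The differential of the linear relation. -/
theorem Ls_L (c : C b) (α : Ix A (Ux C R) N) :
    Ls V L.τ (Sum.elim L.y Y) (cl (ff p b c) (0 : L.Po))
      (xl (gz A (Ux C R) N) 0) (Sum.inl ⟨b, ⟨c, n.m c⟩⟩) α =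
      ∑ s, (algebraMap (ZMod p) (ResidueField V) (ff p b c s) *
        resv V (L.ζ s.1 s.2)) * ((gz A (Ux C R) N s α : ℤ) : ResidueField V) := by
  refine (Ls_lin _ _ _ _ _ α).trans ?_
  rw [map_zero, zero_mul, zero_mul, add_zero]
  refine Finset.sum_congr rfl fun j _ => ?_
  have h1 : xl (gz A (Ux C R) N) 0 (Sum.inl ⟨b, ⟨c, n.m c⟩⟩) =
    gz A (Ux C R) N ⟨b, ⟨c, n.m c⟩⟩ := rfl
  rw [h1, mon_gz, mon_gz, n.ζm, div_one]

include n in
theorem rel_L (c : C b) : ∑ s, aeval (Sum.elim L.y Y)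
    (cl (ff p b c) (0 : L.Po) s) * mon L.τ (xl (gz A (Ux C R) N) 0 s) = 0 := by
  refine (rel_lin (y := Sum.elim L.y Y) _ _ _ _).trans ?_
  rw [map_zero, zero_mul, add_zero, sum_ff c fun s => mon L.τ (gz A (Ux C R) N s), ← n.ζs c]
  refine Finset.sum_congr rfl fun i _ => ?_
  rw [mon_gz]

theorem dom_L (c : C b) (s : Tx (Ux C R)) (hs : cl (ff p b c) (0 : L.Po) s ≠ 0) :
    V.valuation (mon L.τ (xl (gz A (Ux C R) N) 0 s)) ≤
      V.valuation (mon L.τ (xl (gz A (Ux C R) N) 0 (Sum.inl ⟨b, ⟨c, n.m c⟩⟩))) := by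
  rcases s with s | _ | _
  · show V.valuation (mon L.τ (gz A (Ux C R) N s)) ≤
      V.valuation (mon L.τ (gz A (Ux C R) N ⟨b, ⟨c, n.m c⟩⟩))
    rw [mon_gz, mon_gz, n.ζm, map_one]
    exact L.vζ _ _
  · exact absurd rfl hs
  · exact absurd rfl hs

theorem mem_L (h : 2 ≤ M') (s : Tx (Ux C R)) :
    xl (gz A (Ux C R) N) 0 s ∈ BX (Ix A (Ux C R) N) M' := by
  rcases s with s | _ | _
  · exact gz_mem h s
  · exact zero_mem_BX
  · exact zero_mem_BX

/-- The part of the independence which comes from the normalization and the linear relation. -/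
theorem ind_TL (aT aL aM : C b → ResidueField V) (lam : Ux C R b → ResidueField V)
    (hl : ∀ c, aM c * ∑ i, lam ⟨c, i⟩ = 0)
    (h : ∀ c i, aT c * (if i = n.m c then 1 else 0) + (aL c * resv V (L.ζ b ⟨c, i⟩) +
      aM c * lam ⟨c, i⟩) = 0) (c : C b) : aT c = 0 := by
  have h5 : ∑ i, (aT c * (if i = n.m c then 1 else 0) + (aL c * resv V (L.ζ b ⟨c, i⟩) +
    aM c * lam ⟨c, i⟩)) = 0 := Finset.sum_eq_zero fun i _ => h c i
  rw [Finset.sum_add_distrib, Finset.sum_add_distrib, ← Finset.mul_sum, ← Finset.mul_sum,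
    ← Finset.mul_sum, resv_ζs n, hl, mul_zero, add_zero, add_zero,
    Finset.sum_ite_eq' Finset.univ (n.m c), if_pos (Finset.mem_univ _), mul_one] at h5
  exact h5

/-- The sum of the differentials of the normalizations. -/
theorem sum_T (aT : C b → ResidueField V) (c : C b) (i : Fin (R b c + 1)) :
    ∑ c', aT c' * ((gz A (Ux C R) N ⟨b, ⟨c', n.m c'⟩⟩ (Sum.inr (Sum.inl ⟨b, ⟨c, i⟩⟩)) : ℤ) :
      ResidueField V) = aT c * (if i = n.m c then 1 else 0) := by
  rw [sum_single_eq _ c fun c' hc => by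
    rw [gz_ne (fun h => hc (by
      have h1 := congrArg (fun s : Zx (Ux C R) => s) h
      simp only [Sigma.mk.injEq, heq_eq_eq, true_and] at h1
      exact h1.1.symm)), Int.cast_zero, mul_zero]]
  by_cases hi : i = n.m c
  · rw [if_pos hi, hi, gz_self, Int.cast_one]
  · rw [if_neg hi, gz_ne (fun h => hi (by simpa using h)), Int.cast_zero]

/-- The sum of the differentials of the linear relations. -/
theorem sum_L (aL : C b → ResidueField V) (c : C b) (i : Fin (R b c + 1)) :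
    ∑ c', aL c' * ∑ s, (algebraMap (ZMod p) (ResidueField V) (ff p b c' s) *
      resv V (L.ζ s.1 s.2)) * ((gz A (Ux C R) N s (Sum.inr (Sum.inl ⟨b, ⟨c, i⟩⟩)) : ℤ) :
        ResidueField V) = aL c * resv V (L.ζ b ⟨c, i⟩) := by
  simp only [sum_gz]
  rw [sum_single_eq _ c fun c' hc => by
    rw [ff_ne (Ne.symm hc), map_zero, zero_mul, mul_zero], ff_self, map_one, one_mul]

/-- **The relations of a linear block.** -/
theorem pokL (h2 : 2 ≤ M') (hσ : L.σ b = 1) (Y : Θx (Hx C R) → K) :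
    Pok L Y M' b (S := C b ⊕ (C b ⊕ Unit))
      (Sum.elim (fun _ => c2 _ 1 (-1)) (Sum.elim
        (fun c => cl (ff p b c) 0) fun _ => c2 _ 1 (-1)))
      (Sum.elim (fun c => x2 _ (gz A (Ux C R) N ⟨b, ⟨c, n.m c⟩⟩) 0) (Sum.elim
        (fun _ => xl (gz A (Ux C R) N) 0)
        fun _ => x2 _ (EV 0 0 (Pi.single b 1) 0) 0))
      (Sum.elim (fun _ => Sum.inr true) (Sum.elim (fun c => Sum.inl ⟨b, ⟨c, n.m c⟩⟩)
        fun _ => Sum.inr true)) := by
  have hm1 : mon L.τ (EV 0 0 (Pi.single b 1) 0) = 1 := by rw [L.mon_s, hσ]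
  refine ⟨?_, ?_, ?_, ?_, ?_, ?_, ?_, ?_, ?_⟩
  · rintro (j | j | j) s
    · rcases s with s | _ | _
      · exact zero_mem_BX
      · exact zero_mem_BX
      · exact gz_mem h2 _
    · exact mem_L h2 s
    · rcases s with s | _ | _
      · exact zero_mem_BX
      · exact zero_mem_BX
      · exact EV_mem abs_fz_le abs_fz_le (abs_single (one_le_of h2) _) abs_fz_le
  · rintro (j | j | j)
    · refine (rel_two (y := Sum.elim L.y Y) _ _ _ _).trans ?_
      rw [mon_gz, n.ζm, mon_zero', map_neg, map_one]; ring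
    · exact rel_L n j
    · refine (rel_two (y := Sum.elim L.y Y) _ _ _ _).trans ?_
      rw [hm1, mon_zero', map_neg, map_one]; ring
  · rintro (j | j | j)
    · exact Or.inl one_ne_zero
    · left
      show MvPolynomial.C (ff p b j ⟨b, ⟨j, n.m j⟩⟩) ≠ 0
      rw [ff_self, MvPolynomial.C_1]
      exact one_ne_zero
    · exact Or.inl one_ne_zero
  · rintro (j | j | j) s hs
    · rcases s with s | _ | _
      · exact absurd rfl hs
      · show V.valuation (mon L.τ 0) ≤
          V.valuation (mon L.τ (gz A (Ux C R) N ⟨b, ⟨j, n.m j⟩⟩))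
        rw [mon_zero', mon_gz, n.ζm]
      · exact le_rfl
    · exact dom_L n j s hs
    · rcases s with s | _ | _
      · exact absurd rfl hs
      · show V.valuation (mon L.τ 0) ≤ V.valuation (mon L.τ (EV 0 0 (Pi.single b 1) 0))
        rw [mon_zero', hm1]
      · exact le_rfl
  · rintro (j | j | j) c'
    · exact (Ls_TT _ _).trans (zc0 V)
    · exact (Ls_L n j _).trans (sum_gz0 _ fun _ => rfl)
    · exact (Ls_U L.τ_ne_zero _).trans (zc0 V)
  · rintro (j | j | j) b' i hb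
    · refine (Ls_TT _ _).trans ?_
      rw [gz_ne (fun h => hb (congrArg Sigma.fst h)), Int.cast_zero]
    · refine (Ls_L n j _).trans ?_
      rw [sum_gz, ff_ne' hb, map_zero, zero_mul]
    · exact (Ls_U L.τ_ne_zero _).trans (zc0 V)
  · rintro (j | j | j) b' hb
    · exact (Ls_TT _ _).trans (zc0 V)
    · exact (Ls_L n j _).trans (sum_gz0 _ fun _ => rfl)
    · refine (Ls_U L.τ_ne_zero _).trans ?_
      rw [EV_s, Pi.single_eq_of_ne hb, Int.cast_zero]
  · rintro (j | j | j) θ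
    · exact Ds_U L.τ_ne_zero _
    · exact Ds_lin _ _ _ _ _ _ (map_zero _)
    · exact Ds_U L.τ_ne_zero _
  · intro a h1 h3
    obtain ⟨aT, haT⟩ : ∃ f : C b → ResidueField V, f = fun c => a (Sum.inl c) := ⟨_, rfl⟩
    obtain ⟨aL, haL⟩ : ∃ f : C b → ResidueField V, f = fun c => a (Sum.inr (Sum.inl c)) :=
      ⟨_, rfl⟩
    obtain ⟨aS, haS⟩ : ∃ f, f = a (Sum.inr (Sum.inr ())) := ⟨_, rfl⟩
    have haT' : ∀ c, a (Sum.inl c) = aT c := fun c => by rw [haT]
    have haL' : ∀ c, a (Sum.inr (Sum.inl c)) = aL c := fun c => by rw [haL]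
    simp only [Fintype.sum_sum_type, sum_unit, Sum.elim_inl, Sum.elim_inr, Ls_TT, Ls_L n,
      Ls_U L.τ_ne_zero, haT', haL', ← haS] at h1 h3
    have hS : aS = 0 := by
      rw [EV_s, Pi.single_eq_same, Int.cast_one, mul_one,
        sum_zero_eq (fun c => aT c * _) (fun c => by
          rw [show gz A (Ux C R) N ⟨b, ⟨c, n.m c⟩⟩ (Sum.inr (Sum.inr (Sum.inl b))) = 0 from rfl,
            Int.cast_zero, mul_zero]), zero_add, sum_zero_eq (fun c => aL c * _) (fun c => by
          rw [sum_gz0 _ (fun _ => rfl), mul_zero]), zero_add] at h3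
      exact h3
    have h4 : ∀ c i, aT c * (if i = n.m c then 1 else 0) + (aL c * resv V (L.ζ b ⟨c, i⟩) +
        0 * (0 : ResidueField V)) = 0 := by
      intro c i
      have h5 := h1 ⟨c, i⟩
      rw [hS, zero_mul, add_zero, sum_T, sum_L] at h5
      rw [zero_mul, add_zero]
      exact h5
    have hT0 : ∀ c, aT c = 0 := ind_TL n aT aL (fun _ => 0) (fun _ => 0)
      (fun c => by rw [zero_mul]) h4
    have hL0 : ∀ c, aL c = 0 := by
      intro c
      have h5 := h4 c (n.m c)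
      rw [hT0, zero_mul, zero_add, n.ζm, resv_one, mul_one, zero_mul, add_zero] at h5
      exact h5
    rintro (j | j | j)
    · rw [haT']; exact hT0 j
    · rw [haL']; exact hL0 j
    · exact haS ▸ hS

theorem vconst {c : ZMod p} (hc : c ≠ 0) : V.valuation (algebraMap (ZMod p) K c) = 1 := by
  have hle : ∀ c : ZMod p, V.valuation (algebraMap (ZMod p) K c) ≤ 1 := by
    intro c
    obtain ⟨n, rfl⟩ := ZMod.intCast_surjective c
    rw [map_intCast]
    exact (V.valuation_le_one_iff _).mpr (intCast_mem _ n)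
  refine le_antisymm (hle c) ?_
  have h1 := hle c⁻¹
  rw [map_inv₀, map_inv₀] at h1
  by_contra hcon
  have h0 : V.valuation (algebraMap (ZMod p) K c) ≠ 0 := by
    rw [Ne, Valuation.zero_iff, map_eq_zero]
    exact hc
  exact absurd h1 (not_le.mpr ((one_lt_inv₀ (zero_lt_iff.mpr h0)).mpr (not_le.mp hcon)))

/-- **The relations of a degenerate block.** -/
theorem pokD (h2 : 2 ≤ M') (hσ : L.σ b = 1)
    (e : Ux C R b → ZMod p) (he0 : ∀ i, e i ≠ 0)
    (he : ∀ i, L.ζ b i = algebraMap (ZMod p) K (e i))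
    (Y : Θx (Hx C R) → K) : Pok L Y M' b (S := Ux C R b ⊕ Unit)
      (Sum.elim (fun i => c2 _ 1 (-MvPolynomial.C (e i))) fun _ => c2 _ 1 (-1))
      (Sum.elim (fun i => x2 _ (gz A (Ux C R) N ⟨b, i⟩) 0)
        fun _ => x2 _ (EV 0 0 (Pi.single b 1) 0) 0)
      (Sum.elim (fun _ => Sum.inr true) fun _ => Sum.inr true) := by
  classical
  have hm1 : mon L.τ (EV 0 0 (Pi.single b 1) 0) = 1 := by rw [L.mon_s, hσ]
  have hE : ∀ i α, Ls V L.τ (Sum.elim L.y Y) (c2 (Zx (Ux C R)) (1 : L.Po) (-MvPolynomial.C (e i)))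
      (x2 (Zx (Ux C R)) (gz A (Ux C R) N ⟨b, i⟩) 0) (Sum.inr true) α =
        ((gz A (Ux C R) N ⟨b, i⟩ α : ℤ) : ResidueField V) := by
    intro i α
    rw [Ls_tt L.τ_ne_zero, Pi.zero_apply, Int.cast_zero, mul_zero, add_zero, map_one, one_mul]
  refine ⟨?_, ?_, ?_, ?_, ?_, ?_, ?_, ?_, ?_⟩
  · rintro (j | j) (s | _ | _)
    · exact zero_mem_BX
    · exact zero_mem_BX
    · exact gz_mem h2 _
    · exact zero_mem_BX
    · exact zero_mem_BX
    · exact EV_mem abs_fz_le abs_fz_le (abs_single (one_le_of h2) _) abs_fz_le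
  · rintro (j | j)
    · refine (rel_two (y := Sum.elim L.y Y) _ _ _ _).trans ?_
      rw [mon_gz, he, mon_zero', map_neg, map_one, aeval_C]; ring
    · refine (rel_two (y := Sum.elim L.y Y) _ _ _ _).trans ?_
      rw [hm1, mon_zero', map_neg, map_one]; ring
  · rintro (j | j)
    · exact Or.inl one_ne_zero
    · exact Or.inl one_ne_zero
  · rintro (j | j) (s | _ | _) hs
    · exact absurd rfl hs
    · show V.valuation (mon L.τ 0) ≤ V.valuation (mon L.τ (gz A (Ux C R) N ⟨b, j⟩))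
      rw [mon_zero', mon_gz, he, vconst (he0 j), map_one]
    · exact le_rfl
    · exact absurd rfl hs
    · show V.valuation (mon L.τ 0) ≤ V.valuation (mon L.τ (EV 0 0 (Pi.single b 1) 0))
      rw [mon_zero', hm1]
    · exact le_rfl
  · rintro (j | j) c'
    · exact (hE j _).trans (zc0 V)
    · exact (Ls_U L.τ_ne_zero _).trans (zc0 V)
  · rintro (j | j) b' i hb
    · refine (hE j _).trans ?_
      rw [gz_ne (fun h => hb (congrArg Sigma.fst h)), Int.cast_zero]
    · exact (Ls_U L.τ_ne_zero _).trans (zc0 V)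
  · rintro (j | j) b' hb
    · exact (hE j _).trans (zc0 V)
    · refine (Ls_U L.τ_ne_zero _).trans ?_
      rw [EV_s, Pi.single_eq_of_ne hb, Int.cast_zero]
  · rintro (j | j) θ
    · show Ds V L.τ (Sum.elim L.y Y) (c2 (Zx (Ux C R)) (1 : L.Po) (-MvPolynomial.C (e j)))
        (x2 (Zx (Ux C R)) (gz A (Ux C R) N ⟨b, j⟩) 0) (Sum.inr true) (Sum.inr θ) = 0
      rw [Ds_tt L.τ_ne_zero, map_neg, pderiv_C, ← MvPolynomial.C_1, pderiv_C, map_zero, neg_zero,
        map_zero, zero_mul, add_zero]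
    · exact Ds_U L.τ_ne_zero _
  · intro a h1 h3
    simp only [Fintype.sum_sum_type, sum_unit, Sum.elim_inl, Sum.elim_inr, hE,
      Ls_U L.τ_ne_zero] at h1 h3
    have hS : a (Sum.inr ()) = 0 := by
      rw [sum_zero_eq _ fun i => by
        rw [show gz A (Ux C R) N ⟨b, i⟩ (Sum.inr (Sum.inr (Sum.inl b))) = 0 from rfl,
          Int.cast_zero, mul_zero], EV_s, Pi.single_eq_same, Int.cast_one, mul_one,
        zero_add] at h3
      exact h3
    have h4 : ∀ i, a (Sum.inl i) = 0 := by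
      intro i
      have h5 := h1 i
      rw [hS, zero_mul, add_zero, sum_single_eq _ i fun j hj => by
        rw [gz_ne (s := ⟨b, j⟩) (fun h => hj (by simpa using h.symm)), Int.cast_zero, mul_zero],
        gz_self, Int.cast_one, mul_one] at h5
      exact h5
    rintro (j | j)
    exacts [h4 j, hS]

end Lin

end Pool.Agent.H96.ZP
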