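import Pool.Agent.H96.ZP.LB

/-!
# The relations of a block away from the critical point
-/

set_option autoImplicit false
set_option linter.unusedSectionVars false

namespace Pool.Agent.H96.ZP

open MvPolynomial IsLocalRing Pool.Agent.H96.Reg Pool.Agent.H96.VL Pool.Agent.H96.W
open Pool.Agent.H96.Z (Ls Ds c2 x2 cl xl isRegular_of_terms rel_two rel_lin Ls_two Ds_two Ls_tt
  Ds_tt Ls_G Ds_G Ls_U Ds_U Ls_V Ds_V Ls_lin Ds_lin mon_zero' cring abs_single abs_zero_le abs_fz_le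
  cS sum_cS)
open Pool.Agent.H96.W2 (BX mem_BX zero_mem_BX single_mem_BX single_one_mem_BX neg_mem_BX)
open Pool.Agent.H96.S (cond_t cond_f zc0 zc_ne resv_aevalp sum_single_eq sum_zero_eq)

variable {p : ℕ} [Fact p.Prime] {K : Type} [Field K] [Algebra (ZMod p) K]
  {V : ValuationSubring K} {A I Dd Nn B : Type} [Fintype A] [DecidableEq A] [Fintype Nn]
  [DecidableEq Nn] [Fintype Dd] [DecidableEq Dd] [Fintype B] [DecidableEq B] {U : B → Type}
  [∀ b, Fintype (U b)] [∀ b, DecidableEq (U b)] {H : B → Type} [∀ b, Fintype (H b)]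
  [∀ b, DecidableEq (H b)] {N : ℕ}
  {Nw : Fin N → ℕ} {ew : Fin N → Zx U → ℤ} {M M' : ℕ}
  {L : LD p V A I Dd Nn B U H Nw ew M}

/-- The exponent of a form. -/
def gz (A : Type) {B : Type} [DecidableEq B] (U : B → Type) [∀ b, DecidableEq (U b)] (N : ℕ)
    (s : Zx U) : Ix A U N → ℤ :=
  EV 0 (Pi.single s 1) 0 0

theorem mon_gz (s : Zx U) : mon L.τ (gz A U N s) = L.ζ s.1 s.2 := L.mon_zi s.1 s.2

theorem one_le_of (h : 2 ≤ M') : |(1 : ℤ)| ≤ (M' : ℤ) := by
  rw [abs_one]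
  exact_mod_cast (show 1 ≤ M' from (by decide : 1 ≤ 2).trans h)

theorem gz_mem (h : 2 ≤ M') (s : Zx U) : gz A U N s ∈ BX (Ix A U N) M' :=
  EV_mem abs_fz_le (abs_single (one_le_of h) _) abs_fz_le abs_fz_le

theorem gz_self (s : Zx U) : gz A U N s (Sum.inr (Sum.inl s)) = 1 := by
  rw [gz, EV_z, Pi.single_eq_same]

theorem gz_ne {s s' : Zx U} (h : s' ≠ s) : gz A U N s (Sum.inr (Sum.inl s')) = 0 := by
  rw [gz, EV_z, Pi.single_eq_of_ne h]

theorem sum_gz {β : Type} [CommRing β] (f : Zx U → β) (s : Zx U) :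
    ∑ j, f j * ((gz A U N j (Sum.inr (Sum.inl s)) : ℤ) : β) = f s := by
  classical
  rw [Finset.sum_eq_single s]
  · rw [gz_self, Int.cast_one, mul_one]
  · intro j _ hj
    rw [gz_ne (Ne.symm hj), Int.cast_zero, mul_zero]
  · intro h; exact absurd (Finset.mem_univ _) h

theorem sum_gz0 {β : Type} [CommRing β] (f : Zx U → β) {α : Ix A U N}
    (hα : ∀ j, gz A U N j α = 0) :
    ∑ j, f j * ((gz A U N j α : ℤ) : β) = 0 :=
  Finset.sum_eq_zero fun j _ => by rw [hα, Int.cast_zero, mul_zero]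

theorem sum_xt {β : Type} [Field β] [Algebra (ZMod p) β] (b : B)
    (f : U b → ZMod p) (g : Zx U → β) :
    ∑ s, algebraMap (ZMod p) β (xt b f s) * g s =
      ∑ i, algebraMap (ZMod p) β (f i) * g ⟨b, i⟩ := by
  rw [Fintype.sum_sigma, Finset.sum_eq_single b]
  · exact Finset.sum_congr rfl fun i _ => by rw [xt_self]
  · intro b' _ hb
    exact Finset.sum_eq_zero fun i _ => by rw [xt_ne hb, map_zero, zero_mul]
  · intro h; exact absurd (Finset.mem_univ _) h

theorem sum_unit {β : Type} [AddCommMonoid β] (g : Unit → β) : ∑ u, g u = g () := by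
  rw [Finset.univ_unique, Finset.sum_singleton]

/-- The relations of a block without additional variables are suitable. -/
structure Pok (L : LD p V A I Dd Nn B U H Nw ew M) [Algebra (ZMod p) (ResidueField V)]
    (Y : Θx H → K) (M' : ℕ) (b : B) {S : Type} [Fintype S]
    (c : S → Tx U → L.Po) (x : S → Tx U → Ix A U N → ℤ) (s₀ : S → Tx U) :
    Prop where
  mem : ∀ j s, x j s ∈ BX (Ix A U N) M'
  rel : ∀ j, ∑ s, aeval (Sum.elim L.y Y) (c j s) * mon L.τ (x j s) = 0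
  ok : ∀ j, c j (s₀ j) ≠ 0 ∨ ∀ s, c j s = 0
  dom : ∀ j s, c j s ≠ 0 → V.valuation (mon L.τ (x j s)) ≤ V.valuation (mon L.τ (x j (s₀ j)))
  w : ∀ j c', Ls V L.τ (Sum.elim L.y Y) (c j) (x j) (s₀ j) (Sum.inr (Sum.inr (Sum.inr c'))) = 0
  zo : ∀ j b' i, b' ≠ b →
    Ls V L.τ (Sum.elim L.y Y) (c j) (x j) (s₀ j) (Sum.inr (Sum.inl ⟨b', i⟩)) = 0
  so : ∀ j b', b' ≠ b →
    Ls V L.τ (Sum.elim L.y Y) (c j) (x j) (s₀ j) (Sum.inr (Sum.inr (Sum.inl b'))) = 0
  th : ∀ j θ, Ds V L.τ (Sum.elim L.y Y) (c j) (x j) (s₀ j) (Sum.inr θ) = 0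
  ind : ∀ a : S → ResidueField V,
    (∀ i, ∑ j, a j * Ls V L.τ (Sum.elim L.y Y) (c j) (x j) (s₀ j) (Sum.inr (Sum.inl ⟨b, i⟩)) = 0) →
    (∑ j, a j * Ls V L.τ (Sum.elim L.y Y) (c j) (x j) (s₀ j) (Sum.inr (Sum.inr (Sum.inl b))) = 0) →
    ∀ j, a j = 0

section Pok

variable [Algebra (ZMod p) (ResidueField V)] {Y : Θx H → K} {b : B} {S : Type} [Fintype S]

/-- The coefficients with the trivial variables. -/
noncomputable def dc (L : LD p V A I Dd Nn B U H Nw ew M) (b : B) (c : S → Tx U → L.Po) :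
    Tc (H b) ⊕ S → Tx U → L.Po :=
  Sum.elim (fun θ => c2 _ (X (Sum.inr ⟨b, θ⟩)) 0) c

/-- The exponents with the trivial variables. -/
def dx (b : B) (x : S → Tx U → Ix A U N → ℤ) : Tc (H b) ⊕ S → Tx U → Ix A U N → ℤ :=
  Sum.elim (fun _ => x2 _ 0 0) x

/-- The leading terms with the trivial variables. -/
def ds (b : B) (s₀ : S → Tx U) : Tc (H b) ⊕ S → Tx U := Sum.elim (fun _ => Sum.inr true) s₀

theorem bok_of_pok (hY : ∀ θ, Y ⟨b, θ⟩ = 0) {c : S → Tx U → L.Po}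
    {x : S → Tx U → Ix A U N → ℤ} {s₀ : S → Tx U} (hP : Pok L Y M' b c x s₀) :
    Bok L Y M' b (dc L b c) (dx b x) (ds b s₀) := by
  classical
  have hU : ∀ θ α, Ls V L.τ (Sum.elim L.y Y) (dc L b c (Sum.inl θ)) (dx b x (Sum.inl θ))
      (ds b s₀ (Sum.inl θ)) α = 0 := fun i α => Ls_G _ _ α
  have hU' : ∀ θ l, Ds V L.τ (Sum.elim L.y Y) (dc L b c (Sum.inl θ)) (dx b x (Sum.inl θ))
      (ds b s₀ (Sum.inl θ)) l = if l = Sum.inr ⟨b, θ⟩ then 1 else 0 := by
    intro i l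
    refine (Ds_G _ _).trans ?_
    rw [pderiv_X, Pi.single_apply]
    by_cases hl : l = Sum.inr ⟨b, i⟩
    · rw [if_pos hl.symm, if_pos hl, map_one]
    · rw [if_neg (Ne.symm hl), if_neg hl, map_zero]
  refine ⟨?_, ?_, ?_, ?_, ?_, ?_, ?_, ?_, ?_⟩
  · rintro (θ | j) s
    · rcases s with s | _ | _ <;> exact zero_mem_BX
    · exact hP.mem j s
  · rintro (θ | j)
    · refine (rel_two (y := Sum.elim L.y Y) _ _ _ _).trans ?_
      rw [aeval_X, map_zero, zero_mul, add_zero, Sum.elim_inr, hY, zero_mul]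
    · exact hP.rel j
  · rintro (θ | j)
    · exact Or.inl (X_ne_zero _)
    · exact hP.ok j
  · rintro (θ | j) s hs
    · rcases s with s | _ | _
      · exact absurd rfl hs
      · exact absurd rfl hs
      · exact le_rfl
    · exact hP.dom j s hs
  · rintro (θ | j) c'
    · exact hU _ _
    · exact hP.w j c'
  · rintro (θ | j) b' i hb
    · exact hU _ _
    · exact hP.zo j b' i hb
  · rintro (θ | j) b' hb
    · exact hU _ _
    · exact hP.so j b' hb
  · rintro (θ | j) b' θ' hb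
    · rw [hU', if_neg (fun h => hb (congrArg Sigma.fst (Sum.inr_injective h)))]
    · exact hP.th j _
  · intro a h1 h2 h3
    have h4 : ∀ j, a (Sum.inr j) = 0 := by
      refine hP.ind (fun j => a (Sum.inr j)) (fun i => ?_) ?_
      · have h5 := h1 i
        rwa [Fintype.sum_sum_type, sum_zero_eq _ fun θ => by rw [hU, mul_zero], zero_add] at h5
      · rwa [Fintype.sum_sum_type, sum_zero_eq _ fun θ => by rw [hU, mul_zero], zero_add] at h2
    rintro (θ | j)
    · have h5 := h3 θ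
      rw [Fintype.sum_sum_type, sum_zero_eq (fun j : S => a (Sum.inr j) * _) fun j => by
        rw [h4, zero_mul], add_zero, sum_single_eq _ θ fun θ' hθ => by
          rw [hU', if_neg (fun h => hθ (by simpa using h.symm)), mul_zero], hU', if_pos rfl,
        mul_one] at h5
      exact h5
    · exact h4 j

end Pok

theorem Ls_TT [Algebra (ZMod p) (ResidueField V)] {Y : Θx H → K} (s : Zx U) (α : Ix A U N) :
    Ls V L.τ (Sum.elim L.y Y) (c2 (Zx U) (1 : L.Po) (-1)) (x2 (Zx U) (gz A U N s) 0)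
      (Sum.inr true) α = ((gz A U N s α : ℤ) : ResidueField V) :=
  Ls_U L.τ_ne_zero α

end Pool.Agent.H96.ZP
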